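import Pool.Agent.OM80.Terms

/-!
# The sign of a signed sum of powers of two, by a saturating accumulator
-/

set_option autoImplicit false

namespace PM80

open OM80 (sg sg_false sg_true sg_not)

/-- The order of treatment: larger exponents first, then smaller indices. -/
def bf (x : ℕ → ℝ) (k i : ℕ) : Prop := x i < x k ∨ (x k = x i ∧ k < i)

theorem bf_trans {x : ℕ → ℝ} {a b c : ℕ} (h : bf x a b) (h' : bf x b c) : bf x a c := by
  rcases h with h | ⟨h, h1⟩ <;> rcases h' with h' | ⟨h', h2⟩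
  · exact Or.inl (h'.trans h)
  · exact Or.inl (by rw [← h']; exact h)
  · exact Or.inl (by rw [h]; exact h')
  · exact Or.inr ⟨h.trans h', h1.trans h2⟩

theorem bf_irrefl {x : ℕ → ℝ} {a : ℕ} : ¬ bf x a a := by
  rintro (h | ⟨-, h⟩)
  · exact lt_irrefl _ h
  · exact lt_irrefl _ h

theorem bf_total {x : ℕ → ℝ} {a b : ℕ} (h : a ≠ b) : bf x a b ∨ bf x b a := by
  rcases lt_trichotomy (x a) (x b) with h1 | h1 | h1
  · exact Or.inr (Or.inl h1)
  · rcases Nat.lt_or_gt_of_ne h with h2 | h2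
    · exact Or.inl (Or.inr ⟨h1, h2⟩)
    · exact Or.inr (Or.inr ⟨h1.symm, h2⟩)
  · exact Or.inl (Or.inl h1)

theorem bf_asymm {x : ℕ → ℝ} {a b : ℕ} (h : bf x a b) : ¬ bf x b a :=
  fun h' => bf_irrefl (bf_trans h h')

theorem bf_le {x : ℕ → ℝ} {a b : ℕ} (h : bf x a b) : x b ≤ x a := by
  rcases h with h | ⟨h, -⟩
  · exact h.le
  · exact h.ge

open Classical in
/-- The indices treated up to `i`. -/
noncomputable def up (m : ℕ) (x : ℕ → ℝ) (i : ℕ) : Finset ℕ :=
  (Finset.range m).filter fun k => k = i ∨ bf x k i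

theorem mem_up {m : ℕ} {x : ℕ → ℝ} {i k : ℕ} : k ∈ up m x i ↔ k < m ∧ (k = i ∨ bf x k i) := by
  simp [up]

/-- The exact accumulated value. -/
noncomputable def Vv (m : ℕ) (s : ℕ → Bool) (x : ℕ → ℝ) (i : ℕ) : ℝ :=
  ∑ k ∈ up m x i, (sg (s k) : ℝ) * (2 : ℝ) ^ (x k - x i)

section order

variable {m : ℕ} {s : ℕ → Bool} {x : ℕ → ℝ} {i j : ℕ}

theorem up_first (hi : i < m) (h : ∀ k < m, k = i ∨ bf x i k) : up m x i = {i} := by
  ext k
  rw [mem_up, Finset.mem_singleton]
  constructor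
  · rintro ⟨h1, h2 | h2⟩
    · exact h2
    · rcases h k h1 with h3 | h3
      · exact h3
      · exact absurd h2 (bf_asymm h3)
  · rintro rfl
    exact ⟨hi, Or.inl rfl⟩

theorem V_first (hi : i < m) (h : ∀ k < m, k = i ∨ bf x i k) :
    Vv m s x i = sg (s i) ∧ (up m x i).card = 1 := by
  rw [Vv, up_first hi h]
  simp

theorem up_next (hi : i < m) (hji : bf x j i)
    (h : ∀ k < m, k = i ∨ k = j ∨ bf x k j ∨ bf x i k) :
    up m x i = insert i (up m x j) ∧ i ∉ up m x j := by
  have hne : i ≠ j := fun h => bf_irrefl (h ▸ hji)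
  constructor
  · ext k
    rw [Finset.mem_insert, mem_up, mem_up]
    constructor
    · rintro ⟨h1, h2 | h2⟩
      · exact Or.inl h2
      · rcases h k h1 with h3 | h3 | h3 | h3
        · exact Or.inl h3
        · exact Or.inr ⟨h1, Or.inl h3⟩
        · exact Or.inr ⟨h1, Or.inr h3⟩
        · exact absurd h2 (bf_asymm h3)
    · rintro (rfl | ⟨h1, h2 | h2⟩)
      · exact ⟨hi, Or.inl rfl⟩
      · exact ⟨h1, Or.inr (h2 ▸ hji)⟩
      · exact ⟨h1, Or.inr (bf_trans h2 hji)⟩
  · rw [mem_up]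
    rintro ⟨-, h2 | h2⟩
    · exact hne h2
    · exact bf_asymm hji h2

theorem V_next (hi : i < m) (hji : bf x j i)
    (h : ∀ k < m, k = i ∨ k = j ∨ bf x k j ∨ bf x i k) :
    Vv m s x i = Vv m s x j * (2 : ℝ) ^ (x j - x i) + sg (s i) ∧
      (up m x i).card = (up m x j).card + 1 := by
  obtain ⟨h1, h2⟩ := up_next hi hji h
  constructor
  · rw [Vv, h1, Finset.sum_insert h2, Vv, Finset.sum_mul]
    rw [sub_self, Real.rpow_zero, mul_one, add_comm]
    congr 1
    refine Finset.sum_congr rfl fun k _ => ?_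
    rw [mul_assoc, ← Real.rpow_add (by norm_num)]
    congr 2
    ring
  · rw [h1, Finset.card_insert_of_notMem h2]

theorem V_last (hi : i < m) (h : ∀ k < m, k = i ∨ bf x k i) :
    ∑ k ∈ Finset.range m, (sg (s k) : ℝ) * (2 : ℝ) ^ x k = Vv m s x i * (2 : ℝ) ^ x i := by
  have h1 : up m x i = Finset.range m := by
    ext k
    rw [mem_up, Finset.mem_range]
    exact ⟨fun h => h.1, fun h1 => ⟨h1, h k h1⟩⟩
  rw [Vv, h1, Finset.sum_mul]
  refine Finset.sum_congr rfl fun k _ => ?_
  rw [mul_assoc, ← Real.rpow_add (by norm_num)]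
  congr 2
  ring

theorem card_up_le : (up m x i).card ≤ m := by
  have h1 : up m x i ⊆ Finset.range m := by
    intro k hk
    exact Finset.mem_range.2 (mem_up.1 hk).1
  have := Finset.card_le_card h1
  rwa [Finset.card_range] at this

/-- A last element in a nonempty set of indices. -/
theorem exists_last (x : ℕ → ℝ) {F : Finset ℕ} (hF : F.Nonempty) :
    ∃ j ∈ F, ∀ k ∈ F, k = j ∨ bf x k j := by
  classical
  induction F using Finset.induction_on with
  | empty => exact absurd hF (by simp)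
  | @insert a F ha ih =>
    rcases F.eq_empty_or_nonempty with rfl | hne
    · exact ⟨a, by simp, by simp⟩
    · obtain ⟨j, hj, h⟩ := ih hne
      have haj : a ≠ j := fun h => ha (h ▸ hj)
      rcases bf_total (x := x) haj with h1 | h1
      · refine ⟨j, by simp [hj], fun k hk => ?_⟩
        rcases Finset.mem_insert.1 hk with rfl | hk
        · exact Or.inr h1
        · exact h k hk
      · refine ⟨a, by simp, fun k hk => ?_⟩
        rcases Finset.mem_insert.1 hk with rfl | hk
        · exact Or.inl rfl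
        · rcases h k hk with rfl | h2
          · exact Or.inr h1
          · exact Or.inr (bf_trans h2 h1)

theorem exists_last_range (hm : 0 < m) : ∃ i < m, ∀ k < m, k = i ∨ bf x k i := by
  obtain ⟨i, hi, h⟩ := exists_last x (F := Finset.range m) ⟨0, Finset.mem_range.2 hm⟩
  exact ⟨i, Finset.mem_range.1 hi, fun k hk => h k (Finset.mem_range.2 hk)⟩

theorem exists_pred (hi : i < m) : (∀ k < m, k = i ∨ bf x i k) ∨
    ∃ j < m, bf x j i ∧ ∀ k < m, k = i ∨ k = j ∨ bf x k j ∨ bf x i k := by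
  classical
  rcases ((Finset.range m).filter fun k => bf x k i).eq_empty_or_nonempty with h | h
  · left
    intro k hk
    by_cases hki : k = i
    · exact Or.inl hki
    · rcases bf_total (x := x) hki with h1 | h1
      · have : k ∈ (Finset.range m).filter fun k => bf x k i := by simp [hk, h1]
        rw [h] at this
        exact absurd this (by simp)
      · exact Or.inr h1
  · right
    obtain ⟨j, hj, h1⟩ := exists_last x h
    simp only [Finset.mem_filter, Finset.mem_range] at hj h1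
    refine ⟨j, hj.1, hj.2, fun k hk => ?_⟩
    by_cases hki : k = i
    · exact Or.inl hki
    · rcases bf_total (x := x) hki with h2 | h2
      · rcases h1 k ⟨hk, h2⟩ with h3 | h3
        · exact Or.inr (Or.inl h3)
        · exact Or.inr (Or.inr (Or.inl h3))
      · exact Or.inr (Or.inr (Or.inr h2))

/-- Induction along the order. -/
theorem bf_induction {φ : ℕ → Prop} (hφ1 : ∀ i < m, (∀ k < m, k = i ∨ bf x i k) → φ i)
    (hφ2 : ∀ i < m, ∀ j < m, bf x j i → (∀ k < m, k = i ∨ k = j ∨ bf x k j ∨ bf x i k) →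
      φ j → φ i) : ∀ i < m, φ i := by
  have key : ∀ r, ∀ i < m, (up m x i).card ≤ r → φ i := by
    intro r
    induction r with
    | zero =>
      intro i hi h
      have : i ∈ up m x i := mem_up.2 ⟨hi, Or.inl rfl⟩
      have := Finset.card_pos.2 ⟨i, this⟩
      omega
    | succ r ih =>
      intro i hi h
      rcases exists_pred (x := x) hi with h1 | ⟨j, hj, h1, h2⟩
      · exact hφ1 i hi h1
      · have := (V_next (s := fun _ => false) hi h1 h2).2
        exact hφ2 i hi j hj h1 h2 (ih j hj (by omega))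
  intro i hi
  exact key _ i hi le_rfl

end order

/-- The saturated value `sg σ * a` is correct for the exact value `V`, after `k` of `m` items. -/
def Inv (m k : ℕ) (σ : Bool) (a : ℕ) (V : ℝ) : Prop :=
  V = sg σ * a ∨ (1 ≤ a ∧ (a : ℝ) ≤ sg σ * V ∧ m + 1 ≤ a + k)

theorem sg_sq (b : Bool) : (sg b : ℝ) * sg b = 1 := by cases b <;> simp

section updates

variable {m k a a' e q : ℕ} {τ : Bool} {V : ℝ}

theorem Inv.first (m : ℕ) (τ : Bool) : Inv m 1 τ 1 (sg τ) := Or.inl (by simp)

/-- Same sign. -/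
theorem Inv.same (h : Inv m k τ a V) (hq : m < q)
    (ha : (a * e + 1 ≤ q ∧ a' = a * e + 1) ∨ (q ≤ a * e + 1 ∧ a' = q)) (he : 1 ≤ e) :
    Inv m (k + 1) τ a' (V * e + sg τ) := by
  have hsq := sg_sq τ
  have hle : a' ≤ a * e + 1 := by rcases ha with ⟨-, h⟩ | ⟨h, h'⟩ <;> omega
  have hle' : (a' : ℝ) ≤ a * e + 1 := by exact_mod_cast hle
  have he' : (1 : ℝ) ≤ e := by exact_mod_cast he
  rcases h with h | ⟨h1, h2, h3⟩
  · have hV : sg τ * (V * e + sg τ) = (a * e + 1 : ℝ) := by
      rw [h]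
      linear_combination (a * e + 1 : ℝ) * hsq
    rcases ha with ⟨-, ha⟩ | ⟨h4, ha⟩
    · left
      rw [ha, h]
      push_cast
      ring
    · right
      exact ⟨by omega, by rw [hV]; exact hle', by omega⟩
  · right
    have h5 : a ≤ a * e := Nat.le_mul_of_pos_right _ he
    have hV : sg τ * (V * e + sg τ) = (sg τ * V) * e + 1 := by linear_combination hsq
    refine ⟨by rcases ha with ⟨-, h⟩ | ⟨h, h'⟩ <;> omega, ?_,
      by rcases ha with ⟨-, h⟩ | ⟨h, h'⟩ <;> omega⟩
    rw [hV]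
    have : (a : ℝ) * e ≤ (sg τ * V) * e := mul_le_mul_of_nonneg_right h2 (by linarith)
    linarith

/-- Opposite sign, nonzero value. -/
theorem Inv.opp (h : Inv m k τ a V) (hk : k + 1 ≤ m) (hq : m < q)
    (ha : (a * e = a' + 1 ∧ a' ≤ q) ∨ (q + 1 ≤ a * e ∧ a' = q)) (he : 1 ≤ e) :
    Inv m (k + 1) τ a' (V * e + sg (!τ)) := by
  have hsq := sg_sq τ
  rw [sg_not]
  have hle : a' + 1 ≤ a * e := by rcases ha with ⟨h, -⟩ | ⟨h, h'⟩ <;> omega
  have hle' : (a' : ℝ) + 1 ≤ a * e := by exact_mod_cast hle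
  have he' : (1 : ℝ) ≤ e := by exact_mod_cast he
  rcases h with h | ⟨h1, h2, h3⟩
  · have hV : sg τ * (V * e + ((- sg τ : ℤ) : ℝ)) = (a * e - 1 : ℝ) := by
      rw [h]
      push_cast
      linear_combination (a * e - 1 : ℝ) * hsq
    rcases ha with ⟨ha, -⟩ | ⟨h4, ha⟩
    · left
      have ha' : (a : ℝ) * e = a' + 1 := by exact_mod_cast ha
      rw [h]
      push_cast
      linear_combination (sg τ : ℝ) * ha'
    · right
      exact ⟨by omega, by rw [hV]; linarith, by omega⟩
  · right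
    have h5 : a ≤ a * e := Nat.le_mul_of_pos_right _ he
    have hV : sg τ * (V * e + ((- sg τ : ℤ) : ℝ)) = (sg τ * V) * e - 1 := by
      push_cast
      linear_combination - hsq
    refine ⟨by rcases ha with ⟨h, -⟩ | ⟨h, h'⟩ <;> omega, ?_,
      by rcases ha with ⟨h, -⟩ | ⟨h, h'⟩ <;> omega⟩
    rw [hV]
    have : (a : ℝ) * e ≤ (sg τ * V) * e := mul_le_mul_of_nonneg_right h2 (by linarith)
    linarith

/-- The value zero. -/
theorem Inv.zero {σ : Bool} {E : ℝ} (h : Inv m k σ 0 V) : Inv m (k + 1) τ 1 (V * E + sg τ) := by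
  rcases h with h | ⟨h1, -, -⟩
  · left
    rw [h]
    simp
  · omega

/-- A large shift. -/
theorem Inv.large {b : Bool} {E : ℝ} (h : Inv m k τ a V) (ha : 1 ≤ a) (hk : k + 1 ≤ m)
    (hq : m < q) (hE : (q : ℝ) ≤ E) (ha' : a' + 1 = q) : Inv m (k + 1) τ a' (V * E + sg b) := by
  right
  have hsq := sg_sq τ
  have hV : (1 : ℝ) ≤ sg τ * V := by
    have h1 : (1 : ℝ) ≤ a := by exact_mod_cast ha
    rcases h with h | ⟨-, h2, -⟩
    · rw [h]
      have : (sg τ : ℝ) * (sg τ * a) = a := by linear_combination (a : ℝ) * hsq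
      rw [this]
      exact h1
    · linarith
  have hb : -1 ≤ (sg τ : ℝ) * sg b := by
    cases τ <;> cases b <;> simp
  have hq' : (a' : ℝ) + 1 = q := by exact_mod_cast ha'
  have hE1 : 0 ≤ E := by
    have : (0 : ℝ) ≤ q := Nat.cast_nonneg _
    linarith
  refine ⟨by omega, ?_, by omega⟩
  have h3 : 1 * E ≤ (sg τ * V) * E := mul_le_mul_of_nonneg_right hV hE1
  have h4 : sg τ * (V * E + sg b) = (sg τ * V) * E + sg τ * sg b := by ring
  rw [h4]
  linarith

theorem Inv.nonneg (h : Inv m k false a V) : 0 ≤ V := by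
  have h0 : (0 : ℝ) ≤ a := Nat.cast_nonneg _
  rcases h with h | ⟨h1, h2, -⟩
  · rw [h]
    simp
  · simp at h2
    linarith

theorem Inv.neg (h : Inv m k true a V) (ha : 1 ≤ a) : V < 0 := by
  have h0 : (1 : ℝ) ≤ a := by exact_mod_cast ha
  rcases h with h | ⟨h1, h2, -⟩
  · rw [h]
    simp
    omega
  · simp at h2
    linarith

theorem Inv.nonneg' (h : Inv m k true 0 V) : 0 ≤ V := by
  rcases h with h | ⟨h1, -, -⟩
  · rw [h]
    simp
  · omega

end updates

end PM80
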