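import Pool.Agent.PM80.Sound

/-!
# The tables at a fixed point: syntactic relations
-/

set_option autoImplicit false

namespace PM80

open OM80 (sg sg_false sg_true sg_not sg_xor)
open Pt

theorem code_le_cat (t t' : Pt) : t.code ≤ (cat t t').code := by
  induction t with
  | Z =>
    have := code_pos t'
    simpa [cat, code] using this
  | A b u t _ ih =>
    simp only [cat, code]
    have := Nat.mul_le_mul_left (8 ^ u.sz) ih
    omega
  | P p q t _ _ ih =>
    simp only [cat, code]
    have h1 := Nat.mul_le_mul_left (8 ^ q.sz) ih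
    have h2 := Nat.mul_le_mul_left (8 ^ p.sz) (Nat.add_le_add_left h1 q.code)
    omega

theorem code_le_cat' (t t' : Pt) : t'.code ≤ (cat t t').code := by
  induction t with
  | Z => exact le_rfl
  | A b u t _ ih => exact ih.trans (code_A_right b u (cat t t')).le
  | P p q t _ _ ih => exact ih.trans (code_P_3 p q (cat t t')).le

/-- Row of the items of a sign. -/
def ir : Bool → ℕ
  | false => 12
  | true => 13

/-- Row of the accumulators of a sign. -/
def ar : Bool → ℕ
  | false => 18
  | true => 19

section fixed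

variable {N : ℕ} {w : List Bool} (hN : 64 ≤ N)
  (hf : ∀ r < 20, ∀ x < N, ∀ y < N, ∀ z < N, step N w r x y z → lk N w r x y z)
include hN hf

theorem c0 {p : ℕ} (hp : 2 ≤ p) (hpN : p < N) : ∀ a, p ^ a < N → lk N w 0 p a (p ^ a) := by
  intro a
  induction a with
  | zero =>
    intro ha
    exact hf 0 (by norm_num) _ hpN _ (by omega) _ ha (step0.2 (Or.inr (Or.inl ⟨rfl, rfl⟩)))
  | succ a ih =>
    intro ha
    have h1 : a + 1 < p ^ (a + 1) := Nat.lt_pow_self hp
    have h2 : p ^ a ≤ p ^ (a + 1) := Nat.pow_le_pow_right (by omega) (by omega)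
    refine hf 0 (by norm_num) _ hpN _ (by omega) _ ha (step0.2 (Or.inr (Or.inr
      ⟨a, by omega, p ^ a, by omega, rfl, ?_, ih (by omega)⟩)))
    rw [pow_succ]
    ring

omit hf in
theorem rmod_of {r b m : ℕ} (hb : b ≤ 3) (hm : 0 < m) (hmN : m < N) (a : ℕ) (ha : a < N)
    (ih : ∀ a', a = a' + 1 → lk N w r m a' (b ^ a' % m)) : rMod N w r b m a (b ^ a % m) := by
  have h1 : b ^ a % m < m := Nat.mod_lt _ hm
  refine ⟨⟨hm, h1⟩, ?_⟩
  cases a with
  | zero =>
    refine Or.inl ⟨rfl, 1 / m, ?_, ?_⟩
    · have := Nat.div_le_self 1 m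
      omega
    · rw [pow_zero]
      exact Nat.div_add_mod' 1 m
  | succ a =>
    have h0 : b ^ a % m < m := Nat.mod_lt _ hm
    have e : b ^ (a + 1) % m = b * (b ^ a % m) % m := by
      rw [pow_succ, mul_comm, Nat.mul_mod_mod]
    refine Or.inr ⟨a, by omega, b ^ a % m, by omega, b * (b ^ a % m) / m, ?_, rfl, ?_,
      ih a rfl⟩
    · have : b * (b ^ a % m) / m < 4 := by
        rw [Nat.div_lt_iff_lt_mul hm]
        have : b * (b ^ a % m) ≤ 3 * (b ^ a % m) := Nat.mul_le_mul_right _ hb
        omega
      omega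
    · rw [e]
      exact Nat.div_add_mod' _ m

theorem c1 {m : ℕ} (hm : 0 < m) (hmN : m < N) : ∀ a < N, lk N w 1 m a (2 ^ a % m) := by
  intro a
  induction a with
  | zero =>
    intro ha
    have h1 : 2 ^ 0 % m < m := Nat.mod_lt _ hm
    exact hf 1 (by norm_num) _ hmN _ ha _ (by omega) (step1.2 (Or.inr
      (rmod_of hN (by norm_num) hm hmN 0 ha (fun a' h => by omega))))
  | succ a ih =>
    intro ha
    have h1 : 2 ^ (a + 1) % m < m := Nat.mod_lt _ hm
    exact hf 1 (by norm_num) _ hmN _ ha _ (by omega) (step1.2 (Or.inr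
      (rmod_of hN (by norm_num) hm hmN _ ha (fun a' h => by
        obtain rfl : a = a' := by omega
        exact ih (by omega)))))

theorem c2 {m : ℕ} (hm : 0 < m) (hmN : m < N) : ∀ a < N, lk N w 2 m a (3 ^ a % m) := by
  intro a
  induction a with
  | zero =>
    intro ha
    have h1 : 3 ^ 0 % m < m := Nat.mod_lt _ hm
    exact hf 2 (by norm_num) _ hmN _ ha _ (by omega) (step2.2 (Or.inr
      (rmod_of hN (by norm_num) hm hmN 0 ha (fun a' h => by omega))))
  | succ a ih =>
    intro ha
    have h1 : 3 ^ (a + 1) % m < m := Nat.mod_lt _ hm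
    exact hf 2 (by norm_num) _ hmN _ ha _ (by omega) (step2.2 (Or.inr
      (rmod_of hN (by norm_num) hm hmN _ ha (fun a' h => by
        obtain rfl : a = a' := by omega
        exact ih (by omega)))))

omit hN hf in
theorem pow_sz_lt {b : Bool} {u t : Pt} (h : (A b u t).code < N) : 8 ^ u.sz < N := by
  have h1 := code_pos t
  have h2 : 8 ^ u.sz ≤ 8 ^ u.sz * t.code := Nat.le_mul_of_pos_right _ h1
  simp only [code] at h
  omega

omit hN hf in
theorem pow_sz_lt' {p q t : Pt} (h : (P p q t).code < N) : 8 ^ p.sz < N ∧ 8 ^ q.sz < N := by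
  have h1 := code_pos t
  have h2 : 8 ^ q.sz ≤ 8 ^ q.sz * t.code := Nat.le_mul_of_pos_right _ h1
  have h3 := code_pos q
  have h4 : 8 ^ p.sz ≤ 8 ^ p.sz * (q.code + 8 ^ q.sz * t.code) :=
    Nat.le_mul_of_pos_right _ (by omega)
  have h5 : q.code + 8 ^ q.sz * t.code ≤ 8 ^ p.sz * (q.code + 8 ^ q.sz * t.code) :=
    Nat.le_mul_of_pos_left _ (by positivity)
  simp only [code] at h
  omega

theorem c3 (t : Pt) : t.code < N → lk N w 3 t.code t.sz 0 := by
  induction t with
  | Z =>
    intro _
    exact hf 3 (by norm_num) _ (by simp only [code]; omega) _ (by simp only [sz]; omega) _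
      (by omega) (step3.2 (Or.inr (Or.inl ⟨rfl, rfl⟩)))
  | A b u t ihu iht =>
    intro h
    have h1 := code_A_left b u t
    have h2 := code_A_right b u t
    have h3 := sz_le_code (A b u t)
    have h4 := sz_le_code u
    have h5 := sz_le_code t
    have h6 := pow_sz_lt h
    refine hf 3 (by norm_num) _ h _ (by omega) _ (by omega) (step3.2 (Or.inr (Or.inr (Or.inl
      ⟨u.code, by omega, t.code, by omega, u.sz, by omega, t.sz,
        by omega, 8 ^ u.sz, h6, ihu (by omega), iht (by omega),
        c0 hN hf (by norm_num) (by omega) _ h6, ?_, rfl⟩))))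
    cases b
    · exact Or.inl rfl
    · exact Or.inr rfl
  | P p q t ihp ihq iht =>
    intro h
    have h1 := code_P_1 p q t
    have h2 := code_P_2 p q t
    have h3 := code_P_3 p q t
    have h4 := sz_le_code (P p q t)
    have h5 := sz_le_code p
    have h6 := sz_le_code q
    have h7 := sz_le_code t
    obtain ⟨h8, h9⟩ := pow_sz_lt' h
    exact hf 3 (by norm_num) _ h _ (by omega) _ (by omega) (step3.2 (Or.inr (Or.inr (Or.inr
      ⟨p.code, by omega, q.code, by omega, t.code, by omega, p.sz, by omega, q.sz, by omega,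
        t.sz, by omega, 8 ^ p.sz, h8, 8 ^ q.sz, h9, ihp (by omega), ihq (by omega),
        iht (by omega), c0 hN hf (by norm_num) (by omega) _ h8,
        c0 hN hf (by norm_num) (by omega) _ h9, rfl, rfl⟩))))

theorem cAA {b : Bool} {u t : Pt} (h : (A b u t).code < N) :
    AA N w (dg b) (A b u t).code u.code t.code := by
  have h1 := code_A_left b u t
  have h2 := code_A_right b u t
  have h4 := sz_le_code u
  have h5 := sz_le_code t
  have h6 := pow_sz_lt h
  exact ⟨u.sz, by omega, t.sz, by omega, 8 ^ u.sz, h6, c3 hN hf u (by omega),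
    c3 hN hf t (by omega), c0 hN hf (by norm_num) (by omega) _ h6, rfl⟩

theorem cPP {p q t : Pt} (h : (P p q t).code < N) :
    PP N w (P p q t).code p.code q.code t.code := by
  have h1 := code_P_1 p q t
  have h2 := code_P_2 p q t
  have h3 := code_P_3 p q t
  have h5 := sz_le_code p
  have h6 := sz_le_code q
  have h7 := sz_le_code t
  obtain ⟨h8, h9⟩ := pow_sz_lt' h
  exact ⟨p.sz, by omega, q.sz, by omega, t.sz, by omega, 8 ^ p.sz, h8, 8 ^ q.sz, h9,
    c3 hN hf p (by omega), c3 hN hf q (by omega), c3 hN hf t (by omega),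
    c0 hN hf (by norm_num) (by omega) _ h8, c0 hN hf (by norm_num) (by omega) _ h9, rfl⟩

theorem c6 (t t' : Pt) : (cat t t').code < N → lk N w 6 t.code t'.code (cat t t').code := by
  induction t with
  | Z =>
    intro h
    have h' : t'.code < N := h
    have h1 := sz_le_code t'
    exact hf 6 (by norm_num) _ (by simp only [code]; omega) _ h' _ h (step6.2 (Or.inr
      (Or.inl ⟨rfl, rfl, t'.sz, by omega, c3 hN hf t' h'⟩)))
  | A b u t _ ih =>
    intro h
    have h1 := code_le_cat (A b u t) t'
    have h2 := code_le_cat' (A b u t) t'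
    have h3 := code_A_left b u t
    have h4 := code_A_right b u t
    have h5 : (A b u (cat t t')).code < N := h
    have h6 := code_A_right b u (cat t t')
    refine hf 6 (by norm_num) _ (by omega) _ (by omega) _ h (step6.2 (Or.inr (Or.inr (Or.inl
      ⟨u.code, by omega, t.code, by omega, (cat t t').code, by omega, ?_, ih (by omega)⟩))))
    have a1 := cAA hN hf (b := b) (u := u) (t := t) (by omega)
    have a2 := cAA hN hf (b := b) (u := u) (t := cat t t') h5
    cases b
    · exact Or.inl ⟨a1, a2⟩
    · exact Or.inr ⟨a1, a2⟩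
  | P p q t _ _ ih =>
    intro h
    have h1 := code_le_cat (P p q t) t'
    have h2 := code_le_cat' (P p q t) t'
    have h3 := code_P_1 p q t
    have h4 := code_P_2 p q t
    have h4' := code_P_3 p q t
    have h5 : (P p q (cat t t')).code < N := h
    have h6 := code_P_3 p q (cat t t')
    exact hf 6 (by norm_num) _ (by omega) _ (by omega) _ h (step6.2 (Or.inr (Or.inr (Or.inr
      ⟨p.code, by omega, q.code, by omega, t.code, by omega, (cat t t').code, by omega,
        cPP hN hf (by omega), cPP hN hf h5, ih (by omega)⟩))))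

omit hN hf in
theorem lt_pow {t : Pt} {M : ℕ} (hM : 8 ^ M ≤ N) (h : t.sz ≤ M) : t.code < N := by
  have h1 := (code_bounds t).2
  have h2 : 8 ^ t.sz ≤ 8 ^ M := Nat.pow_le_pow_right (by norm_num) h
  omega

theorem c10 {M : ℕ} (hM : 8 ^ M ≤ N) (t : Pt) : t.sz ≤ M →
    lk N w 10 t.code (neg t).code 0 := by
  induction t with
  | Z =>
    intro h
    have h1 : Z.code < N := lt_pow hM h
    exact hf 10 (by norm_num) _ h1 _ h1 _ (by omega) (step10.2 (Or.inr (Or.inl ⟨rfl, rfl⟩)))
  | A b u t _ ih =>
    intro h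
    have h1 : (A b u t).code < N := lt_pow hM h
    have h2 : (A (!b) u (neg t)).code < N := by
      have := sz_neg (A b u t)
      exact lt_pow (t := neg (A b u t)) hM (by rw [this]; exact h)
    have h3 := code_A_left b u t
    have h4 := code_A_right b u t
    have h5 := code_A_right (!b) u (neg t)
    refine hf 10 (by norm_num) _ h1 _ h2 _ (by omega) (step10.2 (Or.inr (Or.inr (Or.inl
      ⟨u.code, by omega, t.code, by omega, (neg t).code, by omega,
        ih (by simp only [sz] at h; omega), ?_⟩))))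
    have a1 := cAA hN hf h1
    have a2 := cAA hN hf h2
    cases b
    · exact Or.inl ⟨a1, a2⟩
    · exact Or.inr ⟨a1, a2⟩
  | P p q t ihp _ ih =>
    intro h
    have h1 : (P p q t).code < N := lt_pow hM h
    have h2 : (P (neg p) q (neg t)).code < N := by
      have := sz_neg (P p q t)
      exact lt_pow (t := neg (P p q t)) hM (by rw [this]; exact h)
    have h3 := code_P_1 p q t
    have h4 := code_P_2 p q t
    have h5 := code_P_3 p q t
    have h6 := code_P_1 (neg p) q (neg t)
    have h7 := code_P_3 (neg p) q (neg t)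
    simp only [sz] at h
    exact hf 10 (by norm_num) _ h1 _ h2 _ (by omega) (step10.2 (Or.inr (Or.inr (Or.inr
      ⟨p.code, by omega, (neg p).code, by omega, q.code, by omega, t.code, by omega,
        (neg t).code, by omega, ihp (by omega), ih (by omega), cPP hN hf h1, cPP hN hf h2⟩))))

omit hN hf in
theorem cnt_lt {M : ℕ} (hM : 8 ^ M ≤ N) {t : Pt} (h : t.sz ≤ M) : cnt t < N := by
  have h1 := cnt_le t
  have h2 : 2 ^ t.sz ≤ 8 ^ t.sz := Nat.pow_le_pow_left (by norm_num) _
  have h3 : 8 ^ t.sz ≤ 8 ^ M := Nat.pow_le_pow_right (by norm_num) h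
  omega

theorem c11 {M : ℕ} (hM : 8 ^ M ≤ N) (t : Pt) : t.sz ≤ M →
    lk N w 11 t.code (cnt t) 0 := by
  induction t with
  | Z =>
    intro h
    have h1 : Z.code < N := lt_pow hM h
    exact hf 11 (by norm_num) _ h1 _ (by simp only [cnt]; omega) _ (by omega)
      (step11.2 (Or.inr (Or.inl ⟨rfl, rfl⟩)))
  | A b u t _ ih =>
    intro h
    have h1 : (A b u t).code < N := lt_pow hM h
    have h2 := cnt_lt hM h
    have h3 := code_A_left b u t
    have h4 := code_A_right b u t
    have h5 : cnt (A b u t) = cnt t + 1 := rfl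
    refine hf 11 (by norm_num) _ h1 _ h2 _ (by omega) (step11.2 (Or.inr (Or.inr (Or.inl
      ⟨u.code, by omega, t.code, by omega, cnt t, by omega, ?_,
        ih (by simp only [sz] at h; omega), rfl⟩))))
    have a1 := cAA hN hf h1
    cases b
    · exact Or.inl a1
    · exact Or.inr a1
  | P p q t ihp ihq ih =>
    intro h
    have h1 : (P p q t).code < N := lt_pow hM h
    have h2 := cnt_lt hM h
    have h3 := code_P_1 p q t
    have h4 := code_P_2 p q t
    have h5 := code_P_3 p q t
    simp only [sz] at h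
    have h6 := cnt_lt hM (t := p) (by omega)
    have h7 := cnt_lt hM (t := q) (by omega)
    have h8 := cnt_lt hM (t := t) (by omega)
    exact hf 11 (by norm_num) _ h1 _ h2 _ (by omega) (step11.2 (Or.inr (Or.inr (Or.inr
      ⟨p.code, by omega, q.code, by omega, t.code, by omega, cnt p, h6, cnt q, h7, cnt t, h8,
        cPP hN hf h1, ihp (by omega), ihq (by omega), ih (by omega), rfl⟩))))

omit hN hf in
theorem ir_lt (b : Bool) : ir b < 20 := by cases b <;> simp [ir]

omit hN hf in
theorem ar_lt (b : Bool) : ar b < 20 := by cases b <;> simp [ar]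

omit hN hf in
theorem step_ir {b : Bool} {x y z : ℕ} (h : rIt N w (ir b) (ir (!b)) (dg b) x y z) :
    step N w (ir b) x y z := by
  cases b
  · exact step12.2 (Or.inr h)
  · exact step13.2 (Or.inr h)

omit hN hf in
theorem step_ar {b : Bool} {x y z : ℕ}
    (h : rAc N w (ir b) (ir (!b)) (ar b) (ar (!b)) x y z) : step N w (ar b) x y z := by
  cases b
  · exact step18.2 (Or.inr h)
  · exact step19.2 (Or.inr h)

omit hN hf in
theorem isD_dg (b : Bool) : isD (dg b) := by
  cases b
  · exact Or.inl rfl
  · exact Or.inr rfl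

omit hf in
theorem dg_lt (b : Bool) : dg b < N := by
  cases b <;> simp only [dg] <;> omega

theorem cit {M : ℕ} (hM : 8 ^ M ≤ N) (t : Pt) : t.sz ≤ M → ∀ i < cnt t,
    lk N w (ir (item t i).1) t.code i (item t i).2.code := by
  induction t with
  | Z =>
    intro _ i hi
    simp [cnt] at hi
  | A b u t _ ih =>
    intro h i hi
    have h1 : (A b u t).code < N := lt_pow hM h
    have h2 := cnt_lt hM h
    have h3 := code_A_left b u t
    have h4 := code_A_right b u t
    have h5 := sz_item hi
    have h6 : (item (A b u t) i).2.code < N := lt_pow hM (by omega)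
    cases i with
    | zero =>
      refine hf _ (ir_lt _) _ h1 _ (by omega) _ h6 (step_ir ?_)
      rw [item_A0]
      exact Or.inl ⟨rfl, t.code, by omega, cAA hN hf h1⟩
    | succ i =>
      refine hf _ (ir_lt _) _ h1 _ (by omega) _ h6 (step_ir ?_)
      rw [item_AS]
      have h7 : cnt (A b u t) = cnt t + 1 := rfl
      simp only [cnt] at hi
      simp only [sz] at h
      exact Or.inr (Or.inl ⟨dg b, dg_lt hN b, u.code, by omega, t.code, by omega, i, by omega,
        isD_dg b, cAA hN hf h1, rfl, ih (by omega) i (by omega)⟩)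
  | P p q t ihp ihq ih =>
    intro h i hi
    have h1 : (P p q t).code < N := lt_pow hM h
    have h2 := cnt_lt hM h
    have h3 := code_P_1 p q t
    have h4 := code_P_2 p q t
    have h4' := code_P_3 p q t
    have h5 := sz_item hi
    have h6 : (item (P p q t) i).2.code < N := lt_pow hM (by omega)
    simp only [sz] at h
    have a1 := c11 hN hf hM p (by omega)
    have a2 := c11 hN hf hM q (by omega)
    have a3 := cnt_lt hM (t := p) (by omega)
    have a4 := cnt_lt hM (t := q) (by omega)
    refine hf _ (ir_lt _) _ h1 _ (by omega) _ h6 (step_ir ?_)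
    rcases pos_P hi with ⟨i1, b1, i2, b2, rfl⟩ | ⟨i', b1, rfl⟩
    · rw [item_P1 p q t b1 b2] at h6 ⊢
      have b3 := sz_item b1
      have b4 := sz_item b2
      refine Or.inr (Or.inr ⟨p.code, by omega, q.code, by omega, t.code, by omega, cnt p, a3,
        cnt q, a4, cPP hN hf h1, a1, a2, Or.inl ⟨i1, b1, i2, b2, (item p i1).2.code,
        lt_pow hM (by omega), (item q i2).2.code, lt_pow hM (by omega), rfl,
        c6 hN hf _ _ h6, ?_⟩⟩)
      have c1 := ihp (by omega) i1 b1
      have c2 := ihq (by omega) i2 b2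
      cases h7 : (item p i1).1
      · rw [h7] at c1
        rw [Bool.false_xor]
        exact Or.inl ⟨c1, c2⟩
      · rw [h7] at c1
        rw [Bool.true_xor, Bool.not_not]
        exact Or.inr ⟨c1, c2⟩
    · rw [item_P2]
      have b3 := cnt_lt hM (t := t) (by omega)
      exact Or.inr (Or.inr ⟨p.code, by omega, q.code, by omega, t.code, by omega, cnt p, a3,
        cnt q, a4, cPP hN hf h1, a1, a2, Or.inr ⟨i', by omega, rfl, ih (by omega) i' b1⟩⟩)

theorem c17 {M : ℕ} (hM : 8 ^ M ≤ N) (t : Pt) : ∀ d : ℕ, t.sz + 2 * d ≤ M →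
    lk N w 17 t.code d (inct d t).code := by
  intro d
  have hd0 : ∀ d : ℕ, t.sz + 2 * d ≤ M → d < N := by
    intro d hd
    have h1 : d < 8 ^ d := Nat.lt_pow_self (by norm_num)
    have h2 : 8 ^ d ≤ 8 ^ M := Nat.pow_le_pow_right (by norm_num) (by omega)
    omega
  induction d with
  | zero =>
    intro h
    have h1 : t.code < N := lt_pow hM (by omega)
    have h2 := sz_le_code t
    exact hf 17 (by norm_num) _ h1 _ (by omega) _ h1 (step17.2 (Or.inr (Or.inl
      ⟨rfl, rfl, t.sz, by omega, c3 hN hf t h1⟩)))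
  | succ d ih =>
    intro h
    have h1 : t.code < N := lt_pow hM (by omega)
    have h2 := sz_inct (d + 1) t
    have h3 : (inct (d + 1) t).code < N := lt_pow hM (by omega)
    have h4 := sz_inct d t
    have h5 : (inct d t).code < N := lt_pow hM (by omega)
    have h6 := hd0 (d + 1) h
    exact hf 17 (by norm_num) _ h1 _ h6 _ h3 (step17.2 (Or.inr (Or.inr
      ⟨d, by omega, (inct d t).code, h5, rfl, ih (by omega), cAA hN hf (b := false) (u := Z)
        (t := inct d t) h3⟩)))

theorem cim {M : ℕ} (hM : 8 ^ M ≤ N) (t : Pt) (h : t.sz ≤ M) {i : ℕ} (hi : i < cnt t) :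
    Im N w t.code i (item t i).2.code := by
  have h1 := cit hN hf hM t h i hi
  cases h2 : (item t i).1
  · rw [h2] at h1
    exact Or.inl h1
  · rw [h2] at h1
    exact Or.inr h1

end fixed

end PM80
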