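import Pool.Agent.PM80.Terms
import Pool.Agent.PM80.Acc

/-!
# Codes of terms, names of numbers
-/

set_option autoImplicit false

namespace PM80

open OM80 (sg sg_false sg_true sg_not sg_xor)
open Pt

/-- Digit of an exponential. -/
def dg : Bool → ℕ
  | false => 3
  | true => 4

/-- Code of a term: the word in Polish form, as digits in base eight. -/
def Pt.code : Pt → ℕ
  | Z => 1
  | A b u t => dg b + 8 * (u.code + 8 ^ u.sz * t.code)
  | P p q t => 5 + 8 * (p.code + 8 ^ p.sz * (q.code + 8 ^ q.sz * t.code))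

theorem code_pos (t : Pt) : 1 ≤ t.code := by
  cases t with
  | Z => exact le_rfl
  | A b u t => cases b <;> simp only [code, dg] <;> omega
  | P p q t => simp only [code]; omega

theorem shiftA (b : Bool) (u t : Pt) (X : ℕ) : (A b u t).code + 8 ^ (A b u t).sz * X =
    dg b + 8 * (u.code + 8 ^ u.sz * (t.code + 8 ^ t.sz * X)) := by
  simp only [code, sz, pow_succ, pow_add]
  ring

theorem shiftP (p q t : Pt) (X : ℕ) : (P p q t).code + 8 ^ (P p q t).sz * X =
    5 + 8 * (p.code + 8 ^ p.sz * (q.code + 8 ^ q.sz * (t.code + 8 ^ t.sz * X))) := by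
  simp only [code, sz, pow_succ, pow_add]
  ring

theorem shiftZ (X : ℕ) : Z.code + 8 ^ Z.sz * X = 1 + 8 * X := by
  simp [code, sz]

theorem code_pref (u : Pt) : ∀ (u' : Pt) (X X' : ℕ),
    u.code + 8 ^ u.sz * X = u'.code + 8 ^ u'.sz * X' → u = u' ∧ X = X' := by
  induction u with
  | Z =>
    intro u' X X' h
    cases u' with
    | Z =>
      rw [shiftZ, shiftZ] at h
      exact ⟨rfl, by omega⟩
    | A b' u' t' =>
      rw [shiftZ, shiftA] at h
      cases b' <;> simp only [dg] at h <;> omega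
    | P p' q' t' =>
      rw [shiftZ, shiftP] at h
      omega
  | A b u t ihu iht =>
    intro u' X X' h
    cases u' with
    | Z =>
      rw [shiftZ, shiftA] at h
      cases b <;> simp only [dg] at h <;> omega
    | A b' u' t' =>
      rw [shiftA, shiftA] at h
      have hb : b = b' := by
        cases b <;> cases b' <;> first | rfl | (simp only [dg] at h; omega)
      subst hb
      have h0 : u.code + 8 ^ u.sz * (t.code + 8 ^ t.sz * X) =
          u'.code + 8 ^ u'.sz * (t'.code + 8 ^ t'.sz * X') := by omega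
      obtain ⟨h1, h2⟩ := ihu u' _ _ h0
      obtain ⟨h3, h4⟩ := iht t' _ _ h2
      exact ⟨by rw [h1, h3], h4⟩
    | P p' q' t' =>
      rw [shiftA, shiftP] at h
      cases b <;> simp only [dg] at h <;> omega
  | P p q t ihp ihq iht =>
    intro u' X X' h
    cases u' with
    | Z =>
      rw [shiftZ, shiftP] at h
      omega
    | A b' u' t' =>
      rw [shiftP, shiftA] at h
      cases b' <;> simp only [dg] at h <;> omega
    | P p' q' t' =>
      rw [shiftP, shiftP] at h
      have h0 : p.code + 8 ^ p.sz * (q.code + 8 ^ q.sz * (t.code + 8 ^ t.sz * X)) =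
          p'.code + 8 ^ p'.sz * (q'.code + 8 ^ q'.sz * (t'.code + 8 ^ t'.sz * X')) := by omega
      obtain ⟨h1, h2⟩ := ihp p' _ _ h0
      obtain ⟨h3, h4⟩ := ihq q' _ _ h2
      obtain ⟨h5, h6⟩ := iht t' _ _ h4
      exact ⟨by rw [h1, h3, h5], h6⟩

theorem code_inj {t t' : Pt} (h : t.code = t'.code) : t = t' :=
  (code_pref t t' 0 0 (by rw [h]; simp)).1

theorem bounds_aux {x s y r : ℕ} (h1 : 8 ^ s ≤ 8 * x ∧ x < 8 ^ s)
    (h2 : 8 ^ r ≤ 8 * y ∧ y < 8 ^ r) :
    8 ^ (s + r) ≤ 8 * (x + 8 ^ s * y) ∧ x + 8 ^ s * y < 8 ^ (s + r) := by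
  obtain ⟨h1, h1'⟩ := h1
  obtain ⟨h2, h2'⟩ := h2
  have h5 : 8 ^ s * 8 ^ r ≤ 8 ^ s * (8 * y) := Nat.mul_le_mul_left _ h2
  have h6 : 8 ^ s * (y + 1) ≤ 8 ^ s * 8 ^ r := Nat.mul_le_mul_left _ h2'
  have h7 : 8 ^ s * (8 * y) = 8 * (8 ^ s * y) := by ring
  have h8 : 8 ^ s * (y + 1) = 8 ^ s * y + 8 ^ s := by ring
  rw [pow_add]
  constructor
  · omega
  · omega

theorem code_bounds (t : Pt) : 8 ^ t.sz ≤ 8 * t.code ∧ t.code < 8 ^ t.sz := by
  induction t with
  | Z => simp [code, sz]
  | A b u t ihu iht =>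
    obtain ⟨h1, h2⟩ := bounds_aux ihu iht
    simp only [code, sz]
    have hd : dg b ≤ 4 := by cases b <;> simp [dg]
    rw [pow_succ]
    constructor
    · omega
    · omega
  | P p q t ihp ihq iht =>
    obtain ⟨h1, h2⟩ := bounds_aux ihp (bounds_aux ihq iht)
    simp only [code, sz]
    have e : p.sz + (q.sz + t.sz) = p.sz + q.sz + t.sz := by ring
    rw [e] at h1 h2
    rw [pow_succ]
    constructor
    · omega
    · omega

theorem code_lt_of_sz {t t' : Pt} (h : t.sz < t'.sz) : t.code < t'.code := by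
  have h1 := (code_bounds t).2
  have h2 := (code_bounds t').1
  have h3 : 8 ^ (t.sz + 1) ≤ 8 ^ t'.sz := Nat.pow_le_pow_right (by norm_num) h
  rw [pow_succ] at h3
  omega

theorem sz_le_of_code {t t' : Pt} (h : t.code ≤ t'.code) : t.sz ≤ t'.sz := by
  by_contra hc
  have := code_lt_of_sz (not_le.1 hc)
  omega

theorem sz_le_code (t : Pt) : t.sz ≤ t.code := by
  induction t with
  | Z => simp [sz, code]
  | A b u t ihu iht =>
    simp only [sz, code]
    have h1 : t.code ≤ 8 ^ u.sz * t.code := Nat.le_mul_of_pos_left _ (by positivity)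
    have h2 : 3 ≤ dg b := by cases b <;> simp [dg]
    omega
  | P p q t ihp ihq iht =>
    simp only [sz, code]
    have h1 : t.code ≤ 8 ^ q.sz * t.code := Nat.le_mul_of_pos_left _ (by positivity)
    have h2 : q.code + 8 ^ q.sz * t.code ≤ 8 ^ p.sz * (q.code + 8 ^ q.sz * t.code) :=
      Nat.le_mul_of_pos_left _ (by positivity)
    omega

theorem exists_code (n : ℕ) : ∃ c, ∃ t : Pt, t.code = c ∧ t.Ok ∧ rv t = n :=
  ⟨_, inct n Z, rfl, Pt.Ok.inct (t := Z) trivial n, by rw [rv_inct, rv]; ring⟩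

open Classical in
/-- The valid term of least code with a given value. -/
noncomputable def can (n : ℕ) : Pt := Classical.choose (Nat.find_spec (exists_code n))

theorem ok_can (n : ℕ) : (can n).Ok := by
  classical
  exact (Classical.choose_spec (Nat.find_spec (exists_code n))).2.1

theorem rv_can (n : ℕ) : rv (can n) = n := by
  classical
  exact (Classical.choose_spec (Nat.find_spec (exists_code n))).2.2

theorem can_le {t : Pt} {n : ℕ} (ht : t.Ok) (h : rv t = n) : (can n).code ≤ t.code := by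
  classical
  have h1 := (Classical.choose_spec (Nat.find_spec (exists_code n))).1
  have h2 : (can n).code = Nat.find (exists_code n) := h1
  rw [h2]
  exact Nat.find_min' _ ⟨t, rfl, ht, h⟩

/-- Length of the name attached to a term. -/
def tl (t : Pt) : ℕ := 8 ^ (t.sz ^ 6) + t.code

/-- Names of the natural numbers. -/
noncomputable def nu (n : ℕ) : List Bool := List.replicate (tl (can n)) true

theorem tl_lt (t : Pt) : tl t < 2 * 8 ^ (t.sz ^ 6) := by
  unfold tl
  have h1 := (code_bounds t).2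
  have h2 : 8 ^ t.sz ≤ 8 ^ (t.sz ^ 6) :=
    Nat.pow_le_pow_right (by norm_num) (Nat.le_self_pow (by norm_num) _)
  omega

theorem tl_inj {t t' : Pt} (h : tl t = tl t') : t = t' := by
  have key : ∀ s s' : Pt, s.sz < s'.sz → tl s < tl s' := by
    intro s s' hs
    have h1 := tl_lt s
    have h2 : 8 ^ (s'.sz ^ 6) ≤ tl s' := by
      unfold tl
      omega
    have h3 : 8 ^ (s.sz ^ 6 + 1) ≤ 8 ^ (s'.sz ^ 6) := by
      apply Nat.pow_le_pow_right (by norm_num)
      exact Nat.pow_lt_pow_left hs (by norm_num)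
    rw [pow_succ] at h3
    omega
  have hs : t.sz = t'.sz := by
    rcases lt_trichotomy t.sz t'.sz with h1 | h1 | h1
    · have := key _ _ h1
      omega
    · exact h1
    · have := key _ _ h1
      omega
  apply code_inj
  unfold tl at h
  rw [hs] at h
  omega

theorem nu_inj : Function.Injective nu := by
  intro m n h
  have h1 := congrArg List.length h
  rw [nu, nu, List.length_replicate, List.length_replicate] at h1
  have h2 : rv (can m) = rv (can n) := by rw [tl_inj h1]
  rw [rv_can, rv_can] at h2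
  exact_mod_cast h2

/-- Short terms for small numbers. -/
theorem exists_short (lam : ℕ) : ∀ a : ℕ, a < 2 ^ lam → ∃ t : Pt, t.Ok ∧ rv t = a ∧
    t.sz ≤ lam * (2 * lam + 2) + 1 := by
  induction lam with
  | zero =>
    intro a ha
    have : a = 0 := by
      rw [pow_zero] at ha
      omega
    subst this
    exact ⟨Z, trivial, by simp [rv], by simp [sz]⟩
  | succ lam ih =>
    intro a ha
    have e : (lam + 1) * (2 * (lam + 1) + 2) = lam * (2 * lam + 2) + 4 * lam + 4 := by ring
    rcases Nat.lt_or_ge a (2 ^ lam) with h | h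
    · obtain ⟨t, h1, h2, h3⟩ := ih a h
      exact ⟨t, h1, h2, by omega⟩
    · obtain ⟨t, h1, h2, h3⟩ := ih (a - 2 ^ lam) (by rw [pow_succ] at ha; omega)
      have hr : rv (inct lam Z) = lam := by rw [rv_inct, rv]; ring
      refine ⟨A false (inct lam Z) t, ⟨Pt.Ok.inct (t := Z) trivial lam, by rw [hr]; positivity,
        h1⟩, ?_, ?_⟩
      · rw [rv_A, h2, hr, Real.rpow_natCast, Nat.cast_sub h]
        simp
      · simp only [sz, sz_inct]
        omega

/-- Atomic exponents at the base level are natural numbers `a` with `a ^ 4 < N`. -/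
def Sm (N : ℕ) : Pt → Prop
  | Z => True
  | A _ u t => (∃ a : ℕ, rv u = a ∧ a * a * (a * a) < N) ∧ Sm N t
  | P p q t => Sm N p ∧ Sm N q ∧ Sm N t

/-- Atomic exponents at the base level are valid, with values below `2 ^ lam`. -/
def SmO (lam : ℕ) : Pt → Prop
  | Z => True
  | A _ u t => (u.Ok ∧ ∃ a : ℕ, a < 2 ^ lam ∧ rv u = a) ∧ SmO lam t
  | P p q t => SmO lam p ∧ SmO lam q ∧ SmO lam t

theorem SmO.ok {lam : ℕ} {t : Pt} (h : SmO lam t) : t.Ok := by
  induction t with
  | Z => trivial
  | A b u t _ ih =>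
    obtain ⟨⟨h1, a, -, h2⟩, h3⟩ := h
    exact ⟨h1, by rw [h2]; positivity, ih h3⟩
  | P p q t ihp ihq ih => exact ⟨ihp h.1, ihq h.2.1, ih h.2.2⟩

end PM80
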