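import Pool.Agent.PM80.Basic

/-!
# The tables at a fixed point are complete
-/

set_option autoImplicit false

namespace PM80

open OM80 (sg sg_false sg_true sg_not sg_xor)
open Pt

/-- What has to be known about the exponents `u` and `v`. -/
def Cmp (N : ℕ) (w : List Bool) (D : ℕ) (u v : Pt) : Prop :=
  (rv u < rv v → lk N w 14 u.code v.code 0) ∧ ∀ δ ≤ D,
    (rv u + δ ≤ rv v → lk N w 7 v.code (inct δ u).code 0) ∧
    (rv u + δ = rv v → lk N w 7 (inct δ u).code v.code 0)

theorem cbef {N : ℕ} {w : List Bool} {W : Pt} {D i k : ℕ}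
    (h : Cmp N w D (item W i).2 (item W k).2)
    (h' : Cmp N w D (item W k).2 (item W i).2) (hb : bf (itx W) k i) :
    bef N w k (item W k).2.code i (item W i).2.code := by
  rcases hb with hb | ⟨hb, hki⟩
  · exact Or.inl (h.1 hb)
  · have h1 := (h.2 0 (Nat.zero_le _)).1
    have h2 := (h'.2 0 (Nat.zero_le _)).1
    simp only [itx] at hb
    simp only [inct] at h1 h2
    exact Or.inr ⟨h1 (by rw [hb]; simp), h2 (by rw [hb]; simp), hki⟩

section fixed

variable {N : ℕ} {w v : List Bool} (hN : 64 ≤ N)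
  (hf : ∀ r < 20, ∀ x < N, ∀ y < N, ∀ z < N, step N w r x y z → lk N w r x y z)
include hN hf

theorem total {W : Pt} {M D n : ℕ} (hM : 8 ^ M ≤ N) (hW : W.sz ≤ M) (hn : n + 2 * D ≤ M)
    (hn1 : 1 ≤ n) (hD : cnt W < 2 ^ D) (hm : 0 < cnt W)
    (hI : ∀ i < cnt W, (item W i).2.Ok ∧ (item W i).2.sz ≤ n)
    (hC : ∀ i < cnt W, ∀ j < cnt W, Cmp N w D (item W i).2 (item W j).2) :
    ∃ q < N, ∀ i < cnt W, ∃ (τ : Bool) (a : ℕ), a ≤ q ∧ lk N w (ar τ) W.code i a := by
  obtain ⟨g, hg⟩ : ∃ g, g = Nat.log 2 (cnt W) + 1 := ⟨_, rfl⟩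
  obtain ⟨q, hq⟩ : ∃ q, q = 2 ^ g := ⟨_, rfl⟩
  have hmq : cnt W < q := by
    rw [hq, hg]
    exact Nat.lt_pow_succ_log_self (by norm_num) _
  have hqm : q < 2 * cnt W + 2 := by
    have h1 := Nat.pow_log_le_self 2 (x := cnt W) (by omega)
    rw [hq, hg, pow_succ]
    omega
  have hgD : g ≤ D := by
    have h1 : Nat.log 2 (cnt W) < D := Nat.log_lt_of_lt_pow (by omega) hD
    omega
  have hpow : ∀ d ≤ g, 2 ^ d ≤ q := by
    intro d hd
    rw [hq]
    exact Nat.pow_le_pow_right (by norm_num) hd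
  have hqN : q < N := by
    have h1 : 2 ^ g ≤ 2 ^ D := Nat.pow_le_pow_right (by norm_num) hgD
    have h2 : 2 ^ D ≤ 8 ^ D := Nat.pow_le_pow_left (by norm_num) _
    have h3 : 8 ^ D < 8 ^ M := Nat.pow_lt_pow_right (by norm_num) (by omega)
    omega
  have hgN : g < N := by
    have h1 : g < 2 ^ g := Nat.lt_two_pow_self
    omega
  have hWN : W.code < N := lt_pow hM hW
  have hu : ∀ i < cnt W, (item W i).2.code < N := fun i hi => lt_pow hM (by
    have := (hI i hi).2
    omega)
  have hmN := cnt_lt hM hW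
  have e11 := c11 hN hf hM W hW
  have e0 := c0 hN hf (p := 2) (by norm_num) (by omega)
  refine ⟨q, hqN, bf_induction (m := cnt W) (x := itx W) ?_ ?_⟩
  · intro i hi h
    refine ⟨(item W i).1, 1, by omega, hf _ (ar_lt _) _ hWN _ (by omega) _ (by omega)
      (step_ar ⟨cnt W, hmN, q, hqN, g, hgN, (item W i).2.code, hu i hi, e11, hi, ?_, hmq, hqm,
        Or.inl ⟨cit hN hf hM W hW i hi, fun k hk => ?_, rfl⟩⟩)⟩
    · rw [hq]
      exact e0 g (by omega)
    · exact (h k hk).imp_right fun hb => ⟨(item W k).2.code, hu k hk, cim hN hf hM W hW hk,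
        cbef (hC k hk i hi) (hC i hi k hk) hb⟩
  · rintro i hi j hj hji h ⟨σ, a, ha, hl⟩
    have hnx : nxti N w W.code (cnt W) j (item W j).2.code i (item W i).2.code := by
      refine ⟨cbef (hC i hi j hj) (hC j hj i hi) hji, fun k hk => ?_⟩
      rcases h k hk with h1 | h1 | h1 | h1
      · exact Or.inl h1
      · exact Or.inr (Or.inl h1)
      · exact Or.inr (Or.inr ⟨(item W k).2.code, hu k hk, cim hN hf hM W hW hk,
          Or.inl (cbef (hC j hj k hk) (hC k hk j hj) h1)⟩)
      · exact Or.inr (Or.inr ⟨(item W k).2.code, hu k hk, cim hN hf hM W hW hk,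
          Or.inr (cbef (hC k hk i hi) (hC i hi k hk) h1)⟩)
    have fin : ∀ (τ : Bool) (b : ℕ), b ≤ q →
        (shs N w (ir τ) (ir (!τ)) (ar τ) (ar (!τ)) W.code j i (item W i).2.code
          (item W j).2.code a b q ∨
        shl N w (ir τ) (ir (!τ)) (ar τ) (ar (!τ)) W.code j i (item W i).2.code
          (item W j).2.code a b q g) → ∃ (τ : Bool) (a : ℕ), a ≤ q ∧
          lk N w (ar τ) W.code i a := by
      intro τ b hb hs
      refine ⟨τ, b, hb, hf _ (ar_lt _) _ hWN _ (by omega) _ (by omega)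
        (step_ar ⟨cnt W, hmN, q, hqN, g, hgN, (item W i).2.code, hu i hi, e11, hi, ?_, hmq, hqm,
          Or.inr ⟨j, hj, (item W j).2.code, hu j hj, a, by omega, cim hN hf hM W hW hj, hnx,
            hs⟩⟩)⟩
      rw [hq]
      exact e0 g (by omega)
    obtain ⟨d, hd⟩ : ∃ d : ℕ, rv (item W i).2 + d = rv (item W j).2 := by
      obtain ⟨z1, hz1⟩ := (hI i hi).1.int
      obtain ⟨z2, hz2⟩ := (hI j hj).1.int
      have h1 := bf_le hji
      simp only [itx] at h1
      rw [hz1, hz2] at h1 ⊢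
      have h2 : z1 ≤ z2 := by exact_mod_cast h1
      refine ⟨(z2 - z1).toNat, ?_⟩
      have h3 : ((z2 - z1).toNat : ℤ) = z2 - z1 := Int.toNat_of_nonneg (by omega)
      have h4 : (((z2 - z1).toNat : ℤ) : ℝ) = ((z2 - z1 : ℤ) : ℝ) := by rw [h3]
      rw [Int.cast_natCast] at h4
      rw [h4]
      push_cast
      ring
    have hsi := (hI i hi).2
    have hsj := (hI j hj).2
    have hsz := fun δ => sz_inct δ (item W i).2
    have e17 := fun δ (hδ : δ ≤ D) => c17 hN hf hM (item W i).2 δ (by omega)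
    have hzN : ∀ δ ≤ D, (inct δ (item W i).2).code < N := fun δ hδ =>
      lt_pow hM (by rw [hsz]; omega)
    have eit := cit hN hf hM W hW i hi
    rcases Nat.lt_or_ge d g with hdg | hdg
    · -- exact shift
      have hde : 2 ^ d < N := by
        have := hpow d (by omega)
        omega
      have hd1 : 1 ≤ 2 ^ d := Nat.one_le_two_pow
      have hCd := (hC i hi j hj).2 d (by omega)
      have mk : ∀ (τ : Bool) (b : ℕ),
          ((lk N w (ir τ) W.code i (item W i).2.code ∧ lk N w (ar τ) W.code j a ∧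
            ((a * 2 ^ d < q ∧ b = a * 2 ^ d + 1) ∨ (q < a * 2 ^ d + 2 ∧ b = q))) ∨
          (lk N w (ir (!τ)) W.code i (item W i).2.code ∧ lk N w (ar τ) W.code j a ∧
            ((a * 2 ^ d = b + 1 ∧ b < q + 1) ∨ (q < a * 2 ^ d ∧ b = q))) ∨
          (lk N w (ir τ) W.code i (item W i).2.code ∧ lk N w (ar (!τ)) W.code j a ∧ a = 0 ∧
            b = 1)) → b ≤ q → ∃ (τ : Bool) (a : ℕ), a ≤ q ∧ lk N w (ar τ) W.code i a := by
        intro τ b h1 hb
        exact fin τ b hb (Or.inl ⟨d, by omega, 2 ^ d, hde, (inct d (item W i).2).code,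
          hzN d (by omega), e0 d hde, e17 d (by omega), hCd.1 hd.le, hCd.2 hd, h1⟩)
      rcases Nat.eq_zero_or_pos a with rfl | ha0
      · by_cases hs : (item W i).1 = σ
        · rw [hs] at eit
          refine mk σ 1 (Or.inl ⟨eit, hl, Or.inl ⟨?_, ?_⟩⟩) (by omega)
          · rw [zero_mul]
            omega
          · rw [zero_mul]
        · have hs' : (item W i).1 = !σ := by
            cases h1 : (item W i).1 <;> cases h2 : σ <;> simp_all
          rw [hs'] at eit
          refine mk (!σ) 1 (Or.inr (Or.inr ⟨eit, ?_, rfl, rfl⟩)) (by omega)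
          rw [Bool.not_not]
          exact hl
      · have hae : 1 ≤ a * 2 ^ d := Nat.mul_pos ha0 hd1
        by_cases hs : (item W i).1 = σ
        · rw [hs] at eit
          rcases Nat.lt_or_ge (a * 2 ^ d) q with h1 | h1
          · exact mk σ (a * 2 ^ d + 1) (Or.inl ⟨eit, hl, Or.inl ⟨h1, rfl⟩⟩) (by omega)
          · exact mk σ q (Or.inl ⟨eit, hl, Or.inr ⟨by omega, rfl⟩⟩) le_rfl
        · have hs' : (item W i).1 = !σ := by
            cases h1 : (item W i).1 <;> cases h2 : σ <;> simp_all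
          rw [hs'] at eit
          rcases Nat.lt_or_ge q (a * 2 ^ d) with h1 | h1
          · exact mk σ q (Or.inr (Or.inl ⟨eit, hl, Or.inr ⟨h1, rfl⟩⟩)) le_rfl
          · exact mk σ (a * 2 ^ d - 1) (Or.inr (Or.inl ⟨eit, hl, Or.inl ⟨by omega, by omega⟩⟩))
              (by omega)
    · -- large shift
      have hCg := (hC i hi j hj).2 g hgD
      have hle : rv (item W i).2 + g ≤ rv (item W j).2 := by
        have : (g : ℝ) ≤ d := by exact_mod_cast hdg
        linarith
      have mk : ∀ (τ : Bool) (b : ℕ),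
          (((lk N w (ir τ) W.code i (item W i).2.code ∨
            lk N w (ir (!τ)) W.code i (item W i).2.code) ∧ lk N w (ar τ) W.code j a ∧ 0 < a ∧
            b + 1 = q) ∨
          (lk N w (ir τ) W.code i (item W i).2.code ∧ (lk N w (ar τ) W.code j a ∨
            lk N w (ar (!τ)) W.code j a) ∧ a = 0 ∧ b = 1)) → b ≤ q →
            ∃ (τ : Bool) (a : ℕ), a ≤ q ∧ lk N w (ar τ) W.code i a := by
        intro τ b h1 hb
        exact fin τ b hb (Or.inr ⟨(inct g (item W i).2).code, hzN g hgD, e17 g hgD,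
          hCg.1 hle, h1⟩)
      rcases Nat.eq_zero_or_pos a with rfl | ha0
      · refine mk (item W i).1 1 (Or.inr ⟨eit, ?_, rfl, rfl⟩) (by omega)
        by_cases hs : (item W i).1 = σ
        · rw [hs]
          exact Or.inl hl
        · have hs' : (!(item W i).1) = σ := by
            cases h1 : (item W i).1 <;> cases h2 : σ <;> simp_all
          rw [hs']
          exact Or.inr hl
      · refine mk σ (q - 1) (Or.inl ⟨?_, hl, ha0, by omega⟩) (by omega)
        by_cases hs : (item W i).1 = σ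
        · rw [hs] at eit
          exact Or.inl eit
        · have hs' : (item W i).1 = !σ := by
            cases h1 : (item W i).1 <;> cases h2 : σ <;> simp_all
          rw [hs'] at eit
          exact Or.inr eit

variable (hw : Snd N w v)
include hw

theorem word {W : Pt} {M D n : ℕ} (hM : 8 ^ M ≤ N) (hW : W.sz ≤ M) (hn : n + 2 * D ≤ M)
    (hn1 : 1 ≤ n) (hD : cnt W < 2 ^ D)
    (hI : ∀ i < cnt W, (item W i).2.Ok ∧ (item W i).2.sz ≤ n)
    (hC : ∀ i < cnt W, ∀ j < cnt W, Cmp N w D (item W i).2 (item W j).2) :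
    (0 ≤ rv W → lk N w 15 W.code 0 0) ∧ (rv W < 0 → lk N w 16 W.code 0 0) := by
  have N0 : 0 < N := by omega
  have hWN : W.code < N := lt_pow hM hW
  have hmN := cnt_lt hM hW
  have e11 := c11 hN hf hM W hW
  rcases Nat.eq_zero_or_pos (cnt W) with hm | hm
  · rw [hm] at e11
    refine ⟨fun _ => hf 15 (by norm_num) _ hWN _ N0 _ N0 (step15.2 (Or.inr (Or.inl e11))), ?_⟩
    intro h
    rw [rv_its, hm] at h
    simp at h
  · obtain ⟨q, hqN, ht⟩ := total hN hf hM hW hn hn1 hD hm hI hC
    obtain ⟨i, hi, h1⟩ := exists_last_range (x := itx W) hm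
    obtain ⟨τ, a, haq, hl⟩ := ht i hi
    have hui : (item W i).2.code < N := lt_pow hM (by
      have := (hI i hi).2
      omega)
    have him := cim hN hf hM W hW hi
    have hls : lsti N w W.code (cnt W) i (item W i).2.code := fun k hk =>
      (h1 k hk).imp_right fun hb => ⟨(item W k).2.code, lt_pow hM (by
        have := (hI k hk).2
        omega), cim hN hf hM W hW hk, cbef (hC i hi k hk) (hC k hk i hi) hb⟩
    have done : (rNn N w W.code ∨ rNe N w W.code) →
        (0 ≤ rv W → lk N w 15 W.code 0 0) ∧ (rv W < 0 → lk N w 16 W.code 0 0) := by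
      rintro (h2 | h2)
      · have h3 := hf 15 (by norm_num) _ hWN _ N0 _ N0 (step15.2 (Or.inr h2))
        have h4 := g15 hw hWN N0 N0 h3
        exact ⟨fun _ => h3, fun h5 => absurd h5 (not_lt.2 h4)⟩
      · have h3 := hf 16 (by norm_num) _ hWN _ N0 _ N0 (step16.2 (Or.inr h2))
        have h4 := g16 hw hWN N0 N0 h3
        exact ⟨fun h5 => absurd h4 (not_lt.2 h5), fun _ => h3⟩
    apply done
    cases τ
    · exact Or.inl (Or.inr ⟨cnt W, hmN, i, hi, _, hui, e11, him, hls,
        Or.inl ⟨a, by omega, hl⟩⟩)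
    · rcases Nat.eq_zero_or_pos a with rfl | ha0
      · exact Or.inl (Or.inr ⟨cnt W, hmN, i, hi, _, hui, e11, him, hls, Or.inr hl⟩)
      · exact Or.inr ⟨cnt W, hmN, i, hi, _, hui, a, by omega, e11, him, hls, ha0, hl⟩

/-- Comparison of two terms, from the comparison of the exponents of their items. -/
theorem cmp_step {P n D : ℕ} (hP : 8 ^ (20 * P + 200) ≤ N) (hD : D = P + 10) (hn1 : 1 ≤ n)
    (hnP : n + 1 ≤ P)
    (ih : ∀ u v : Pt, u.Ok → v.Ok → u.sz ≤ n → v.sz ≤ n → Cmp N w D u v)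
    {u v : Pt} (hu : u.Ok) (hv : v.Ok) (hus : u.sz ≤ n + 1) (hvs : v.sz ≤ n + 1) :
    Cmp N w D u v := by
  have N0 : 0 < N := by omega
  -- the words
  have key : ∀ a b : Pt, ∀ δ ε : ℕ, δ ≤ D → ε ≤ D → δ * ε = 0 → a.Ok → b.Ok → a.sz ≤ n + 1 →
      b.sz ≤ n + 1 →
      (rv b + ε ≤ rv a + δ → lk N w 7 (inct δ a).code (inct ε b).code 0) ∧
      (rv a + δ < rv b + ε → lk N w 14 (inct δ a).code (inct ε b).code 0) := by
    intro a b δ ε hδ hε h0 ha hb has hbs
    have h00 : δ = 0 ∨ ε = 0 := Nat.mul_eq_zero.1 h0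
    have hφ : ∀ t : Pt, t.Ok → t.sz ≤ n + 1 → AllI (fun e => e.Ok ∧ e.sz ≤ n) t := by
      intro t ht hts i hi
      have h1 := sz_item hi
      exact ⟨(ok_item ht hi).1, by omega⟩
    have hZ : Z.Ok ∧ Z.sz ≤ n := ⟨trivial, hn1⟩
    have hA : AllI (fun e => e.Ok ∧ e.sz ≤ n) (cat (inct δ a) (neg (inct ε b))) :=
      ((hφ a ha has).inct hZ δ).cat (((hφ b hb hbs).inct hZ ε).neg)
    have s1 := sz_inct δ a
    have s2 := sz_inct ε b
    have s3 := sz_neg (inct ε b)
    have s4 := sz_cat (inct δ a) (neg (inct ε b))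
    have m1 : cnt (cat (inct δ a) (neg (inct ε b))) = δ + cnt a + (ε + cnt b) := by
      rw [cnt_cat, cnt_neg, cnt_inct, cnt_inct]
    have m2 : cnt (cat (inct δ a) (neg (inct ε b))) < 2 ^ D := by
      rw [m1]
      have h1 := cnt_le a
      have h2 := cnt_le b
      have h3 : 2 ^ a.sz ≤ 2 ^ P := Nat.pow_le_pow_right (by norm_num) (by omega)
      have h4 : 2 ^ b.sz ≤ 2 ^ P := Nat.pow_le_pow_right (by norm_num) (by omega)
      have h5 : P < 2 ^ P := Nat.lt_two_pow_self
      rw [hD, pow_add]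
      omega
    obtain ⟨w1, w2⟩ := word hN hf hw hP (W := cat (inct δ a) (neg (inct ε b))) (D := D)
      (n := n) (by omega) (by omega) hn1 m2 hA
      (fun i hi j hj => ih _ _ (hA i hi).1 (hA j hj).1 (hA i hi).2 (hA j hj).2)
    have l1 : (inct δ a).code < N := lt_pow hP (by omega)
    have l2 : (inct ε b).code < N := lt_pow hP (by omega)
    have l3 : (neg (inct ε b)).code < N := lt_pow hP (by omega)
    have l4 : (cat (inct δ a) (neg (inct ε b))).code < N := lt_pow hP (by omega)
    have e10 := c10 hN hf hP (inct ε b) (by omega)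
    have e6 := c6 hN hf (inct δ a) (neg (inct ε b)) l4
    rw [rv_cat, rv_neg, rv_inct, rv_inct] at w1 w2
    constructor
    · intro h
      exact hf 7 (by norm_num) _ l1 _ l2 _ N0 (step7.2 (Or.inr ⟨_, l3, _, l4, e10, e6,
        w1 (by linarith)⟩))
    · intro h
      exact hf 14 (by norm_num) _ l1 _ l2 _ N0 (step14.2 (Or.inr ⟨_, l3, _, l4, e10, e6,
        w2 (by linarith)⟩))
  refine ⟨fun h => ?_, fun δ hδ => ⟨fun h => ?_, fun h => ?_⟩⟩
  · have := (key u v 0 0 (by omega) (by omega) rfl hu hv hus hvs).2 (by simpa using h)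
    simpa only [inct] using this
  · have := (key v u 0 δ (by omega) hδ (by omega) hv hu hvs hus).1 (by simpa using h)
    simpa only [inct] using this
  · have := (key u v δ 0 hδ (by omega) (by omega) hu hv hus hvs).1 (by
      rw [h]
      simp)
    simpa only [inct] using this

theorem cmp_all {P : ℕ} (hP : 8 ^ (20 * P + 200) ≤ N) (n : ℕ) (hnP : n + 1 ≤ P) :
    ∀ u v : Pt, u.Ok → v.Ok → u.sz ≤ n + 1 → v.sz ≤ n + 1 → Cmp N w (P + 10) u v := by
  have N0 : 0 < N := by omega
  induction n with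
  | zero =>
    have isZ : ∀ t : Pt, t.sz ≤ 0 + 1 → t = Z := by
      intro t ht
      cases t with
      | Z => rfl
      | A b u t =>
        have := one_le_sz u
        have := one_le_sz t
        simp only [sz] at ht
        omega
      | P p q t =>
        have := one_le_sz p
        have := one_le_sz t
        simp only [sz] at ht
        omega
    intro u v _ _ hu hv
    rw [isZ u hu, isZ v hv]
    have l1 : Z.code < N := by simp only [code]; omega
    have hM : 8 ^ (20 * P + 200) ≤ N := hP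
    have e10 := c10 hN hf hM Z (by simp only [sz]; omega)
    have e6 := c6 hN hf Z (neg Z) l1
    have e11 := c11 hN hf hM Z (by simp only [sz]; omega)
    have e15 : lk N w 15 (cat Z (neg Z)).code 0 0 :=
      hf 15 (by norm_num) _ l1 _ N0 _ N0 (step15.2 (Or.inr (Or.inl e11)))
    have e7 : lk N w 7 Z.code Z.code 0 :=
      hf 7 (by norm_num) _ l1 _ l1 _ N0 (step7.2 (Or.inr ⟨_, l1, _, l1, e10, e6, e15⟩))
    refine ⟨fun h => absurd h (lt_irrefl _), fun δ _ => ⟨fun h => ?_, fun h => ?_⟩⟩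
    · have h0 : (δ : ℝ) ≤ 0 := by linarith
      have h1 : δ = 0 := by
        have : δ ≤ 0 := by exact_mod_cast h0
        omega
      rw [h1]
      exact e7
    · have h0 : (δ : ℝ) = 0 := by linarith
      have h1 : δ = 0 := by exact_mod_cast h0
      rw [h1]
      exact e7
  | succ n ih =>
    intro u v hu hv hus hvs
    exact cmp_step hN hf hw hP rfl (by omega) hnP (ih (by omega)) hu hv hus hvs

/-- Completeness for the order. -/
theorem c7 {P : ℕ} (hP1 : 1 ≤ P) (hP : 8 ^ (20 * P + 200) ≤ N) {t t' : Pt} (ht : t.Ok)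
    (ht' : t'.Ok) (hz : t.sz ≤ P) (hz' : t'.sz ≤ P) (h : rv t' ≤ rv t) :
    lk N w 7 t.code t'.code 0 := by
  have h1 := cmp_all hN hf hw hP (P - 1) (by omega) t' t ht' ht (by omega) (by omega)
  have h2 := (h1.2 0 (by omega)).1 (by simpa using h)
  simpa only [inct] using h2

omit hN hf hw in
theorem P_le {P : ℕ} : P ≤ 20 * P + 200 := by omega

/-- Completeness for validity. -/
theorem c9 {P : ℕ} (hP1 : 1 ≤ P) (hP : 8 ^ (20 * P + 200) ≤ N) (t : Pt) : t.Ok → t.sz ≤ P →
    lk N w 9 t.code 0 0 := by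
  induction t with
  | Z =>
    intro _ _
    exact hf 9 (by norm_num) _ (by simp only [code]; omega) _ (by omega) _ (by omega)
      (step9.2 (Or.inr (Or.inl rfl)))
  | A b u t ihu iht =>
    intro h hs
    obtain ⟨h1, h2, h3⟩ := h
    have h4 : (A b u t).code < N := lt_pow hP (hs.trans P_le)
    have h5 := code_A_left b u t
    have h6 := code_A_right b u t
    simp only [sz] at hs
    have h7 := c7 hN hf hw hP1 hP h1 (t' := Z) trivial (by omega) hP1 (by rw [rv]; exact h2)
    refine hf 9 (by norm_num) _ h4 _ (by omega) _ (by omega) (step9.2 (Or.inr (Or.inr (Or.inl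
      ⟨u.code, by omega, t.code, by omega, ?_, ihu h1 (by omega), h7, iht h3 (by omega)⟩))))
    have a1 := cAA hN hf h4
    cases b
    · exact Or.inl a1
    · exact Or.inr a1
  | P p q t ihp ihq iht =>
    intro h hs
    obtain ⟨h1, h2, h3⟩ := h
    have h4 : (Pt.P p q t).code < N := lt_pow hP (hs.trans P_le)
    have h5 := code_P_1 p q t
    have h6 := code_P_2 p q t
    have h7 := code_P_3 p q t
    simp only [sz] at hs
    exact hf 9 (by norm_num) _ h4 _ (by omega) _ (by omega) (step9.2 (Or.inr (Or.inr (Or.inr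
      ⟨p.code, by omega, q.code, by omega, t.code, by omega, cPP hN hf h4, ihp h1 (by omega),
        ihq h2 (by omega), iht h3 (by omega)⟩))))

/-- Completeness for values. -/
theorem c4 {P lam : ℕ} (hP1 : 1 ≤ P) (hP : 8 ^ (20 * P + 200) ≤ N)
    (hlam : lam * (2 * lam + 2) + 3 ≤ P) (hlamN : 2 ^ lam ≤ N) : ∀ (a : ℕ) (t : Pt),
    a < 2 ^ lam → t.Ok → t.sz ≤ P → rv t = a → lk N w 4 t.code a 0 := by
  intro a
  induction a with
  | zero =>
    intro t _ ht hs hv
    have h4 : t.code < N := lt_pow hP (hs.trans P_le)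
    have hv' : rv t = rv Z := by rw [hv, rv]; simp
    refine hf 4 (by norm_num) _ h4 _ (by omega) _ (by omega) (step4.2 (Or.inr (Or.inl
      ⟨rfl, ?_, ?_⟩)))
    · exact c7 hN hf hw hP1 hP ht (t' := Z) trivial hs hP1 hv'.ge
    · exact c7 hN hf hw hP1 hP (t := Z) trivial ht hP1 hs hv'.le
  | succ a ih =>
    intro t ha ht hs hv
    obtain ⟨u, hu1, hu2, hu3⟩ := exists_short lam a (by omega)
    have h4 : t.code < N := lt_pow hP (hs.trans P_le)
    have hi := sz_inc u
    have h5 : (inc u).code < N := lt_pow hP ((by omega : (inc u).sz ≤ P).trans P_le)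
    have h6 : u.code < (inc u).code := code_A_right false Z u
    have hv' : rv t = rv (inc u) := by rw [hv, rv_inc, hu2]; push_cast; ring
    refine hf 4 (by norm_num) _ h4 _ (by omega) _ (by omega) (step4.2 (Or.inr (Or.inr
      ⟨u.code, by omega, (inc u).code, h5, a, by omega, ih u (by omega) hu1 (by omega) hu2, rfl,
        cAA hN hf (b := false) (u := Z) (t := u) h5, ?_, ?_⟩)))
    · exact c7 hN hf hw hP1 hP ht hu1.inc hs (by omega) hv'.ge
    · exact c7 hN hf hw hP1 hP hu1.inc ht (by omega) hs hv'.le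

/-- Completeness for residues. -/
theorem c5 {P lam : ℕ} (hP1 : 1 ≤ P) (hP : 8 ^ (20 * P + 200) ≤ N)
    (hlam : lam * (2 * lam + 2) + 3 ≤ P) (hlamN : 2 ^ (4 * lam) ≤ N) (t : Pt) :
    SmO lam t → t.sz ≤ P → ∀ m : ℕ, 0 < m → m < N →
      ∃ k : ℤ, rv t = k ∧ ∃ z : ℕ, (z : ℤ) = k % m ∧ lk N w 5 t.code m z := by
  have hl1 : 2 ^ lam ≤ N :=
    (Nat.pow_le_pow_right (by norm_num) (by omega)).trans hlamN
  induction t with
  | Z =>
    intro _ _ m hm hmN
    refine ⟨0, by simp [rv], 0, by simp, ?_⟩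
    exact hf 5 (by norm_num) _ (by simp only [code]; omega) _ hmN _ (by omega) (step5.2 (Or.inr
      ⟨⟨hm, hm⟩, Or.inl ⟨rfl, rfl⟩⟩))
  | A b u t _ iht =>
    intro h hs m hm hmN
    have h4 : (A b u t).code < N := lt_pow hP (hs.trans P_le)
    have h5 := code_A_left b u t
    have h6 := code_A_right b u t
    simp only [sz] at hs
    obtain ⟨⟨hu, a, ha, hv⟩, ht⟩ := h
    obtain ⟨k, hk, z', hz', hl⟩ := iht ht (by omega) m hm hmN
    have hm' : (0 : ℤ) < m := by exact_mod_cast hm
    have ha4 : a * a * (a * a) < N := by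
      have h1 : a * a < 2 ^ lam * 2 ^ lam := Nat.mul_lt_mul'' ha ha
      have h2 : a * a * (a * a) < 2 ^ lam * 2 ^ lam * (2 ^ lam * 2 ^ lam) :=
        Nat.mul_lt_mul'' h1 h1
      have h3 : 2 ^ lam * 2 ^ lam * (2 ^ lam * 2 ^ lam) = 2 ^ (4 * lam) := by
        rw [← pow_add, ← pow_add]
        congr 1
        ring
      omega
    have e4 := c4 hN hf hw hP1 hP hlam hl1 a u ha hu (by omega) hv
    have e1 := c1 hN hf hm hmN a (by omega)
    obtain ⟨p, hp⟩ : ∃ p, p = 2 ^ a % m := ⟨_, rfl⟩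
    rw [← hp] at e1
    have hpm : p < m := by rw [hp]; exact Nat.mod_lt _ hm
    have hpz : (p : ℤ) = 2 ^ a % (m : ℤ) := by rw [hp]; push_cast; rfl
    have hz'm : z' < m := by
      have := Int.emod_lt_of_pos k hm'
      rw [← hz'] at this
      exact_mod_cast this
    have h8 : (2 : ℝ) ^ rv u = ((2 ^ a : ℤ) : ℝ) := by
      rw [hv, Real.rpow_natCast]
      push_cast
      rfl
    obtain ⟨z, hz⟩ : ∃ z : ℕ, (z : ℤ) = (sg b * 2 ^ a + k) % m :=
      ⟨((sg b * 2 ^ a + k) % m).toNat, Int.toNat_of_nonneg (Int.emod_nonneg _ hm'.ne')⟩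
    have hzm : z < m := by
      have := Int.emod_lt_of_pos (sg b * 2 ^ a + k) hm'
      rw [← hz] at this
      exact_mod_cast this
    refine ⟨sg b * 2 ^ a + k, ?_, z, hz, ?_⟩
    · rw [rv_A, h8, hk]
      push_cast
      ring
    · have a1 := cAA hN hf h4
      cases b
      · refine hf 5 (by norm_num) _ h4 _ hmN _ (by omega) (step5.2 (Or.inr ⟨⟨hm, hzm⟩, Or.inr
          (Or.inl ⟨u.code, by omega, t.code, by omega, a, by omega, p, by omega, z', by omega,
            (p + z') / m, ?_, e1, ha4, e4, hl, Or.inl ⟨a1, ?_⟩⟩)⟩))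
        · have : (p + z') / m < 2 := by
            rw [Nat.div_lt_iff_lt_mul hm]
            omega
          omega
        · have h9 : z = (p + z') % m := by
            have : (z : ℤ) = ((p + z' : ℕ) : ℤ) % m := by
              rw [hz]
              push_cast
              rw [hpz, hz', sg_false, one_mul, ← Int.add_emod]
            exact_mod_cast this
          rw [h9]
          exact Nat.div_add_mod' _ m
      · refine hf 5 (by norm_num) _ h4 _ hmN _ (by omega) (step5.2 (Or.inr ⟨⟨hm, hzm⟩, Or.inr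
          (Or.inl ⟨u.code, by omega, t.code, by omega, a, by omega, p, by omega, z', by omega,
            (p + z) / m, ?_, e1, ha4, e4, hl, Or.inr ⟨a1, ?_⟩⟩)⟩))
        · have : (p + z) / m < 2 := by
            rw [Nat.div_lt_iff_lt_mul hm]
            omega
          omega
        · have h9 : z' = (p + z) % m := by
            have : (z' : ℤ) = ((p + z : ℕ) : ℤ) % m := by
              push_cast
              rw [hpz, hz, hz', sg_true, ← Int.add_emod]
              congr 1
              ring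
            exact_mod_cast this
          rw [h9]
          exact Nat.div_add_mod' _ m
  | P p q t ihp ihq iht =>
    intro h hs m hm hmN
    have h4 : (Pt.P p q t).code < N := lt_pow hP (hs.trans P_le)
    have h5 := code_P_1 p q t
    have h6 := code_P_2 p q t
    have h7 := code_P_3 p q t
    simp only [sz] at hs
    obtain ⟨k1, hk1, z1, hz1, hl1⟩ := ihp h.1 (by omega) m hm hmN
    obtain ⟨k2, hk2, z2, hz2, hl2⟩ := ihq h.2.1 (by omega) m hm hmN
    obtain ⟨k3, hk3, z3, hz3, hl3⟩ := iht h.2.2 (by omega) m hm hmN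
    have hm' : (0 : ℤ) < m := by exact_mod_cast hm
    have lt_m : ∀ (k : ℤ) (z : ℕ), (z : ℤ) = k % m → z < m := by
      intro k z hz
      have := Int.emod_lt_of_pos k hm'
      rw [← hz] at this
      exact_mod_cast this
    have l1 := lt_m _ _ hz1
    have l2 := lt_m _ _ hz2
    have l3 := lt_m _ _ hz3
    refine ⟨k1 * k2 + k3, ?_, (z1 * z2 + z3) % m, ?_, ?_⟩
    · rw [rv_P, hk1, hk2, hk3]
      push_cast
      ring
    · push_cast
      rw [hz1, hz2, hz3, Int.add_emod, ← Int.mul_emod, Int.emod_emod_of_dvd _ (dvd_refl _),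
        ← Int.add_emod]
    · have h8 : (z1 * z2 + z3) % m < m := Nat.mod_lt _ hm
      refine hf 5 (by norm_num) _ h4 _ hmN _ (by omega) (step5.2 (Or.inr ⟨⟨hm, h8⟩, Or.inr
        (Or.inr ⟨p.code, by omega, q.code, by omega, t.code, by omega, z1, by omega, z2,
          by omega, z3, by omega, (z1 * z2 + z3) / m, ?_, cPP hN hf h4, hl1, hl2, hl3,
          Nat.div_add_mod' _ m⟩)⟩))
      have h9 : (z1 * z2 + z3) / m < m := by
        rw [Nat.div_lt_iff_lt_mul hm]
        have h10 : z1 * z2 ≤ (m - 1) * (m - 1) := Nat.mul_le_mul (by omega) (by omega)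
        obtain ⟨j, rfl⟩ : ∃ j, m = j + 1 := ⟨m - 1, by omega⟩
        rw [Nat.add_sub_cancel] at h10
        have h11 : (j + 1) * (j + 1) = j * j + 2 * j + 1 := by ring
        omega
      omega

end fixed

end PM80
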