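import Pool.Agent.PM80.Model

/-!
# The functions, the relations and the set of names are computable in polynomial time
-/

set_option autoImplicit false

namespace PM80

open OM80 (sg sg_false sg_true sg_not sg_xor)
open Pt Pool.Agent.PTL PT21
open AM21 (cif cif_pos cif_neg isP_cif range_flatMap tup_cons' tup_rep unary_one unary_two
  length_one length_two le_pow_self' ptc_tup)

section meaning

variable {s N : ℕ} {w v : List Bool}

theorem un_iff (hw : Snd N w v) {p n : ℕ} (h : p + 2 * n < N) :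
    Un N w p n ↔ Unary v p (2 * n) := by
  unfold Un Unary
  rw [hw.h8 _ h]
  constructor
  · rintro ⟨h1, h2⟩
    exact ⟨fun i hi => (hw.h8 _ (by omega)).1 (h1 i hi), h2⟩
  · rintro ⟨h1, h2⟩
    exact ⟨fun i hi => (hw.h8 _ (by omega)).2 (h1 i hi), h2⟩

theorem un_det (hw : Snd N w v) {p n m : ℕ} (hp : p + 2 * m < N) (hz : Unary v p (2 * m)) :
    Un N w p n ↔ n = m := by
  constructor
  · rintro ⟨h1, h2⟩
    rcases lt_trichotomy n m with h | h | h
    · exact absurd ((hw.h8 _ (by omega)).2 (hz.1 (2 * n) (by omega))) h2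
    · exact h
    · exact absurd ((hw.h8 _ hp).1 (h1 (2 * m) (by omega))) hz.2
  · rintro rfl
    exact (un_iff hw hp).2 hz

theorem nm_iff (hg : Good s N w v) {n c r : ℕ} (hc : c < N) (hr : r < N) :
    Nm N w n c r ↔ ∃ t : Pt, t.code = c ∧ t.sz = r ∧ n = tl t ∧ 8 ^ (t.sz ^ 6) < N := by
  constructor
  · rintro ⟨m, hm, q, hq, rfl, h1, h2, rfl⟩
    obtain ⟨t, t1, t2⟩ := (hg.h3 _ hc _ hr).1 h2
    rw [hg.h0 _ hm _ hq] at h1
    exact ⟨t, t1, t2, by rw [tl, t1, t2, h1], by rw [t2, ← h1]; exact hq⟩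
  · rintro ⟨t, rfl, rfl, rfl, hq⟩
    have h1 : t.sz ^ 6 < 8 ^ (t.sz ^ 6) := Nat.lt_pow_self (by norm_num)
    exact ⟨t.sz ^ 6, by omega, 8 ^ (t.sz ^ 6), hq, rfl,
      (hg.h0 _ (by omega) _ hq).2 rfl, (hg.h3 _ hc _ hr).2 ⟨t, rfl, rfl⟩, rfl⟩

theorem nm_det (hg : Good s N w v) {t : Pt} {c r : ℕ} (hc : c < N) (hr : r < N)
    (ht : tl t < N) : Nm N w (tl t) c r ↔ c = t.code ∧ r = t.sz := by
  rw [nm_iff hg hc hr]
  constructor
  · rintro ⟨t', rfl, rfl, h, -⟩
    rw [tl_inj h]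
    exact ⟨rfl, rfl⟩
  · rintro ⟨rfl, rfl⟩
    exact ⟨t, rfl, rfl, rfl, by unfold tl at ht; omega⟩

theorem Good.hbd (hg : Good s N w v) : 8 ^ (bd s + 1) ≤ N :=
  le_trans (Nat.pow_le_pow_right (by norm_num) (by omega)) hg.hbig

theorem Good.lt (hg : Good s N w v) {t : Pt} (ht : t.sz ≤ bd s) : t.code < N :=
  lt_pow hg.hbd (by omega)

theorem Good.tl_lt (hg : Good s N w v) {t : Pt} (ht : t.sz ≤ 4 * s) :
    tl t ≤ N ∧ 8 ^ (t.sz ^ 6) < N := by
  have h1 := PM80.tl_lt t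
  have h2 : t.sz ^ 6 ≤ (4 * s) ^ 6 := Nat.pow_le_pow_left ht 6
  have h3 : (4 * s) ^ 6 = 4096 * s ^ 6 := by ring
  have h4 : bd s = 2 * 10 ^ 7 * s ^ 6 := rfl
  have h5 : 1 ≤ s ^ 6 := Nat.one_le_pow _ _ hg.hs
  have h6 : 8 ^ (t.sz ^ 6 + 1) ≤ 8 ^ (bd s + 1) := by
    apply Nat.pow_le_pow_right (by norm_num)
    rw [h4]
    norm_num
    omega
  have h7 := hg.hbd
  rw [pow_succ] at h6
  have h8 : 0 < 8 ^ (t.sz ^ 6) := by positivity
  omega

theorem Good.pow_lt (hg : Good s N w v) {t : Pt} (ht : t.sz ≤ bd s) : 8 ^ t.sz < N := by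
  have h1 : 8 ^ (t.sz + 1) ≤ 8 ^ (bd s + 1) := Nat.pow_le_pow_right (by norm_num) (by omega)
  have h2 := hg.hbd
  have h3 : 0 < 8 ^ t.sz := by positivity
  rw [pow_succ 8 t.sz] at h1
  omega

theorem Good.AA (hw : Snd N w v) (hg : Good s N w v) {b : Bool} {u t : Pt} {d : ℕ}
    (hu : u.sz ≤ bd s) (ht : t.sz ≤ bd s) :
    PM80.AA N w (dg b) d u.code t.code ↔ d = (A b u t).code := by
  have hN := hg.hN
  have l1 := hg.lt hu
  have l2 := hg.lt ht
  constructor
  · intro h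
    obtain ⟨p, q, p1, p2, p3⟩ := AA_sound hN hw l1 l2 h
    rw [← code_inj p1, ← code_inj p2, p3]
  · rintro rfl
    have e1 := sz_le_code u
    have e2 := sz_le_code t
    have e3 := hg.pow_lt hu
    exact ⟨u.sz, by omega, t.sz, by omega, 8 ^ u.sz, e3,
      (hg.h3 _ l1 _ (by omega)).2 ⟨u, rfl, rfl⟩, (hg.h3 _ l2 _ (by omega)).2 ⟨t, rfl, rfl⟩,
      (hg.h0 _ (by omega) _ e3).2 rfl, rfl⟩

theorem Good.PP (hw : Snd N w v) (hg : Good s N w v) {p q t : Pt} {d : ℕ}
    (hp : p.sz ≤ bd s) (hq : q.sz ≤ bd s) (ht : t.sz ≤ bd s) :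
    PM80.PP N w d p.code q.code t.code ↔ d = (P p q t).code := by
  have hN := hg.hN
  have l1 := hg.lt hp
  have l2 := hg.lt hq
  have l3 := hg.lt ht
  constructor
  · intro h
    obtain ⟨p', q', t', p1, p2, p3, p4⟩ := PP_sound hN hw l1 l2 l3 h
    rw [← code_inj p1, ← code_inj p2, ← code_inj p3, p4]
  · rintro rfl
    have e1 := sz_le_code p
    have e2 := sz_le_code q
    have e3 := sz_le_code t
    have e4 := hg.pow_lt hp
    have e5 := hg.pow_lt hq
    exact ⟨p.sz, by omega, q.sz, by omega, t.sz, by omega, 8 ^ p.sz, e4, 8 ^ q.sz, e5,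
      (hg.h3 _ l1 _ (by omega)).2 ⟨p, rfl, rfl⟩, (hg.h3 _ l2 _ (by omega)).2 ⟨q, rfl, rfl⟩,
      (hg.h3 _ l3 _ (by omega)).2 ⟨t, rfl, rfl⟩,
      (hg.h0 _ (by omega) _ e4).2 rfl, (hg.h0 _ (by omega) _ e5).2 rfl, rfl⟩

/-- Least codes. -/
theorem mn_iff (hw : Snd N w v) (hg : Good s N w v) {t T : Pt} (hT : T.sz ≤ bd s) (hok : T.Ok)
    {n : ℕ} (hn : rv T = n) (ht : t.code < N) : Mn N w t.code T.code ↔ t = can n := by
  have hN := hg.hN
  have hTN := hg.lt hT
  have hcan : (can n).code ≤ T.code := can_le hok hn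
  have hcs : (can n).sz ≤ bd s := (sz_le_of_code hcan).trans hT
  have rc : rv (can n) = rv T := by rw [rv_can, hn]
  have snd : ∀ r : Pt, r.code < N → lk N w 9 r.code 0 0 → lk N w 7 r.code T.code 0 →
      lk N w 7 T.code r.code 0 → r.Ok ∧ rv r = n := by
    intro r hr h0 h h'
    obtain ⟨a, a1, a2⟩ := hw.h9 _ hr _ (by omega) _ (by omega) h0
    obtain rfl : a = r := code_inj a1
    obtain ⟨b, c, b1, b2, b3⟩ := hw.h7 _ hr _ hTN _ (by omega) h
    obtain ⟨b', c', b1', b2', b3'⟩ := hw.h7 _ hTN _ hr _ (by omega) h'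
    obtain rfl : b = a := code_inj b1
    obtain rfl : c = T := code_inj b2
    obtain rfl : b' = c := code_inj b1'
    obtain rfl : c' = b := code_inj b2'
    exact ⟨a2, by rw [← hn]; exact le_antisymm b3' b3⟩
  constructor
  · rintro ⟨h0, h1, h1', h2⟩
    obtain ⟨h3, h3'⟩ := snd t ht h0 h1 h1'
    have h4 : (can n).code ≤ t.code := can_le h3 h3'
    by_contra hne
    have h5 : (can n).code ≠ t.code := fun h => hne (code_inj h).symm
    refine h2 _ (by omega) ((hg.h9 _ hcs).2 (ok_can n)) ⟨?_, ?_⟩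
    · exact (hg.h7 _ _ (ok_can n) hok hcs hT).2 rc.ge
    · exact (hg.h7 _ _ hok (ok_can n) hT hcs).2 rc.le
  · rintro rfl
    refine ⟨(hg.h9 _ hcs).2 (ok_can n), (hg.h7 _ _ (ok_can n) hok hcs hT).2 rc.ge,
      (hg.h7 _ _ hok (ok_can n) hT hcs).2 rc.le, ?_⟩
    rintro c' hc' h0 ⟨h1, h2⟩
    obtain ⟨t', rfl, -⟩ := hw.h9 _ (by omega) _ (by omega) _ (by omega) h0
    obtain ⟨h3, h4⟩ := snd t' (by omega) h0 h1 h2
    have h5 : (can n).code ≤ t'.code := can_le h3 h4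
    omega

/-- The output is the name of the value of the target term. -/
theorem out_eq (hw : Snd N w v) (hg : Good s N w v) {T : Pt} (hT : T.sz ≤ 4 * s) (hok : T.Ok)
    {n : ℕ} (hn : rv T = n) {Tg : ℕ → Prop} (hTg : ∀ d < N, Tg d ↔ d = T.code) :
    out N w Tg = nu n := by
  have hN := hg.hN
  obtain ⟨b1, -⟩ := bd_big hg.hs
  have hTb : T.sz ≤ bd s := by omega
  have hTN := hg.lt hTb
  have hcan : (can n).code ≤ T.code := can_le hok hn
  have hcs : (can n).sz ≤ 4 * s := (sz_le_of_code hcan).trans hT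
  obtain ⟨htl, htl'⟩ := hg.tl_lt hcs
  have key : ∀ i, Oc N w Tg i ↔ i < tl (can n) := by
    intro i
    constructor
    · rintro ⟨d, hd, h1, c, hc, r, hr, m, hm, h2, h3, h4⟩
      rw [hTg d hd] at h1
      subst h1
      obtain ⟨t, rfl, rfl, rfl, -⟩ := (nm_iff hg hc hr).1 h2
      rw [mn_iff hw hg hTb hok hn hc] at h3
      rwa [← h3]
    · intro hi
      have h6 := sz_le_code (can n)
      exact ⟨T.code, hTN, (hTg _ hTN).2 rfl, (can n).code, by omega, (can n).sz,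
        by omega, tl (can n), by omega,
        (nm_iff hg (by omega) (by omega)).2 ⟨_, rfl, rfl, rfl, htl'⟩,
        (mn_iff hw hg hTb hok hn (by omega)).2 rfl, hi⟩
  unfold out nu
  rw [← range_flatMap htl]
  apply List.flatMap_congr
  intro i _
  by_cases h : i < tl (can n)
  · rw [cif_pos h, cif_pos ((key i).2 h)]
  · rw [cif_neg h, cif_neg (fun h' => h ((key i).1 h'))]

end meaning

theorem nums {s L K : ℕ} (hs : 1 ≤ s) (hL : 8 ^ (s ^ 6) ≤ L) (hK : 10 ^ 10 ≤ K) :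
    8 ^ (20 * bd s + 200) ≤ L ^ K := by
  have h5 : 1 ≤ s ^ 6 := Nat.one_le_pow _ _ hs
  calc 8 ^ (20 * bd s + 200) ≤ 8 ^ (s ^ 6 * K) := by
        apply Nat.pow_le_pow_right (by norm_num)
        calc 20 * bd s + 200 ≤ s ^ 6 * 10 ^ 10 := by
              unfold bd
              norm_num
              omega
          _ ≤ s ^ 6 * K := Nat.mul_le_mul_left _ hK
    _ = (8 ^ (s ^ 6)) ^ K := pow_mul _ _ _
    _ ≤ L ^ K := Nat.pow_le_pow_left hL K

/-- The tables are good for the sizes at the input. -/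
theorem setup {K s : ℕ} {z w : List Bool} (hK : 10 ^ 10 ≤ K) (hs : 1 ≤ s)
    (h8 : 8 ^ (s ^ 6) ≤ z.length + 3) (h1 : Snd ((z.length + 3) ^ K) w z)
    (h2 : mkt ((z.length + 3) ^ K) (step ((z.length + 3) ^ K) w) = w) :
    Good s ((z.length + 3) ^ K) w z ∧ z.length + 3 ≤ (z.length + 3) ^ K := by
  have hLK : 3 ^ 4 ≤ (z.length + 3) ^ K := by
    calc 3 ^ 4 ≤ (z.length + 3) ^ 4 := Nat.pow_le_pow_left (by omega) 4
      _ ≤ (z.length + 3) ^ K := Nat.pow_le_pow_right (by omega) (le_trans (by norm_num) hK)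
  refine ⟨good_of_fix ?_ hs (nums hs h8 hK) h1 h2, le_pow_self' (by omega) (le_trans (by norm_num) hK)⟩
  omega

section inputs

variable (N : ℕ) (w : List Bool)

/-- The code in the name at the input. -/
def I1 (c : ℕ) : Prop := ∃ n < N, ∃ s < N, Un N w 0 n ∧ Nm N w n c s

/-- The codes in two names at the input. -/
def I2 (c d : ℕ) : Prop :=
  ∃ n < N, ∃ s < N, ∃ m < N, ∃ r < N, Un N w 0 n ∧ Nm N w n c s ∧ Un N w (2 * n + 2) m ∧
    Nm N w m d r

end inputs

section tests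

variable {k : ℕ} {N c d e : (ℕ → ℕ) → ℕ}

theorem isT_I1 (hN : IsE k N) (hc : IsE k c) :
    IsT k (fun w env => I1 (N env) w (c env)) := by
  unfold I1
  repeat' first
    | exact IsE.const _
    | (refine IsE.mono ?_ (by assumption); omega)
    | apply isT_lk
    | apply isT_Un
    | apply isT_Nm
    | (refine IsT.ex ?_ (fun _ _ _ _ => ?_))
    | apply IsT.and
    | apply IsE.add
    | apply IsE.mul

theorem isT_I2 (hN : IsE k N) (hc : IsE k c) (hd : IsE k d) :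
    IsT k (fun w env => I2 (N env) w (c env) (d env)) := by
  unfold I2
  repeat' first
    | exact IsE.const _
    | (refine IsE.mono ?_ (by assumption); omega)
    | apply isT_lk
    | apply isT_Un
    | apply isT_Nm
    | (refine IsT.ex ?_ (fun _ _ _ _ => ?_))
    | apply IsT.and
    | apply IsE.add
    | apply IsE.mul

end tests

section dets

variable {s N : ℕ} {w : List Bool}

theorem I1_iff {t : Pt} (hw : Snd N w (tup [List.replicate (tl t) true]))
    (hg : Good s N w (tup [List.replicate (tl t) true])) (ht : t.sz ≤ s)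
    (hN : 2 * tl t < N) {c : ℕ} (hc : c < N) : I1 N w c ↔ c = t.code := by
  have hv := unary_one (tl t) []
  have hb := s_le_bd (s := s)
  have l1 := hg.lt (t := t) (by omega)
  have l2 := sz_le_code t
  constructor
  · rintro ⟨n, hn, r, hr, h1, h2⟩
    rw [un_det hw (by omega) hv] at h1
    subst h1
    exact ((nm_det hg hc hr (by omega)).1 h2).1
  · rintro rfl
    exact ⟨tl t, by omega, t.sz, by omega, (un_det hw (by omega) hv).2 rfl,
      (nm_det hg l1 (by omega) (by omega)).2 ⟨rfl, rfl⟩⟩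

theorem I2_iff {t u : Pt}
    (hw : Snd N w (tup [List.replicate (tl t) true, List.replicate (tl u) true]))
    (hg : Good s N w (tup [List.replicate (tl t) true, List.replicate (tl u) true]))
    (ht : t.sz ≤ s) (hu : u.sz ≤ s) (hN : 2 * tl t + 2 * tl u + 2 < N) {c d : ℕ}
    (hc : c < N) (hd : d < N) : I2 N w c d ↔ c = t.code ∧ d = u.code := by
  have hv1 := unary_one (tl t) [List.replicate (tl u) true]
  have hv2 := unary_two (tl t) (tl u) []
  have hb := s_le_bd (s := s)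
  have l1 := hg.lt (t := t) (by omega)
  have l2 := sz_le_code t
  have l3 := hg.lt (t := u) (by omega)
  have l4 := sz_le_code u
  constructor
  · rintro ⟨n, hn, r, hr, m, hm, q, hq, h1, h2, h3, h4⟩
    rw [un_det hw (by omega) hv1] at h1
    subst h1
    rw [un_det hw (by omega) hv2] at h3
    subst h3
    exact ⟨((nm_det hg hc hr (by omega)).1 h2).1, ((nm_det hg hd hq (by omega)).1 h4).1⟩
  · rintro ⟨rfl, rfl⟩
    exact ⟨tl t, by omega, t.sz, by omega, tl u, by omega, u.sz, by omega,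
      (un_det hw (by omega) hv1).2 rfl,
      (nm_det hg l1 (by omega) (by omega)).2 ⟨rfl, rfl⟩,
      (un_det hw (by omega) hv2).2 rfl,
      (nm_det hg l3 (by omega) (by omega)).2 ⟨rfl, rfl⟩⟩

end dets

theorem rv_can_nonneg (n : ℕ) : 0 ≤ rv (can n) := by
  rw [rv_can]
  positivity

/-- A function of one argument is computable in polynomial time. -/
theorem pFun1 {f : ℕ → ℕ} {Tg : ℕ → List Bool → ℕ → ℕ → Prop}
    (hTg : ∀ k (N c d : (ℕ → ℕ) → ℕ), IsE k N → IsE k c → IsE k d →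
      IsT k (fun w env => Tg (N env) w (c env) (d env)))
    (T : Pt → Pt) (hT : ∀ t, (T t).sz ≤ 4 * t.sz)
    (hf : ∀ (t : Pt) (n : ℕ), t.Ok → rv t = n → (T t).Ok ∧ rv (T t) = f n)
    (h : ∀ (s N : ℕ) (w v : List Bool) (t : Pt), Snd N w v → Good s N w v → t.sz ≤ s →
      t.Ok → ∀ d < N, Tg N w t.code d ↔ d = (T t).code) :
    PFun nu (r := 1) (fun x => f (x 0)) := by
  obtain ⟨K, hK⟩ : ∃ K, K = 10 ^ 10 := ⟨_, rfl⟩
  obtain ⟨g, hg, hg'⟩ := frame (K := K) (le_trans (by norm_num) hK.ge)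
    (F := fun w N => out N w (fun d => ∃ c < N, I1 N w c ∧ Tg N w c d))
    (fun k N hN => isP_out hN (Tg := fun N w d => ∃ c < N, I1 N w c ∧ Tg N w c d) (by
      intro k N d hN hd
      refine IsT.ex hN fun k₁ h₁ c hc => ?_
      exact (isT_I1 (hN.mono h₁) hc).and (hTg _ _ _ _ (hN.mono h₁) hc (hd.mono h₁))))
  refine ⟨g, hg.polyTime, fun x => ?_⟩
  have e : (List.ofFn fun i => nu (x i)) = [nu (x 0)] := by simp
  rw [e]
  obtain ⟨w, h1, h2, h3⟩ := hg' (tup [nu (x 0)])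
  rw [h3]
  obtain ⟨t, ht⟩ : ∃ t, t = can (x 0) := ⟨_, rfl⟩
  have hok : t.Ok := by rw [ht]; exact ok_can _
  have hrv : rv t = x 0 := by rw [ht]; exact rv_can _
  have hz : tup [nu (x 0)] = tup [List.replicate (tl t) true] := by rw [ht, nu]
  rw [hz] at h1 h2 ⊢
  have hlen : (tup [List.replicate (tl t) true]).length = 2 * tl t + 2 := length_one _
  obtain ⟨hgood, hLN⟩ := setup (s := t.sz) hK.ge (one_le_sz t) (by
    rw [hlen]
    unfold tl
    omega) h1 h2
  obtain ⟨hT1, hT2⟩ := hf t (x 0) hok hrv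
  obtain ⟨b1, -⟩ := bd_big hgood.hs
  refine out_eq h1 hgood (hT t) hT1 hT2 ?_
  intro d hd
  have hI := fun {c : ℕ} (hc : c < _) => I1_iff (c := c) h1 hgood le_rfl (by omega) hc
  constructor
  · rintro ⟨c, hc, h4, h5⟩
    rw [hI hc] at h4
    subst h4
    exact (h _ _ _ _ t h1 hgood le_rfl hok d hd).1 h5
  · intro h4
    have l1 := hgood.lt (t := t) s_le_bd
    exact ⟨t.code, l1, (hI l1).2 rfl, (h _ _ _ _ t h1 hgood le_rfl hok d hd).2 h4⟩

/-- A function of two arguments is computable in polynomial time. -/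
theorem pFun2 {f : ℕ → ℕ → ℕ} {Tg : ℕ → List Bool → ℕ → ℕ → ℕ → Prop}
    (hTg : ∀ k (N c d e : (ℕ → ℕ) → ℕ), IsE k N → IsE k c → IsE k d → IsE k e →
      IsT k (fun w env => Tg (N env) w (c env) (d env) (e env)))
    (T : Pt → Pt → Pt) (hT : ∀ t u, (T t u).sz ≤ 4 * max t.sz u.sz)
    (hf : ∀ (t u : Pt) (n m : ℕ), t.Ok → rv t = n → u.Ok → rv u = m →
      (T t u).Ok ∧ rv (T t u) = f n m)
    (h : ∀ (s N : ℕ) (w v : List Bool) (t u : Pt), Snd N w v → Good s N w v → t.sz ≤ s →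
      u.sz ≤ s → t.Ok → u.Ok → ∀ d < N, Tg N w t.code u.code d ↔ d = (T t u).code) :
    PFun nu (r := 2) (fun x => f (x 0) (x 1)) := by
  obtain ⟨K, hK⟩ : ∃ K, K = 10 ^ 10 := ⟨_, rfl⟩
  obtain ⟨g, hg, hg'⟩ := frame (K := K) (le_trans (by norm_num) hK.ge)
    (F := fun w N => out N w (fun e => ∃ c < N, ∃ d < N, I2 N w c d ∧ Tg N w c d e))
    (fun k N hN => isP_out hN (Tg := fun N w e => ∃ c < N, ∃ d < N, I2 N w c d ∧ Tg N w c d e)
      (by
      intro k N e hN he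
      refine IsT.ex hN fun k₁ h₁ c hc => ?_
      refine IsT.ex (hN.mono h₁) fun k₂ h₂ d hd => ?_
      exact (isT_I2 (hN.mono (h₁.trans h₂)) (hc.mono h₂) hd).and
        (hTg _ _ _ _ _ (hN.mono (h₁.trans h₂)) (hc.mono h₂) hd (he.mono (h₁.trans h₂)))))
  refine ⟨g, hg.polyTime, fun x => ?_⟩
  have e : (List.ofFn fun i => nu (x i)) = [nu (x 0), nu (x 1)] := by
    simp [List.ofFn_succ]
  rw [e]
  obtain ⟨w, h1, h2, h3⟩ := hg' (tup [nu (x 0), nu (x 1)])
  rw [h3]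
  obtain ⟨t, ht⟩ : ∃ t, t = can (x 0) := ⟨_, rfl⟩
  obtain ⟨u, hu⟩ : ∃ u, u = can (x 1) := ⟨_, rfl⟩
  have hok : t.Ok := by rw [ht]; exact ok_can _
  have hrv : rv t = x 0 := by rw [ht]; exact rv_can _
  have hoku : u.Ok := by rw [hu]; exact ok_can _
  have hrvu : rv u = x 1 := by rw [hu]; exact rv_can _
  have hz : tup [nu (x 0), nu (x 1)] =
      tup [List.replicate (tl t) true, List.replicate (tl u) true] := by rw [ht, hu, nu, nu]
  rw [hz] at h1 h2 ⊢
  have hlen := length_two (tl t) (tl u)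
  obtain ⟨hgood, hLN⟩ := setup (s := max t.sz u.sz) hK.ge (by
    have := one_le_sz t
    omega) (by
    rw [hlen]
    rcases max_choice t.sz u.sz with h | h
    · rw [h]
      unfold tl
      omega
    · rw [h]
      unfold tl
      omega) h1 h2
  obtain ⟨hT1, hT2⟩ := hf t u (x 0) (x 1) hok hrv hoku hrvu
  obtain ⟨b1, -⟩ := bd_big hgood.hs
  refine out_eq h1 hgood (hT t u) hT1 hT2 ?_
  intro e he
  have ht1 : t.sz ≤ max t.sz u.sz := le_max_left _ _
  have hu1 : u.sz ≤ max t.sz u.sz := le_max_right _ _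
  have hI := fun {c d : ℕ} (hc : c < _) (hd : d < _) =>
    I2_iff (c := c) (d := d) h1 hgood ht1 hu1 (by omega) hc hd
  constructor
  · rintro ⟨c, hc, d, hd, h4, h5⟩
    rw [hI hc hd] at h4
    obtain ⟨rfl, rfl⟩ := h4
    exact (h _ _ _ _ t u h1 hgood ht1 hu1 hok hoku e he).1 h5
  · intro h4
    have l1 := hgood.lt (t := t) (ht1.trans s_le_bd)
    have l2 := hgood.lt (t := u) (hu1.trans s_le_bd)
    exact ⟨t.code, l1, u.code, l2, (hI l1 l2).2 ⟨rfl, rfl⟩,
      (h _ _ _ _ t u h1 hgood ht1 hu1 hok hoku e he).2 h4⟩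

/-- A relation of two arguments is decidable in polynomial time. -/
theorem pRel2 {R : ℕ → ℕ → Prop} {Φ : ℕ → List Bool → ℕ → ℕ → Prop}
    (hΦ : ∀ k (N c d : (ℕ → ℕ) → ℕ), IsE k N → IsE k c → IsE k d →
      IsT k (fun w env => Φ (N env) w (c env) (d env)))
    (h : ∀ (s N : ℕ) (w v : List Bool) (t u : Pt), Snd N w v → Good s N w v → t.sz ≤ s →
      u.sz ≤ s → t.Ok → u.Ok → ∀ n m : ℕ, rv t = n → rv u = m →
      (Φ N w t.code u.code ↔ R n m)) :
    PRel nu (r := 2) (fun x => R (x 0) (x 1)) := by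
  obtain ⟨K, hK⟩ : ∃ K, K = 10 ^ 10 := ⟨_, rfl⟩
  obtain ⟨g, hg, hg'⟩ := frame (K := K) (le_trans (by norm_num) hK.ge)
    (F := fun w N => cif (∃ c < N, ∃ d < N, I2 N w c d ∧ Φ N w c d) [true] [false])
    (fun k N hN => isP_cif (by
      refine IsT.ex hN fun k₁ h₁ c hc => ?_
      refine IsT.ex (hN.mono h₁) fun k₂ h₂ d hd => ?_
      exact (isT_I2 (hN.mono (h₁.trans h₂)) (hc.mono h₂) hd).and
        (hΦ _ _ _ _ (hN.mono (h₁.trans h₂)) (hc.mono h₂) hd)) (IsP.emit true) (IsP.emit false))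
  refine ⟨g, hg.polyTime, fun x => ?_⟩
  have e : (List.ofFn fun i => nu (x i)) = [nu (x 0), nu (x 1)] := by
    simp [List.ofFn_succ]
  rw [e]
  obtain ⟨w, h1, h2, h3⟩ := hg' (tup [nu (x 0), nu (x 1)])
  rw [h3]
  obtain ⟨t, ht⟩ : ∃ t, t = can (x 0) := ⟨_, rfl⟩
  obtain ⟨u, hu⟩ : ∃ u, u = can (x 1) := ⟨_, rfl⟩
  have hok : t.Ok := by rw [ht]; exact ok_can _
  have hrv : rv t = x 0 := by rw [ht]; exact rv_can _
  have hoku : u.Ok := by rw [hu]; exact ok_can _
  have hrvu : rv u = x 1 := by rw [hu]; exact rv_can _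
  have hz : tup [nu (x 0), nu (x 1)] =
      tup [List.replicate (tl t) true, List.replicate (tl u) true] := by rw [ht, hu, nu, nu]
  rw [hz] at h1 h2 ⊢
  have hlen := length_two (tl t) (tl u)
  obtain ⟨hgood, hLN⟩ := setup (s := max t.sz u.sz) hK.ge (by
    have := one_le_sz t
    omega) (by
    rw [hlen]
    rcases max_choice t.sz u.sz with h | h
    · rw [h]
      unfold tl
      omega
    · rw [h]
      unfold tl
      omega) h1 h2
  have ht1 : t.sz ≤ max t.sz u.sz := le_max_left _ _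
  have hu1 : u.sz ≤ max t.sz u.sz := le_max_right _ _
  have hI := fun {c d : ℕ} (hc : c < _) (hd : d < _) =>
    I2_iff (c := c) (d := d) h1 hgood ht1 hu1 (by omega) hc hd
  have key := h _ _ _ _ t u h1 hgood ht1 hu1 hok hoku (x 0) (x 1) hrv hrvu
  have l1 := hgood.lt (t := t) (ht1.trans s_le_bd)
  have l2 := hgood.lt (t := u) (hu1.trans s_le_bd)
  constructor
  · intro hR
    exact cif_pos ⟨t.code, l1, u.code, l2, (hI l1 l2).2 ⟨rfl, rfl⟩, key.2 hR⟩
  · intro hR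
    refine cif_neg ?_
    rintro ⟨c, hc, d, hd, h4, h5⟩
    rw [hI hc hd] at h4
    obtain ⟨rfl, rfl⟩ := h4
    exact hR (key.1 h5)

end PM80
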