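import Pool.Agent.PM80.Codes

/-!
# Items of terms
-/

set_option autoImplicit false

namespace PM80

open OM80 (sg sg_false sg_true sg_not sg_xor)
open Pt

/-- Value of an item. -/
noncomputable def vi (p : Bool × Pt) : ℝ := (sg p.1 : ℝ) * (2 : ℝ) ^ rv p.2

theorem sz_item {t : Pt} : ∀ {i : ℕ}, i < cnt t → (item t i).2.sz + 1 ≤ t.sz := by
  induction t with
  | Z =>
    intro i h
    simp [cnt] at h
  | A b u t _ ih =>
    intro i h
    cases i with
    | zero =>
      rw [item_A0]
      simp only [sz]
      omega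
    | succ i =>
      simp only [cnt] at h
      have := ih (i := i) (by omega)
      rw [item_AS]
      simp only [sz]
      omega
  | P p q t ihp ihq ih =>
    intro i h
    rcases pos_P h with ⟨i1, h1, i2, h2, rfl⟩ | ⟨i', h1, rfl⟩
    · rw [item_P1 p q t h1 h2]
      have a1 := ihp h1
      have a2 := ihq h2
      have a3 := sz_cat (item p i1).2 (item q i2).2
      simp only [sz]
      omega
    · rw [item_P2]
      have := ih h1
      simp only [sz]
      omega

theorem ok_item {t : Pt} (h : t.Ok) : ∀ {i : ℕ}, i < cnt t →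
    (item t i).2.Ok ∧ 0 ≤ rv (item t i).2 := by
  induction t with
  | Z =>
    intro i h
    simp [cnt] at h
  | A b u t _ ih =>
    intro i hi
    cases i with
    | zero =>
      rw [item_A0]
      exact ⟨h.1, h.2.1⟩
    | succ i =>
      simp only [cnt] at hi
      rw [item_AS]
      exact ih h.2.2 (i := i) (by omega)
  | P p q t ihp ihq ih =>
    intro i hi
    rcases pos_P hi with ⟨i1, h1, i2, h2, rfl⟩ | ⟨i', h1, rfl⟩
    · rw [item_P1 p q t h1 h2]
      have a1 := ihp h.1 h1
      have a2 := ihq h.2.1 h2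
      refine ⟨a1.1.cat a2.1, ?_⟩
      rw [rv_cat]
      linarith [a1.2, a2.2]
    · rw [item_P2]
      exact ih h.2.2 h1

theorem cnt_le (t : Pt) : cnt t + 1 ≤ 2 ^ t.sz := by
  induction t with
  | Z => simp [cnt, sz]
  | A b u t _ ih =>
    simp only [cnt, sz]
    have h1 : 2 ^ (t.sz + 1) ≤ 2 ^ (u.sz + t.sz + 1) :=
      Nat.pow_le_pow_right (by norm_num) (by omega)
    rw [pow_succ] at h1
    have h2 : 1 ≤ 2 ^ t.sz := Nat.one_le_two_pow
    omega
  | P p q t ihp ihq ih =>
    simp only [cnt, sz]
    have h1 : (cnt p + 1) * (cnt q + 1) ≤ 2 ^ p.sz * 2 ^ q.sz := Nat.mul_le_mul ihp ihq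
    have h2 : 1 ≤ 2 ^ t.sz := Nat.one_le_two_pow
    have h3 : 1 ≤ 2 ^ p.sz * 2 ^ q.sz := Nat.one_le_iff_ne_zero.2 (by positivity)
    have h4 : 2 ^ (p.sz + q.sz + t.sz + 1) = 2 ^ p.sz * 2 ^ q.sz * 2 ^ t.sz * 2 := by
      rw [pow_succ, pow_add, pow_add]
    obtain ⟨a, ha⟩ : ∃ a, a = 2 ^ p.sz * 2 ^ q.sz := ⟨_, rfl⟩
    obtain ⟨b, hb⟩ : ∃ b, b = 2 ^ t.sz := ⟨_, rfl⟩
    rw [h4, ← ha, ← hb]
    rw [← ha] at h1 h3
    rw [← hb] at ih h2
    have h5 : (cnt p + 1) * (cnt q + 1) = cnt p * cnt q + cnt p + cnt q + 1 := by ring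
    have h6 : a + b ≤ a * b + 1 := by nlinarith
    have h7 : cnt p * cnt q + 1 ≤ a := by omega
    nlinarith

theorem rv_items (t : Pt) : rv t = ∑ i ∈ Finset.range (cnt t), vi (item t i) := by
  induction t with
  | Z => simp [cnt, rv]
  | A b u t _ ih =>
    rw [cnt, Finset.sum_range_succ', item_A0, rv_A, ih, add_comm]
    simp only [item_AS, vi]
  | P p q t ihp ihq ih =>
    rw [cnt, Finset.sum_range_add, rv_P, ih]
    simp only [item_P2]
    congr 1
    rw [ihp, ihq, Finset.sum_mul_sum]
    have key : ∀ f : ℕ → ℝ, ∀ a b : ℕ, ∑ i ∈ Finset.range (a * b), f i =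
        ∑ i ∈ Finset.range a, ∑ j ∈ Finset.range b, f (i * b + j) := by
      intro f a b
      induction a with
      | zero => simp
      | succ a iha =>
        rw [Finset.sum_range_succ, ← iha, add_mul, one_mul, Finset.sum_range_add]
    rw [key]
    refine Finset.sum_congr rfl fun i hi => Finset.sum_congr rfl fun j hj => ?_
    rw [item_P1 p q t (Finset.mem_range.1 hi) (Finset.mem_range.1 hj)]
    simp only [vi]
    rw [rv_cat, Real.rpow_add (by norm_num), sg_xor]
    push_cast
    ring

theorem cnt_cat (t t' : Pt) : cnt (cat t t') = cnt t + cnt t' := by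
  induction t with
  | Z => simp [cat, cnt]
  | A b u t _ ih =>
    simp only [cat, cnt, ih]
    ring
  | P p q t _ _ ih =>
    simp only [cat, cnt, ih]
    ring

theorem cnt_neg (t : Pt) : cnt (neg t) = cnt t := by
  induction t with
  | Z => rfl
  | A b u t _ ih => simp only [neg, cnt, ih]
  | P p q t ihp _ ih => simp only [neg, cnt, ih, ihp]

theorem cnt_inct (j : ℕ) (t : Pt) : cnt (inct j t) = j + cnt t := by
  induction j with
  | zero => simp [inct]
  | succ j ih =>
    rw [inct, inc, cnt, ih]
    ring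

/-- All exponents of the items satisfy a condition. -/
def AllI (φ : Pt → Prop) (t : Pt) : Prop := ∀ i < cnt t, φ (item t i).2

theorem AllI.cat {φ : Pt → Prop} {t t' : Pt} (h : AllI φ t) (h' : AllI φ t') :
    AllI φ (PM80.cat t t') := by
  induction t with
  | Z => exact h'
  | A b u t _ ih =>
    intro i hi
    simp only [PM80.cat, cnt] at hi ⊢
    cases i with
    | zero =>
      rw [item_A0]
      have := h 0 (by simp only [cnt]; omega)
      rwa [item_A0] at this
    | succ i =>
      rw [item_AS]
      refine ih (fun j hj => ?_) i (by omega)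
      have := h (j + 1) (by simp only [cnt]; omega)
      rwa [item_AS] at this
  | P p q t _ _ ih =>
    intro i hi
    simp only [PM80.cat] at hi ⊢
    rcases pos_P hi with ⟨i1, h1, i2, h2, rfl⟩ | ⟨i', h1, rfl⟩
    · rw [item_P1 p q _ h1 h2]
      have h3 : i1 * cnt q + i2 < cnt (P p q t) := by
        have : (i1 + 1) * cnt q ≤ cnt p * cnt q := Nat.mul_le_mul_right _ h1
        rw [Nat.add_mul, one_mul] at this
        simp only [cnt]
        omega
      have := h _ h3
      rwa [item_P1 p q _ h1 h2] at this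
    · rw [item_P2]
      refine ih (fun j hj => ?_) i' h1
      have := h (cnt p * cnt q + j) (by simp only [cnt]; omega)
      rwa [item_P2] at this

theorem item_neg (t : Pt) : ∀ i < cnt t, item (neg t) i = (!(item t i).1, (item t i).2) := by
  induction t with
  | Z =>
    intro i hi
    simp [cnt] at hi
  | A b u t _ ih =>
    intro i hi
    cases i with
    | zero => simp only [neg, item_A0]
    | succ i =>
      simp only [cnt] at hi
      simp only [neg, item_AS]
      exact ih i (by omega)
  | P p q t ihp _ ih =>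
    intro i hi
    rcases pos_P hi with ⟨i1, h1, i2, h2, rfl⟩ | ⟨i', h1, rfl⟩
    · rw [neg, item_P1 p q t h1 h2, item_P1 (neg p) q (neg t) (by rw [cnt_neg]; exact h1) h2,
        ihp i1 h1]
      simp
    · have e : cnt (neg p) * cnt q + i' = cnt p * cnt q + i' := by rw [cnt_neg]
      rw [neg, item_P2, ← e, item_P2]
      exact ih i' h1

theorem AllI.neg {φ : Pt → Prop} {t : Pt} (h : AllI φ t) : AllI φ (PM80.neg t) := by
  intro i hi
  rw [cnt_neg] at hi
  rw [item_neg t i hi]
  exact h i hi

theorem AllI.inct {φ : Pt → Prop} {t : Pt} (h : AllI φ t) (hZ : φ Z) (j : ℕ) :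
    AllI φ (PM80.inct j t) := by
  induction j with
  | zero => exact h
  | succ j ih =>
    intro i hi
    simp only [PM80.inct, inc] at hi ⊢
    cases i with
    | zero =>
      rw [item_A0]
      exact hZ
    | succ i =>
      simp only [cnt] at hi
      rw [item_AS]
      exact ih i (by omega)

/-- Signs of the items. -/
def its (t : Pt) (i : ℕ) : Bool := (item t i).1

/-- Values of the exponents of the items. -/
noncomputable def itx (t : Pt) (i : ℕ) : ℝ := rv (item t i).2

theorem rv_its (t : Pt) : rv t = ∑ i ∈ Finset.range (cnt t),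
    (sg (its t i) : ℝ) * (2 : ℝ) ^ itx t i := rv_items t

/-- State of the accumulator after the item `i`. -/
def St (t : Pt) (σ : Bool) (i a : ℕ) : Prop :=
  i < cnt t ∧ Inv (cnt t) (up (cnt t) (itx t) i).card σ a (Vv (cnt t) (its t) (itx t) i)

theorem code_A_left (b : Bool) (u t : Pt) : u.code < (A b u t).code := by
  have := code_pos u
  simp only [code]
  omega

theorem code_A_right (b : Bool) (u t : Pt) : t.code < (A b u t).code := by
  have h1 : t.code ≤ 8 ^ u.sz * t.code := Nat.le_mul_of_pos_left _ (by positivity)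
  have := code_pos t
  simp only [code]
  omega

theorem code_P_1 (p q t : Pt) : p.code < (P p q t).code := by
  simp only [code]
  omega

theorem code_P_2 (p q t : Pt) : q.code < (P p q t).code := by
  have h1 : q.code + 8 ^ q.sz * t.code ≤ 8 ^ p.sz * (q.code + 8 ^ q.sz * t.code) :=
    Nat.le_mul_of_pos_left _ (by positivity)
  simp only [code]
  omega

theorem code_P_3 (p q t : Pt) : t.code < (P p q t).code := by
  have h1 : q.code + 8 ^ q.sz * t.code ≤ 8 ^ p.sz * (q.code + 8 ^ q.sz * t.code) :=
    Nat.le_mul_of_pos_left _ (by positivity)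
  have h2 : t.code ≤ 8 ^ q.sz * t.code := Nat.le_mul_of_pos_left _ (by positivity)
  simp only [code]
  omega

end PM80
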