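import Pool.Agent.BK21.Gap

/-!
# Signed sums of powers of two that are a power of three: scales and clusters
-/

set_option autoImplicit false

namespace PM80

open Finset

/-- Ratio of two scales. -/
def Qs (s : ℕ) : ℕ := ((s + 1) * s) ^ (s + 1)

theorem lac_pos {B : ℤ} (hB : 0 ≤ B) (d : ℕ → ℤ) (K : ℕ) (h0 : 0 < d 0)
    (hg : ∀ i < K, (B + 1) * d i < d (i + 1)) :
    ∀ i ≤ K, 0 < d i ∧ B * ∑ j ∈ range i, d j < d i := by
  intro i
  induction i with
  | zero =>
    intro _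
    exact ⟨h0, by simpa using h0⟩
  | succ i ih =>
    intro hi
    obtain ⟨h1, h2⟩ := ih (by omega)
    have h3 := hg i (by omega)
    constructor
    · nlinarith
    · rw [sum_range_succ, mul_add]
      linarith

theorem lac {B : ℤ} (hB : 0 ≤ B) (d t : ℕ → ℤ) : ∀ (K : ℕ) (_ : 0 < d 0)
    (_ : ∀ i < K, (B + 1) * d i < d (i + 1)) (_ : ∀ i ≤ K, |t i| ≤ B)
    (_ : ∑ i ∈ range (K + 1), t i * d i = 0), ∀ i ≤ K, t i = 0 := by
  intro K
  induction K with
  | zero =>
    intro h0 _ _ hz i hi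
    have : i = 0 := by omega
    subst this
    rw [zero_add, sum_range_one] at hz
    rcases mul_eq_zero.1 hz with h | h
    · exact h
    · omega
  | succ K ih =>
    intro h0 hg ht hz
    have hp := lac_pos hB d (K + 1) h0 hg
    rw [sum_range_succ] at hz
    have hK : t (K + 1) = 0 := by
      by_contra hne
      obtain ⟨h1, h2⟩ := hp (K + 1) le_rfl
      have h3 : |∑ i ∈ range (K + 1), t i * d i| ≤ B * ∑ j ∈ range (K + 1), d j := by
        refine (abs_sum_le_sum_abs _ _).trans ?_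
        rw [mul_sum]
        refine sum_le_sum fun i hi => ?_
        have hi' : i ≤ K + 1 := by
          have := mem_range.1 hi
          omega
        rw [abs_mul, abs_of_pos (hp i hi').1]
        exact mul_le_mul_of_nonneg_right (ht i hi') (hp i hi').1.le
      have h4 : d (K + 1) ≤ |t (K + 1) * d (K + 1)| := by
        rw [abs_mul, abs_of_pos h1]
        have := Int.one_le_abs hne
        nlinarith
      have h5 : t (K + 1) * d (K + 1) = - ∑ i ∈ range (K + 1), t i * d i := by linarith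
      rw [h5, abs_neg] at h4
      linarith
    rw [hK, zero_mul, add_zero] at hz
    have h6 := ih h0 (fun i hi => hg i (by omega)) (fun i hi => ht i (by omega)) hz
    intro i hi
    rcases Nat.lt_or_ge i (K + 1) with h | h
    · exact h6 i (by omega)
    · have : i = K + 1 := by omega
      rw [this, hK]

section

attribute [local instance] Matrix.seminormedAddCommGroup

/-- A relation with small coefficients between `k + 1` vectors in dimension `k`. -/
theorem small_rel {α : Type} [Fintype α] {s : ℕ} (hs : 1 ≤ s) (hα : Fintype.card α ≤ s)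
    (hα0 : 0 < Fintype.card α) (n : Fin (Fintype.card α + 1) → α → ℤ)
    (hn : ∀ i a, |n i a| ≤ s) :
    ∃ t : Fin (Fintype.card α + 1) → ℤ, t ≠ 0 ∧ (∀ a, ∑ i, n i a * t i = 0) ∧
      ∀ i, |t i| ≤ ((s + 1) * s) ^ s := by
  classical
  obtain ⟨t, ht0, htA, htn⟩ := Int.Matrix.exists_ne_zero_int_vec_norm_le
    (Matrix.of fun (a : α) (i : Fin (Fintype.card α + 1)) => n i a) (by simp) hα0
  refine ⟨t, ht0, fun a => ?_, fun i => ?_⟩
  · have := congrFun htA a
    simpa [Matrix.mulVec, dotProduct] using this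
  · have h1 : (|(t i : ℝ)|) ≤ ‖t‖ := by
      have := norm_le_pi_norm t i
      rwa [Int.norm_eq_abs] at this
    have hs' : (1 : ℝ) ≤ s := by exact_mod_cast hs
    have h2 : ‖(Matrix.of fun (a : α) (i : Fin (Fintype.card α + 1)) => n i a)‖ ≤ (s : ℝ) := by
      rw [Matrix.norm_le_iff (by linarith)]
      intro a i
      rw [Int.norm_eq_abs]
      exact_mod_cast hn i a
    have h3 : max 1 ‖(Matrix.of fun (a : α) (i : Fin (Fintype.card α + 1)) => n i a)‖ ≤
        (s : ℝ) := max_le hs' h2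
    have h4 : ((Fintype.card α : ℕ) : ℝ) / ((Fintype.card (Fin (Fintype.card α + 1)) : ℕ) -
        (Fintype.card α : ℕ) : ℝ) = ((Fintype.card α : ℕ) : ℝ) := by
      rw [Fintype.card_fin]
      push_cast
      rw [add_sub_cancel_left, div_one]
    rw [h4, Real.rpow_natCast] at htn
    have h5 : (1 : ℝ) ≤ max 1 ‖(Matrix.of fun (a : α) (i : Fin (Fintype.card α + 1)) => n i a)‖ :=
      le_max_left _ _
    have h6 : ((Fintype.card (Fin (Fintype.card α + 1)) : ℕ) : ℝ) ≤ s + 1 := by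
      rw [Fintype.card_fin]
      exact_mod_cast Nat.succ_le_succ hα
    have h7 : ((Fintype.card (Fin (Fintype.card α + 1)) : ℕ) : ℝ) *
        max 1 ‖(Matrix.of fun (a : α) (i : Fin (Fintype.card α + 1)) => n i a)‖ ≤
        (s + 1) * s := mul_le_mul h6 h3 (by linarith) (by linarith)
    have h8 : (1 : ℝ) ≤ (s + 1) * s := by nlinarith
    have h9 : |(t i : ℝ)| ≤ ((s + 1) * s) ^ s := by
      refine h1.trans (htn.trans ?_)
      refine (pow_le_pow_left₀ (by positivity) h7 _).trans ?_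
      exact pow_le_pow_right₀ h8 hα
    exact_mod_cast h9

end

/-- There are at most `k` scales. -/
theorem three_scales {α : Type} [Fintype α] {s : ℕ} (hs : 1 ≤ s) (hα : Fintype.card α ≤ s)
    (v : α → ℤ) (n : ℕ → α → ℤ) (hn : ∀ i a, |n i a| ≤ s) (d : ℕ → ℤ)
    (hd : ∀ i, d i = ∑ a, n i a * v a) (h0 : 0 < d 0)
    (hg : ∀ i < Fintype.card α, (Qs s : ℤ) * d i < d (i + 1)) : False := by
  classical
  rcases Nat.eq_zero_or_pos (Fintype.card α) with hc | hc
  · have : IsEmpty α := Fintype.card_eq_zero_iff.1 hc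
    rw [hd 0, Finset.univ_eq_empty, sum_empty] at h0
    exact lt_irrefl _ h0
  · obtain ⟨t, ht0, ht, htB⟩ := small_rel hs hα hc (fun i => n i) (fun i => hn i)
    have hB : (0 : ℤ) ≤ ((s + 1) * s) ^ s := by positivity
    have hQ : (((s : ℤ) + 1) * s) ^ s + 1 ≤ (Qs s : ℤ) := by
      unfold Qs
      push_cast
      rw [pow_succ]
      have h1 : (1 : ℤ) ≤ (((s : ℤ) + 1) * s) ^ s := by
        have hs' : (1 : ℤ) ≤ s := by exact_mod_cast hs
        exact one_le_pow₀ (by nlinarith)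
      have h2 : (2 : ℤ) ≤ ((s : ℤ) + 1) * s := by
        have hs' : (1 : ℤ) ≤ s := by exact_mod_cast hs
        nlinarith
      nlinarith
    have hpos : ∀ i ≤ Fintype.card α, 0 < d i := by
      intro i
      induction i with
      | zero => exact fun _ => h0
      | succ i ih =>
        intro hi
        have h1 := ih (by omega)
        have h2 := hg i (by omega)
        have h3 : (0 : ℤ) ≤ (Qs s : ℤ) := by positivity
        nlinarith
    have key := lac hB d (fun i => if h : i < Fintype.card α + 1 then t ⟨i, h⟩ else 0)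
      (Fintype.card α) h0 (fun i hi => lt_of_le_of_lt
        (mul_le_mul_of_nonneg_right hQ (hpos i hi.le).le) (hg i hi)) (by
          intro i hi
          have h1 : i < Fintype.card α + 1 := by omega
          simp only [h1, dif_pos]
          exact htB _) (by
          rw [← Fin.sum_univ_eq_sum_range
            (fun i => (if h : i < Fintype.card α + 1 then t ⟨i, h⟩ else 0) * d i)]
          have h1 : ∀ i : Fin (Fintype.card α + 1),
              (if h : (i : ℕ) < Fintype.card α + 1 then t ⟨i, h⟩ else 0) * d i =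
              ∑ a, v a * (n i a * t i) := by
            intro i
            rw [dif_pos i.2, hd, mul_sum]
            refine sum_congr rfl fun a _ => ?_
            ring
          rw [sum_congr rfl fun i _ => h1 i, sum_comm]
          refine sum_eq_zero fun a _ => ?_
          rw [← mul_sum, ht a, mul_zero])
    apply ht0
    funext i
    have h5 := key i (Nat.le_of_lt_succ i.2)
    rw [dif_pos i.2] at h5
    exact h5

/-- A gap between scales. -/
theorem select {α ι : Type} [Fintype α] {s : ℕ} (hs : 1 ≤ s) (hα : Fintype.card α ≤ s)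
    (v : α → ℕ) (n : ι → α → ℕ) (hn : ∀ i a, n i a ≤ s) (e : ι → ℕ)
    (he : ∀ i, e i = ∑ a, n i a * v a) {R : ℕ} (hR : Qs s ≤ R) (i₁ : ι) :
    ∃ j ≤ 2 * Fintype.card α, ∀ i, ¬ (R ^ j < e i₁ - e i ∧ e i₁ - e i ≤ R ^ (j + 1)) := by
  by_contra hcon
  push Not at hcon
  have h1 : ∀ j : ℕ, ∃ i, j ≤ Fintype.card α →
      R ^ (2 * j) < e i₁ - e i ∧ e i₁ - e i ≤ R ^ (2 * j + 1) := by
    intro j
    by_cases hj : j ≤ Fintype.card α
    · obtain ⟨i, hi⟩ := hcon (2 * j) (by omega)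
      exact ⟨i, fun _ => hi⟩
    · exact ⟨i₁, fun h => absurd h hj⟩
  choose f hf using h1
  have hsub : ∀ j ≤ Fintype.card α, ((e i₁ - e (f j) : ℕ) : ℤ) = (e i₁ : ℤ) - e (f j) := by
    intro j hj
    have := (hf j hj).1
    exact Nat.cast_sub (by omega)
  refine three_scales hs hα (fun a => (v a : ℤ)) (fun j a => (n i₁ a : ℤ) - n (f j) a) ?_
    (fun j => (e i₁ : ℤ) - e (f j)) ?_ ?_ ?_
  · intro j a
    have h2 : (n i₁ a : ℤ) ≤ s := by exact_mod_cast hn i₁ a
    have h3 : (n (f j) a : ℤ) ≤ s := by exact_mod_cast hn (f j) a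
    rw [abs_le]
    constructor <;> omega
  · intro j
    rw [he, he]
    push_cast
    rw [← sum_sub_distrib]
    refine sum_congr rfl fun a _ => ?_
    ring
  · have := (hf 0 (Nat.zero_le _)).1
    rw [mul_zero, pow_zero] at this
    have h4 := hsub 0 (Nat.zero_le _)
    show (0 : ℤ) < (e i₁ : ℤ) - e (f 0)
    rw [← h4]
    exact_mod_cast (by omega : 0 < e i₁ - e (f 0))
  · intro j hj
    have h5 := (hf j hj.le).2
    have h6 := (hf (j + 1) hj).1
    have h7 : Qs s * (e i₁ - e (f j)) < e i₁ - e (f (j + 1)) := by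
      refine lt_of_le_of_lt (Nat.mul_le_mul hR h5) ?_
      refine lt_of_eq_of_lt ?_ h6
      rw [show 2 * (j + 1) = (2 * j + 1) + 1 by ring, pow_succ R (2 * j + 1), mul_comm]
    show (Qs s : ℤ) * ((e i₁ : ℤ) - e (f j)) < (e i₁ : ℤ) - e (f (j + 1))
    rw [← hsub j hj.le, ← hsub (j + 1) hj]
    exact_mod_cast h7

/-- The ratio used for the exponents below `2 ^ (l + 1)`. -/
def Rs (s l : ℕ) : ℕ := 2 ^ 75 * (s + 3) * (l + 2) ^ 3 * Qs s

theorem le_two_pow (s : ℕ) : s + 1 ≤ 2 ^ s := Nat.lt_two_pow_self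

theorem Rs_le {s l : ℕ} (hs : 1 ≤ s) :
    Rs s l ≤ 2 ^ (110 * s ^ 2 + 3 * (l / (36 * s))) := by
  obtain ⟨q, hq⟩ : ∃ q, q = l / (36 * s) := ⟨_, rfl⟩
  rw [← hq]
  have hlam : l + 2 ≤ 2 ^ (7 + s + q) := by
    have h1 : l < 36 * s * (q + 1) := by
      rw [hq]
      exact Nat.lt_mul_div_succ l (by omega)
    have h2 : l + 2 ≤ 36 * s * (2 * 2 ^ q) := by
      have h3 : q + 1 ≤ 2 ^ q := le_two_pow q
      have h4 : 36 * s * (q + 2) ≤ 36 * s * (2 * 2 ^ q) := Nat.mul_le_mul_left _ (by omega)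
      have h5 : 36 * s * (q + 2) = 36 * s * (q + 1) + 36 * s := by ring
      omega
    refine h2.trans ?_
    have h6 : 2 ^ (7 + s + q) = 128 * 2 ^ s * 2 ^ q := by
      rw [pow_add, pow_add]
      norm_num
    rw [h6]
    have h7 : s ≤ 2 ^ s := (Nat.lt_two_pow_self).le
    calc 36 * s * (2 * 2 ^ q) = 72 * (s * 2 ^ q) := by ring
      _ ≤ 72 * (2 ^ s * 2 ^ q) := Nat.mul_le_mul_left _ (Nat.mul_le_mul_right _ h7)
      _ ≤ 128 * (2 ^ s * 2 ^ q) := Nat.mul_le_mul_right _ (by norm_num)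
      _ = 128 * 2 ^ s * 2 ^ q := by ring
  have hQ : Qs s ≤ 2 ^ (2 * s * (s + 1)) := by
    unfold Qs
    rw [pow_mul]
    apply Nat.pow_le_pow_left
    have h1 : s + 1 ≤ 2 ^ s := le_two_pow s
    have h2 : s ≤ 2 ^ s := (Nat.lt_two_pow_self).le
    calc (s + 1) * s ≤ 2 ^ s * 2 ^ s := Nat.mul_le_mul h1 h2
      _ = 2 ^ (2 * s) := by rw [← pow_add]; congr 1; ring
  have h3 : s + 3 ≤ 2 ^ (s + 2) := by
    have := le_two_pow s
    rw [pow_add]
    omega
  unfold Rs
  calc 2 ^ 75 * (s + 3) * (l + 2) ^ 3 * Qs s ≤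
      2 ^ 75 * 2 ^ (s + 2) * (2 ^ (7 + s + q)) ^ 3 * 2 ^ (2 * s * (s + 1)) := by
        gcongr
    _ = 2 ^ (75 + (s + 2) + (7 + s + q) * 3 + 2 * s * (s + 1)) := by
        rw [← pow_mul, ← pow_add, ← pow_add, ← pow_add]
    _ ≤ 2 ^ (110 * s ^ 2 + 3 * q) := by
        apply Nat.pow_le_pow_right (by norm_num)
        nlinarith

theorem Rs_pow {s l : ℕ} (hs : 1 ≤ s) (hl : 2000 * s ^ 3 ≤ l) :
    4 * (s + 3) * Rs s l ^ (2 * s + 1) ≤ 2 ^ l := by
  have h1 := Rs_le (l := l) hs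
  obtain ⟨q, hq⟩ : ∃ q, q = l / (36 * s) := ⟨_, rfl⟩
  rw [← hq] at h1
  have h2 : q * (36 * s) ≤ l := by
    rw [hq]
    exact Nat.div_mul_le_self _ _
  have h3 : s + 3 ≤ 2 ^ (s + 2) := by
    have := le_two_pow s
    rw [pow_add]
    omega
  calc 4 * (s + 3) * Rs s l ^ (2 * s + 1) ≤
      2 ^ 2 * 2 ^ (s + 2) * (2 ^ (110 * s ^ 2 + 3 * q)) ^ (2 * s + 1) := by
        gcongr
        norm_num
    _ = 2 ^ (2 + (s + 2) + (110 * s ^ 2 + 3 * q) * (2 * s + 1)) := by
        rw [← pow_mul, ← pow_add, ← pow_add]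
    _ ≤ 2 ^ l := by
        apply Nat.pow_le_pow_right (by norm_num)
        have h4 : (110 * s ^ 2 + 3 * q) * (2 * s + 1) ≤ (110 * s ^ 2 + 3 * q) * (3 * s) :=
          Nat.mul_le_mul_left _ (by omega)
        have h5 : (110 * s ^ 2 + 3 * q) * (3 * s) = 330 * s ^ 3 + 9 * (q * s) := by ring
        have h6 : q * (36 * s) = 36 * (q * s) := by ring
        have h7 : s ≤ s ^ 3 := Nat.le_self_pow (by norm_num) s
        have h8 : 1 ≤ s ^ 3 := Nat.one_le_pow _ _ hs
        omega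

theorem one_le_Qs {s : ℕ} (hs : 1 ≤ s) : 1 ≤ Qs s := Nat.one_le_pow _ _ (by positivity)

theorem Rs_ge {s l : ℕ} (hs : 1 ≤ s) : 2 ^ 75 * (s + 3) * (l + 2) ^ 3 ≤ Rs s l :=
  Nat.le_mul_of_pos_right _ (one_le_Qs hs)

theorem Qs_le_Rs (s l : ℕ) : Qs s ≤ Rs s l :=
  Nat.le_mul_of_pos_left _ (by positivity)

theorem exp_le_four_pow (N : ℕ) : Real.exp N ≤ 4 ^ N := by
  have h1 : Real.exp (N : ℝ) = Real.exp 1 ^ N := by rw [← Real.exp_nat_mul, mul_one]
  rw [h1]
  exact pow_le_pow_left₀ (Real.exp_pos _).le (by have := Real.exp_one_lt_d9; linarith) N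

theorem exp_lt_four_pow {N : ℕ} (hN : N ≠ 0) : Real.exp N < 4 ^ N := by
  have h1 : Real.exp (N : ℝ) = Real.exp 1 ^ N := by rw [← Real.exp_nat_mul, mul_one]
  rw [h1]
  exact pow_lt_pow_left₀ (by have := Real.exp_one_lt_d9; linarith) (Real.exp_pos _).le hN

theorem two_pow_le_exp (N : ℕ) : (2 : ℝ) ^ N ≤ Real.exp N := by
  have h1 : Real.exp (N : ℝ) = Real.exp 1 ^ N := by rw [← Real.exp_nat_mul, mul_one]
  rw [h1]
  exact pow_le_pow_left₀ (by norm_num) (by have := Real.exp_one_gt_d9; linarith) N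

/-- A cluster of terms is not close to a power of three. -/
theorem no_big {s l X E j : ℕ} {M rest : ℤ} (hs : 1 ≤ s) (hl : 2000 * s ^ 3 ≤ l)
    (hE1 : 2 ^ l ≤ E) (hE2 : E < 2 ^ (l + 1)) (hj : j ≤ 2 * s)
    (hM : |M| ≤ 2 ^ s * 2 ^ (Rs s l ^ j))
    (hrest : |rest| ≤ 2 ^ s * 2 ^ (E - Rs s l ^ (j + 1))) (hX : X ≤ s + E)
    (hsum : M * 2 ^ (E - Rs s l ^ j) + rest = 3 ^ X) : M = 0 := by
  obtain ⟨R, hR⟩ : ∃ R, R = Rs s l := ⟨_, rfl⟩
  have hRge := Rs_ge (l := l) hs
  have hRpow := Rs_pow hs hl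
  rw [← hR] at hRge hRpow hM hrest hsum
  have hlam3 : 1 ≤ (l + 2) ^ 3 := Nat.one_le_pow _ _ (by omega)
  have hR1 : 1 ≤ R := by
    refine le_trans ?_ hRge
    exact Nat.succ_le_of_lt (by positivity)
  obtain ⟨a, ha⟩ : ∃ a, a = R ^ j := ⟨_, rfl⟩
  obtain ⟨b, hb⟩ : ∃ b, b = R ^ (j + 1) := ⟨_, rfl⟩
  have ha1 : 1 ≤ a := by
    rw [ha]
    exact Nat.one_le_pow _ _ hR1
  have hab : 2 ^ 75 * (s + 3) * (l + 2) ^ 3 * a ≤ b := by
    rw [hb, pow_succ R j, ← ha, mul_comm a R]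
    exact Nat.mul_le_mul_right _ hRge
  have hbE : 4 * (s + 3) * b ≤ E := by
    refine le_trans ?_ (hRpow.trans hE1)
    rw [hb]
    exact Nat.mul_le_mul_left _ (Nat.pow_le_pow_right hR1 (by omega))
  rw [← ha] at hM hsum
  rw [← hb] at hrest
  have hab' : 2 ^ 75 * (s + 3) * a ≤ b := by
    refine le_trans ?_ hab
    have : 2 ^ 75 * (s + 3) * (l + 2) ^ 3 * a = 2 ^ 75 * (s + 3) * a * (l + 2) ^ 3 := by ring
    rw [this]
    exact Nat.le_mul_of_pos_right _ hlam3
  have hab2 : (s + 3) * a ≤ 2 ^ 75 * (s + 3) * a := by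
    rw [mul_assoc]
    exact Nat.le_mul_of_pos_left _ (by positivity)
  have hsa : s + 3 * a ≤ (s + 3) * a := by nlinarith
  have hb4 : 12 * b ≤ E := by
    refine le_trans ?_ hbE
    exact Nat.mul_le_mul_right _ (by omega)
  have hsaE : 12 * ((s + 3) * a) ≤ E := by omega
  by_contra hM0
  obtain ⟨x, hx⟩ : ∃ x, x = E - a := ⟨_, rfl⟩
  rw [← hx] at hsum
  have hrestR : |(rest : ℝ)| ≤ 2 ^ (s + (E - b)) := by
    rw [pow_add]
    exact_mod_cast hrest
  have hsumR : (M : ℝ) * 2 ^ x + rest = 3 ^ X := by exact_mod_cast hsum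
  by_cases hc : (3 : ℝ) ^ X < 2 ^ (x - 1)
  · have h1 : (1 : ℝ) ≤ |(M : ℝ)| := by exact_mod_cast Int.one_le_abs hM0
    have h2 : (2 : ℝ) ^ x ≤ |(M : ℝ) * 2 ^ x| := by
      rw [abs_mul, abs_of_pos (by positivity : (0 : ℝ) < 2 ^ x)]
      nlinarith [(by positivity : (0 : ℝ) < 2 ^ x)]
    have h3 : (M : ℝ) * 2 ^ x = 3 ^ X - rest := by linarith
    rw [h3] at h2
    have h4 : |(3 : ℝ) ^ X - rest| ≤ |(3 : ℝ) ^ X| + |(rest : ℝ)| := by
      have := abs_add_le ((3 : ℝ) ^ X) (-(rest : ℝ))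
      rwa [abs_neg, ← sub_eq_add_neg] at this
    rw [abs_of_pos (by positivity : (0 : ℝ) < 3 ^ X)] at h4
    have h5 : (2 : ℝ) ^ (s + (E - b)) ≤ 2 ^ (x - 1) :=
      pow_le_pow_right₀ (by norm_num) (by omega)
    have h6 : (2 : ℝ) ^ x = 2 * 2 ^ (x - 1) := by
      rw [← pow_succ']
      congr 1
      omega
    linarith
  · push Not at hc
    obtain ⟨h, hh⟩ : ∃ h, h = s + a := ⟨_, rfl⟩
    have hE3 : E ≤ 2 ^ (l + 2) := by
      rw [pow_succ]
      omega
    have h2l : 2 ^ (l + 2) = 4 * 2 ^ l := by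
      rw [pow_add]
      ring
    have hE4 : x ≤ 2 ^ (l + 2) := by omega
    have hX4 : X ≤ 2 ^ (l + 2) := by
      have : X ≤ 2 * E := by omega
      have : 2 ^ (l + 2) = 2 * 2 ^ (l + 1) := by ring
      omega
    have hhl : h ≤ 2 ^ (l + 2) := by omega
    have hexp : Real.exp h < 2 ^ (x - 1) := by
      refine (exp_lt_four_pow (by omega)).trans_le ?_
      rw [show (4 : ℝ) = 2 ^ 2 by norm_num, ← pow_mul]
      exact pow_le_pow_right₀ (by norm_num) (by omega)
    have hMh : |(M : ℝ)| ≤ Real.exp h := by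
      refine le_trans ?_ (two_pow_le_exp h)
      rw [hh, pow_add]
      exact_mod_cast hM
    have hBh : |((-1 : ℤ) : ℝ)| ≤ Real.exp h := by
      push_cast
      rw [abs_neg, abs_one]
      exact Real.one_le_exp (by positivity)
    have g := BK21.core_gap (A := M) (B := -1) (x := x) (y := X) (lam := l + 2) (h := h)
      (m := 2 ^ (x - 1)) (by omega) (by omega) hhl hMh hBh hE4 hX4
      (pow_le_pow_right₀ (by norm_num) (by omega)) hc (by positivity) hexp
      (fun hAB => hM0 hAB.1)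
    have h7 : |(M : ℝ) * 2 ^ x + ((-1 : ℤ) : ℝ) * 3 ^ X| = |(rest : ℝ)| := by
      have : (M : ℝ) * 2 ^ x + ((-1 : ℤ) : ℝ) * 3 ^ X = - (rest : ℝ) := by
        push_cast
        linarith
      rw [this, abs_neg]
    rw [h7] at g
    obtain ⟨N, hN⟩ : ∃ N : ℕ, N = 2 ^ 73 * h * (l + 2) ^ 3 := ⟨_, rfl⟩
    have h8 : (2 : ℝ) ^ 73 * (h : ℝ) * ((l + 2 : ℕ) : ℝ) ^ 3 = (N : ℝ) := by
      rw [hN]
      push_cast
      ring
    rw [h8, Real.exp_neg] at g
    have h9 : (2 : ℝ) ^ (x - 1) ≤ 2 ^ (s + (E - b) + 2 * N) := by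
      have h10 := g.trans hrestR
      rw [← div_eq_mul_inv, div_le_iff₀ (Real.exp_pos _)] at h10
      refine h10.trans ?_
      rw [pow_add _ (s + (E - b)), pow_mul]
      have : (2 : ℝ) ^ 2 = 4 := by norm_num
      rw [this]
      exact mul_le_mul_of_nonneg_left (exp_le_four_pow N) (by positivity)
    have h10 : x - 1 ≤ s + (E - b) + 2 * N := (pow_le_pow_iff_right₀ (by norm_num)).1 h9
    have h11 : b ≤ 1 + s + a + 2 * N := by omega
    have h12 : 2 * N = 2 ^ 74 * ((s + a) * (l + 2) ^ 3) := by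
      rw [hN, hh]
      ring
    have h13 : (s + a) * (l + 2) ^ 3 ≤ (s + 1) * a * (l + 2) ^ 3 := by
      apply Nat.mul_le_mul_right
      nlinarith
    have h14 : 1 + s + a ≤ (s + 2) * a * (l + 2) ^ 3 := by
      refine le_trans ?_ (Nat.le_mul_of_pos_right _ hlam3)
      nlinarith
    have h15 : 2 ^ 75 * (s + 3) * (l + 2) ^ 3 * a =
        2 ^ 74 * ((s + 1) * a * (l + 2) ^ 3) + 2 ^ 74 * ((s + 5) * a * (l + 2) ^ 3) := by ring
    have h16 : (s + 5) * a * (l + 2) ^ 3 = (s + 2) * a * (l + 2) ^ 3 + 3 * (a * (l + 2) ^ 3) := by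
      ring
    have h17 : 1 ≤ a * (l + 2) ^ 3 := Nat.succ_le_of_lt (Nat.mul_pos ha1 hlam3)
    omega

/-- The large items of a sum equal to a power of three cancel. -/
theorem cluster {α ι : Type} [Fintype α] [DecidableEq ι] {s : ℕ} (hs : 1 ≤ s)
    (hα : Fintype.card α ≤ s) (v : α → ℕ) (n : ι → α → ℕ) (hn : ∀ i a, n i a ≤ s)
    (e : ι → ℕ) (he : ∀ i, e i = ∑ a, n i a * v a) (c : ι → ℤ) (hc : ∀ i, |c i| ≤ 1)
    {L X : ℕ} (hL : 2 ^ (2000 * s ^ 3) ≤ L) :
    ∀ (N : ℕ) (F : Finset ι), F.card = N → F.card ≤ 2 ^ s →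
      (∀ i ∈ F, L ≤ e i ∨ 4 * e i < L) → ∑ i ∈ F, c i * 2 ^ e i = 3 ^ X →
      ∑ i ∈ F.filter (fun i => L ≤ e i), c i * 2 ^ e i = 0 := by
  intro N
  induction N using Nat.strong_induction_on with
  | _ N ih =>
  intro F hN hcard hF hsum
  by_cases hG : ∃ i ∈ F, L ≤ e i
  · obtain ⟨i₀, hi₀, hi₀'⟩ := hG
    obtain ⟨i₁, hi₁, hmax⟩ := F.exists_max_image e ⟨i₀, hi₀⟩
    obtain ⟨E, hE⟩ : ∃ E, E = e i₁ := ⟨_, rfl⟩
    have hmax' : ∀ i ∈ F, e i ≤ E := fun i hi => by
      rw [hE]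
      exact hmax i hi
    have hLE : L ≤ E := hi₀'.trans (hmax' i₀ hi₀)
    have hpos : 0 < 2 ^ (2000 * s ^ 3) := by positivity
    have hE0 : E ≠ 0 := by omega
    obtain ⟨l, hl⟩ : ∃ l, l = Nat.log 2 E := ⟨_, rfl⟩
    have hl1 : 2 ^ l ≤ E := by
      rw [hl]
      exact Nat.pow_log_le_self 2 hE0
    have hl2 : E < 2 ^ (l + 1) := by
      rw [hl]
      exact Nat.lt_pow_succ_log_self (by norm_num) E
    have hl3 : 2000 * s ^ 3 ≤ l := by
      rw [hl]
      exact Nat.le_log_of_pow_le (by norm_num) (hL.trans hLE)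
    obtain ⟨j, hj, hsel⟩ := select hs hα v n hn e he (Qs_le_Rs s l) i₁
    rw [← hE] at hsel
    have hRge := Rs_ge (l := l) hs
    have hR1 : 1 ≤ Rs s l := le_trans (Nat.succ_le_of_lt (by positivity)) hRge
    have hRE : 4 * (s + 3) * Rs s l ^ j ≤ E := by
      refine le_trans ?_ ((Rs_pow hs hl3).trans hl1)
      exact Nat.mul_le_mul_left _ (Nat.pow_le_pow_right hR1 (by omega))
    have hRE4 : 4 * Rs s l ^ j ≤ E := by
      refine le_trans ?_ hRE
      exact Nat.mul_le_mul_right _ (by omega)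
    have hsE : s ≤ E := by
      have h1 : 1 ≤ Rs s l ^ j := Nat.one_le_pow _ _ hR1
      have h2 : 4 * (s + 3) * 1 ≤ 4 * (s + 3) * Rs s l ^ j := Nat.mul_le_mul_left _ h1
      omega
    -- the cluster
    have hfil := Finset.sum_filter_add_sum_filter_not F (fun i => E - e i ≤ Rs s l ^ j)
      (fun i => c i * (2 : ℤ) ^ e i)
    obtain ⟨M, hMdef⟩ : ∃ M : ℤ, M = ∑ i ∈ F.filter (fun i => E - e i ≤ Rs s l ^ j),
      c i * 2 ^ (e i - (E - Rs s l ^ j)) := ⟨_, rfl⟩
    have hMsum : ∑ i ∈ F.filter (fun i => E - e i ≤ Rs s l ^ j), c i * (2 : ℤ) ^ e i =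
        M * 2 ^ (E - Rs s l ^ j) := by
      rw [hMdef, sum_mul]
      refine sum_congr rfl fun i hi => ?_
      have h1 := (mem_filter.1 hi).2
      rw [mul_assoc, ← pow_add]
      congr 2
      omega
    have hbound : ∀ (G : Finset ι) (B : ℕ) (f : ι → ℕ), G ⊆ F → (∀ i ∈ G, f i ≤ B) →
        |∑ i ∈ G, c i * (2 : ℤ) ^ f i| ≤ 2 ^ s * 2 ^ B := by
      intro G B f hGF hf
      refine (abs_sum_le_sum_abs _ _).trans ?_
      have h1 : ∀ i ∈ G, |c i * (2 : ℤ) ^ f i| ≤ 2 ^ B := by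
        intro i hi
        rw [abs_mul, abs_of_pos (by positivity : (0 : ℤ) < 2 ^ f i)]
        have h2 : (2 : ℤ) ^ f i ≤ 2 ^ B := pow_le_pow_right₀ (by norm_num) (hf i hi)
        have h3 := hc i
        nlinarith [(by positivity : (0 : ℤ) < 2 ^ f i)]
      refine (sum_le_card_nsmul _ _ _ h1).trans ?_
      rw [nsmul_eq_mul]
      apply mul_le_mul_of_nonneg_right _ (by positivity)
      exact_mod_cast (card_le_card hGF).trans hcard
    have hMb : |M| ≤ 2 ^ s * 2 ^ (Rs s l ^ j) := by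
      rw [hMdef]
      refine hbound _ _ _ (filter_subset _ _) fun i hi => ?_
      have h1 := hmax' i (mem_filter.1 hi).1
      omega
    have hrest : |∑ i ∈ F.filter (fun i => ¬ (E - e i ≤ Rs s l ^ j)), c i * (2 : ℤ) ^ e i| ≤
        2 ^ s * 2 ^ (E - Rs s l ^ (j + 1)) := by
      refine hbound _ _ _ (filter_subset _ _) fun i hi => ?_
      have h1 := (mem_filter.1 hi).2
      have h2 := hsel i
      by_contra hcon
      exact h2 ⟨by omega, by omega⟩
    have hXE : X ≤ s + E := by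
      have h1 := hbound F E e (Subset.refl _) hmax'
      rw [hsum, abs_of_pos (by positivity), ← pow_add] at h1
      have h2 : (2 : ℤ) ^ X ≤ 2 ^ (s + E) :=
        (pow_le_pow_left₀ (by norm_num) (by norm_num) X).trans h1
      exact (pow_le_pow_iff_right₀ (by norm_num)).1 h2
    rw [hsum, hMsum] at hfil
    have hM0 : M = 0 := no_big hs hl3 hl1 hl2 (by omega) hMb hrest hXE hfil
    rw [hM0, zero_mul, zero_add] at hfil
    -- induction
    have hi₁C : i₁ ∈ F.filter (fun i => E - e i ≤ Rs s l ^ j) := by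
      rw [mem_filter]
      refine ⟨hi₁, ?_⟩
      rw [hE, Nat.sub_self]
      exact Nat.zero_le _
    have hcard' : (F.filter (fun i => ¬ (E - e i ≤ Rs s l ^ j))).card < N := by
      rw [← hN]
      refine card_lt_card ⟨filter_subset _ _, fun hsub => ?_⟩
      have := hsub hi₁
      rw [mem_filter] at this hi₁C
      exact this.2 hi₁C.2
    have h3 := ih _ hcard' _ rfl ((card_le_card (filter_subset _ _)).trans hcard)
      (fun i hi => hF i (mem_filter.1 hi).1) hfil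
    have h4 := Finset.sum_filter_add_sum_filter_not (F.filter (fun i => L ≤ e i))
      (fun i => E - e i ≤ Rs s l ^ j) (fun i => c i * (2 : ℤ) ^ e i)
    rw [← h4]
    have h5 : (F.filter (fun i => L ≤ e i)).filter (fun i => E - e i ≤ Rs s l ^ j) =
        F.filter (fun i => E - e i ≤ Rs s l ^ j) := by
      ext i
      simp only [mem_filter]
      constructor
      · rintro ⟨⟨h1, -⟩, h2⟩
        exact ⟨h1, h2⟩
      · rintro ⟨h1, h2⟩
        refine ⟨⟨h1, ?_⟩, h2⟩
        have h6 := hmax' i h1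
        rcases hF i h1 with h7 | h7
        · exact h7
        · omega
    have h6 : (F.filter (fun i => L ≤ e i)).filter (fun i => ¬ (E - e i ≤ Rs s l ^ j)) =
        (F.filter (fun i => ¬ (E - e i ≤ Rs s l ^ j))).filter (fun i => L ≤ e i) := by
      ext i
      simp only [mem_filter]
      exact ⟨fun h => ⟨⟨h.1.1, h.2⟩, h.1.2⟩, fun h => ⟨⟨h.1.1, h.2⟩, h.1.2⟩⟩
    rw [h5, h6, h3, hMsum, hM0, zero_mul, zero_add]
  · push Not at hG
    rw [filter_false_of_mem (fun i hi => not_le.2 (hG i hi)), sum_empty]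

end PM80
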