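import Pool.Agent.PM80.Codes
import Pool.Agent.PM80.ThreeA

/-!
# Terms whose value is a power of three
-/

set_option autoImplicit false

namespace PM80

open OM80 (sg sg_false sg_true sg_not sg_xor)
open Pt

/-- The expansion of a term in monomials: sign and list of atomic exponents. -/
def mono : Pt → List (Bool × List Pt)
  | Z => []
  | A b u t => (b, [u]) :: mono t
  | P p q t => ((mono p).flatMap fun m => (mono q).map fun m' =>
      (xor m.1 m'.1, m.2 ++ m'.2)) ++ mono t

/-- Evaluation of a term, the powers of two replaced by the values of `φ`. -/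
noncomputable def ev (φ : Pt → ℝ) : Pt → ℝ
  | Z => 0
  | A b u t => (sg b : ℝ) * φ u + ev φ t
  | P p q t => ev φ p * ev φ q + ev φ t

theorem sum_flat (φ : Pt → ℝ) (l l' : List (Bool × List Pt)) :
    ((l.flatMap fun m => l'.map fun m' => (xor m.1 m'.1, m.2 ++ m'.2)).map
      fun m => (sg m.1 : ℝ) * (m.2.map φ).prod).sum =
    (l.map fun m => (sg m.1 : ℝ) * (m.2.map φ).prod).sum *
      (l'.map fun m => (sg m.1 : ℝ) * (m.2.map φ).prod).sum := by
  induction l with
  | nil => simp
  | cons m l ih =>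
    rw [List.flatMap_cons, List.map_append, List.sum_append, ih, List.map_cons, List.sum_cons,
      add_mul]
    congr 1
    rw [List.map_map]
    have h : ((fun m : Bool × List Pt => (sg m.1 : ℝ) * (m.2.map φ).prod) ∘
        fun m' : Bool × List Pt => (xor m.1 m'.1, m.2 ++ m'.2)) =
        fun m' => (sg m.1 : ℝ) * (m.2.map φ).prod * ((sg m'.1 : ℝ) * (m'.2.map φ).prod) := by
      funext m'
      simp only [Function.comp]
      rw [sg_xor, List.map_append, List.prod_append]
      push_cast
      ring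
    rw [h, List.sum_map_mul_left]

theorem ev_mono (φ : Pt → ℝ) (t : Pt) :
    ev φ t = ((mono t).map fun m => (sg m.1 : ℝ) * (m.2.map φ).prod).sum := by
  induction t with
  | Z => simp [ev, mono]
  | A b u t _ iht =>
    simp only [ev, mono]
    rw [List.map_cons, List.sum_cons, iht]
    simp
  | P p q t ihp ihq iht =>
    simp only [ev, mono]
    rw [List.map_append, List.sum_append, sum_flat, ← ihp, ← ihq, ← iht]

theorem rv_ev (t : Pt) : rv t = ev (fun u => (2 : ℝ) ^ rv u) t := by
  induction t with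
  | Z => rfl
  | A b u t _ iht =>
    simp only [ev, rv]
    rw [← iht]
  | P p q t ihp ihq iht =>
    simp only [ev, rv]
    rw [← ihp, ← ihq, ← iht]

open Classical in
/-- Deletion of the large powers of two. -/
noncomputable def del (T : ℕ) : Pt → Pt
  | Z => Z
  | A b u t => if (T : ℝ) ≤ rv u then del T t else A b u (del T t)
  | P p q t => P (del T p) (del T q) (del T t)

open Classical in
theorem rv_del (T : ℕ) (t : Pt) :
    rv (del T t) = ev (fun u => if (T : ℝ) ≤ rv u then 0 else (2 : ℝ) ^ rv u) t := by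
  induction t with
  | Z => rfl
  | A b u t _ iht =>
    simp only [ev, del]
    split_ifs with h
    · rw [iht]
      ring
    · rw [rv_A, iht]
  | P p q t ihp ihq iht =>
    simp only [ev, del, rv_P]
    rw [← ihp, ← ihq, ← iht]

theorem sz_del (T : ℕ) (t : Pt) : (del T t).sz ≤ t.sz := by
  classical
  induction t with
  | Z => exact le_rfl
  | A b u t _ iht =>
    simp only [del]
    split_ifs with h
    · simp only [sz]
      omega
    · simp only [sz]
      omega
  | P p q t ihp ihq iht =>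
    simp only [del, sz]
    omega

theorem smO_del {T lam : ℕ} (hT : T ≤ 2 ^ lam) {t : Pt} (ht : t.Ok) : SmO lam (del T t) := by
  classical
  induction t with
  | Z => trivial
  | A b u t _ iht =>
    simp only [del]
    split_ifs with h
    · exact iht ht.2.2
    · refine ⟨⟨ht.1, u.nv, ?_, nv_eq ht.1 ht.2.1⟩, iht ht.2.2⟩
      rw [nv_eq ht.1 ht.2.1] at h
      push Not at h
      have : u.nv < T := by exact_mod_cast h
      omega
  | P p q t ihp ihq iht => exact ⟨ihp ht.1, ihq ht.2.1, iht ht.2.2⟩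

/-- The atomic exponents at the base level. -/
def ats : Pt → List Pt
  | Z => []
  | A _ u t => u :: ats t
  | P p q t => ats p ++ (ats q ++ ats t)

theorem length_ats (t : Pt) : (ats t).length ≤ t.sz := by
  induction t with
  | Z => simp [ats]
  | A b u t _ iht =>
    simp only [ats, sz, List.length_cons]
    omega
  | P p q t ihp ihq iht =>
    simp only [ats, sz, List.length_append]
    omega

theorem ok_ats {t : Pt} (ht : t.Ok) : ∀ u ∈ ats t, u.Ok ∧ 0 ≤ rv u := by
  induction t with
  | Z => simp [ats]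
  | A b u t _ iht =>
    intro w hw
    simp only [ats, List.mem_cons] at hw
    rcases hw with rfl | hw
    · exact ⟨ht.1, ht.2.1⟩
    · exact iht ht.2.2 w hw
  | P p q t ihp ihq iht =>
    intro w hw
    simp only [ats, List.mem_append] at hw
    rcases hw with hw | hw | hw
    · exact ihp ht.1 w hw
    · exact ihq ht.2.1 w hw
    · exact iht ht.2.2 w hw

theorem length_mono (t : Pt) : (mono t).length ≤ 2 ^ t.sz := by
  induction t with
  | Z => simp [mono]
  | A b u t _ iht =>
    simp only [mono, sz, List.length_cons]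
    have h1 : 1 ≤ 2 ^ t.sz := Nat.one_le_two_pow
    calc (mono t).length + 1 ≤ 2 ^ t.sz + 2 ^ t.sz := by omega
      _ = 2 ^ (t.sz + 1) := by rw [pow_succ]; ring
      _ ≤ 2 ^ (u.sz + t.sz + 1) := Nat.pow_le_pow_right (by norm_num) (by omega)
  | P p q t ihp ihq iht =>
    simp only [mono, sz, List.length_append]
    have h1 : ((mono p).flatMap fun m => (mono q).map fun m' =>
        (xor m.1 m'.1, m.2 ++ m'.2)).length = (mono p).length * (mono q).length := by
      rw [List.length_flatMap]
      simp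
    rw [h1]
    calc (mono p).length * (mono q).length + (mono t).length
        ≤ 2 ^ p.sz * 2 ^ q.sz + 2 ^ t.sz := Nat.add_le_add (Nat.mul_le_mul ihp ihq) iht
      _ = 2 ^ (p.sz + q.sz) + 2 ^ t.sz := by rw [pow_add]
      _ ≤ 2 ^ (p.sz + q.sz + t.sz) + 2 ^ (p.sz + q.sz + t.sz) :=
          Nat.add_le_add (Nat.pow_le_pow_right (by norm_num) (by omega))
            (Nat.pow_le_pow_right (by norm_num) (by omega))
      _ = 2 ^ (p.sz + q.sz + t.sz + 1) := by rw [pow_succ]; ring

theorem mem_mono {t : Pt} : ∀ m ∈ mono t, m.2.length ≤ t.sz ∧ ∀ u ∈ m.2, u ∈ ats t := by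
  induction t with
  | Z => simp [mono]
  | A b u t _ iht =>
    intro m hm
    simp only [mono, List.mem_cons] at hm
    rcases hm with rfl | hm
    · simp only [sz, ats, List.length_cons, List.length_nil]
      refine ⟨by omega, fun w hw => ?_⟩
      rw [List.mem_singleton] at hw
      rw [hw]
      exact List.mem_cons_self
    · obtain ⟨h1, h2⟩ := iht m hm
      simp only [sz, ats]
      exact ⟨by omega, fun w hw => List.mem_cons_of_mem _ (h2 w hw)⟩
  | P p q t ihp ihq iht =>
    intro m hm
    simp only [mono, List.mem_append, List.mem_flatMap, List.mem_map] at hm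
    simp only [sz, ats, List.mem_append]
    rcases hm with ⟨m1, hm1, m2, hm2, rfl⟩ | hm
    · obtain ⟨h1, h2⟩ := ihp m1 hm1
      obtain ⟨h3, h4⟩ := ihq m2 hm2
      simp only [List.length_append, List.mem_append]
      refine ⟨by omega, ?_⟩
      rintro w (hw | hw)
      · exact Or.inl (h2 w hw)
      · exact Or.inr (Or.inl (h4 w hw))
    · obtain ⟨h1, h2⟩ := iht m hm
      exact ⟨by omega, fun w hw => Or.inr (Or.inr (h2 w hw))⟩

theorem prod_pow (l : List Pt) (h : ∀ u ∈ l, u.Ok ∧ 0 ≤ rv u) :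
    (l.map fun u => (2 : ℝ) ^ rv u).prod = 2 ^ (l.map nv).sum := by
  induction l with
  | nil => simp
  | cons u l ih =>
    rw [List.map_cons, List.prod_cons, List.map_cons, List.sum_cons, pow_add,
      ih fun w hw => h w (List.mem_cons_of_mem _ hw)]
    obtain ⟨h1, h2⟩ := h u List.mem_cons_self
    congr 1
    rw [nv_eq h1 h2, Real.rpow_natCast]

/-- A free interval. -/
theorem thresh (V : Finset ℕ) {s : ℕ} (hV : V.card ≤ s) (T0 : ℕ) {r : ℕ}
    (hr : 1 ≤ r) : ∃ j ≤ s, ∀ v ∈ V, v < r ^ j * T0 ∨ r ^ (j + 1) * T0 ≤ v := by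
  by_contra hcon
  push Not at hcon
  have h1 : ∀ j : ℕ, ∃ v, j ≤ s → v ∈ V ∧ r ^ j * T0 ≤ v ∧ v < r ^ (j + 1) * T0 := by
    intro j
    by_cases hj : j ≤ s
    · obtain ⟨v, hv⟩ := hcon j hj
      exact ⟨v, fun _ => hv⟩
    · exact ⟨0, fun h => absurd h hj⟩
  choose f hf using h1
  have hlt : ∀ i j : ℕ, j ≤ s → i < j → f i < f j := by
    intro i j hj hij
    obtain ⟨-, -, h2⟩ := hf i (by omega)
    obtain ⟨-, h3, -⟩ := hf j hj
    have h4 : r ^ (i + 1) * T0 ≤ r ^ j * T0 :=
      Nat.mul_le_mul_right _ (Nat.pow_le_pow_right hr hij)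
    omega
  have h2 : (Finset.range (s + 1)).card ≤ V.card := by
    apply Finset.card_le_card_of_injOn f
    · intro i hi
      have := Finset.mem_range.1 (Finset.mem_coe.1 hi)
      exact (hf i (by omega)).1
    · intro i hi j hj hij
      have h3 := Finset.mem_range.1 (Finset.mem_coe.1 hi)
      have h4 := Finset.mem_range.1 (Finset.mem_coe.1 hj)
      rcases lt_trichotomy i j with h | h | h
      · have := hlt i j (by omega) h
        omega
      · exact h
      · have := hlt j i (by omega) h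
        omega
  rw [Finset.card_range] at h2
  omega

theorem red3 {t : Pt} (ht : t.Ok) {s X : ℕ} (hs1 : 1 ≤ s) (hs : t.sz ≤ s)
    (h : rv t = (3 : ℝ) ^ X) :
    X < 2 ^ (3000 * s ^ 3) ∧ ∃ t' : Pt, t'.sz ≤ t.sz ∧ rv t' = rv t ∧ SmO (3000 * s ^ 3) t' := by
  classical
  obtain ⟨V, hV⟩ : ∃ V : Finset ℕ, V = ((ats t).map nv).toFinset := ⟨_, rfl⟩
  have hVc : V.card ≤ s := by
    rw [hV]
    refine (List.toFinset_card_le _).trans ?_
    rw [List.length_map]
    exact (length_ats t).trans hs
  obtain ⟨T0, hT0⟩ : ∃ T0, T0 = 2 ^ (2000 * s ^ 3) := ⟨_, rfl⟩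
  have hT01 : 1 ≤ T0 := by
    rw [hT0]
    exact Nat.one_le_two_pow
  obtain ⟨j, hj, hgap⟩ := thresh V hVc T0 (r := 4 * s) (by omega)
  obtain ⟨T, hT⟩ : ∃ T, T = (4 * s) ^ j * T0 := ⟨_, rfl⟩
  obtain ⟨L, hL⟩ : ∃ L, L = (4 * s) ^ (j + 1) * T0 := ⟨_, rfl⟩
  rw [← hT, ← hL] at hgap
  have hLT : L = 4 * (s * T) := by
    rw [hL, hT]
    ring
  have h4s : 1 ≤ (4 * s) ^ j := Nat.one_le_pow _ _ (by omega)
  have hT1 : T0 ≤ T := by
    rw [hT]
    exact Nat.le_mul_of_pos_left _ h4s
  have hTL : T ≤ L := by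
    rw [hLT]
    nlinarith
  have hs3 : s ≤ s ^ 3 := Nat.le_self_pow (by norm_num) s
  have hs23 : s ^ 2 ≤ s ^ 3 := Nat.pow_le_pow_right hs1 (by norm_num)
  have hT2 : T ≤ 2 ^ (2003 * s ^ 3) := by
    have h1 : 4 * s ≤ 2 ^ (s + 2) := by
      have : s < 2 ^ s := Nat.lt_two_pow_self
      rw [pow_add]
      omega
    rw [hT, hT0]
    calc (4 * s) ^ j * 2 ^ (2000 * s ^ 3) ≤ (2 ^ (s + 2)) ^ j * 2 ^ (2000 * s ^ 3) := by gcongr
      _ ≤ (2 ^ (s + 2)) ^ s * 2 ^ (2000 * s ^ 3) := by
          apply Nat.mul_le_mul_right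
          exact Nat.pow_le_pow_right (by positivity) hj
      _ = 2 ^ ((s + 2) * s + 2000 * s ^ 3) := by rw [← pow_mul, ← pow_add]
      _ ≤ 2 ^ (2003 * s ^ 3) := by
          apply Nat.pow_le_pow_right (by norm_num)
          nlinarith
  -- the items
  obtain ⟨e, he⟩ : ∃ e : Fin (mono t).length → ℕ, e = fun i => ((mono t)[i].2.map nv).sum :=
    ⟨_, rfl⟩
  obtain ⟨c, hc⟩ : ∃ c : Fin (mono t).length → ℤ, c = fun i => sg (mono t)[i].1 := ⟨_, rfl⟩
  have hmem : ∀ i : Fin (mono t).length, (mono t)[i] ∈ mono t := fun i => List.getElem_mem _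
  have hVmem : ∀ u ∈ ats t, nv u ∈ V := by
    intro u hu
    rw [hV, List.mem_toFinset]
    exact List.mem_map_of_mem hu
  have hea : ∀ i, e i = ∑ a : V, ((mono t)[i].2.map nv).count (a : ℕ) * (a : ℕ) := by
    intro i
    rw [he]
    show ((mono t)[i].2.map nv).sum = _
    rw [Finset.sum_list_count, Finset.sum_coe_sort V
      (fun a => ((mono t)[i].2.map nv).count a * a)]
    simp only [smul_eq_mul]
    apply Finset.sum_subset
    · intro a ha
      rw [List.mem_toFinset, List.mem_map] at ha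
      obtain ⟨u, hu, rfl⟩ := ha
      exact hVmem u ((mem_mono _ (hmem i)).2 u hu)
    · intro a _ ha
      rw [List.mem_toFinset] at ha
      rw [List.count_eq_zero_of_not_mem ha, zero_mul]
  have hlen : ∀ i : Fin (mono t).length, (mono t)[i].2.length ≤ s :=
    fun i => (mem_mono _ (hmem i)).1.trans hs
  have hn : ∀ (i : Fin (mono t).length) (a : V), ((mono t)[i].2.map nv).count (a : ℕ) ≤ s := by
    intro i a
    refine List.count_le_length.trans ?_
    rw [List.length_map]
    exact hlen i
  have hcb : ∀ i, |c i| ≤ 1 := by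
    intro i
    rw [hc]
    show |sg (mono t)[i].1| ≤ 1
    cases (mono t)[i].1 <;> simp
  have hok : ∀ i : Fin (mono t).length, ∀ u ∈ (mono t)[i].2, u.Ok ∧ 0 ≤ rv u :=
    fun i u hu => ok_ats ht u ((mem_mono _ (hmem i)).2 u hu)
  -- small items and large items
  have hsmall : ∀ i : Fin (mono t).length, (∀ u ∈ (mono t)[i].2, nv u < T) → e i < s * T := by
    intro i hi
    rw [he]
    show ((mono t)[i].2.map nv).sum < s * T
    have h1 : ((mono t)[i].2.map nv).sum ≤ ((mono t)[i].2.map nv).length • (T - 1) := by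
      apply List.sum_le_card_nsmul
      intro x hx
      rw [List.mem_map] at hx
      obtain ⟨u, hu, rfl⟩ := hx
      have := hi u hu
      omega
    rw [List.length_map, smul_eq_mul] at h1
    have h2 : (mono t)[i].2.length * (T - 1) ≤ s * (T - 1) := Nat.mul_le_mul_right _ (hlen i)
    have h3 : s * (T - 1) < s * T := Nat.mul_lt_mul_of_pos_left (by omega) (by omega)
    omega
  have hlarge : ∀ i : Fin (mono t).length, (∃ u ∈ (mono t)[i].2, ¬ nv u < T) → L ≤ e i := by
    rintro i ⟨u, hu, hu'⟩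
    have h1 : L ≤ nv u := by
      rcases hgap _ (hVmem u ((mem_mono _ (hmem i)).2 u hu)) with h2 | h2
      · exact absurd h2 hu'
      · exact h2
    refine h1.trans ?_
    rw [he]
    exact List.le_sum_of_mem (List.mem_map_of_mem hu)
  have hdich : ∀ i, L ≤ e i ∨ 4 * e i < L := by
    intro i
    by_cases hi : ∃ u ∈ (mono t)[i].2, ¬ nv u < T
    · exact Or.inl (hlarge i hi)
    · push Not at hi
      right
      have := hsmall i hi
      rw [hLT]
      omega
  -- values
  have hval : rv t = ((∑ i, c i * 2 ^ e i : ℤ) : ℝ) := by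
    rw [rv_ev, ev_mono, ← Fin.sum_univ_fun_getElem]
    push_cast
    refine Finset.sum_congr rfl fun i _ => ?_
    have h1 := prod_pow (mono t)[i].2 (hok i)
    rw [he, hc]
    show (sg (mono t)[i].1 : ℝ) * _ = (sg (mono t)[i].1 : ℝ) * 2 ^ ((mono t)[i].2.map nv).sum
    rw [← h1]
    rfl
  have hdel : rv (del T t) =
      ((∑ i ∈ Finset.univ.filter (fun i => ¬ L ≤ e i), c i * 2 ^ e i : ℤ) : ℝ) := by
    rw [rv_del, ev_mono, ← Fin.sum_univ_fun_getElem]
    rw [Finset.sum_filter]
    push_cast
    refine Finset.sum_congr rfl fun i _ => ?_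
    by_cases hi : ∃ u ∈ (mono t)[i].2, ¬ nv u < T
    · rw [if_neg (not_not.2 (hlarge i hi))]
      obtain ⟨u, hu, hu'⟩ := hi
      have h1 : ((mono t)[(i : ℕ)].2.map fun u => if (T : ℝ) ≤ rv u then (0 : ℝ) else
          (2 : ℝ) ^ rv u).prod = 0 := by
        apply List.prod_eq_zero
        rw [List.mem_map]
        refine ⟨u, hu, ?_⟩
        rw [if_pos]
        obtain ⟨h2, h3⟩ := hok i u hu
        rw [nv_eq h2 h3]
        exact_mod_cast not_lt.1 hu'
      rw [h1, mul_zero]
    · push Not at hi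
      have h5 : ¬ L ≤ e i := by
        have := hsmall i hi
        rw [hLT]
        omega
      rw [if_pos h5]
      have h1 := prod_pow (mono t)[i].2 (hok i)
      rw [he, hc]
      show (sg (mono t)[i].1 : ℝ) * _ = (sg (mono t)[i].1 : ℝ) * 2 ^ ((mono t)[i].2.map nv).sum
      rw [← h1]
      congr 2
      apply List.map_congr_left
      intro u hu
      rw [if_neg]
      obtain ⟨h2, h3⟩ := hok i u hu
      rw [nv_eq h2 h3]
      push Not
      exact_mod_cast hi u hu
  have hsum : ∑ i, c i * 2 ^ e i = 3 ^ X := by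
    rw [hval] at h
    exact_mod_cast h
  have hcard : (Finset.univ : Finset (Fin (mono t).length)).card ≤ 2 ^ s := by
    rw [Finset.card_univ, Fintype.card_fin]
    exact (length_mono t).trans (Nat.pow_le_pow_right (by norm_num) hs)
  have hzero := cluster (α := V) hs1 (by rw [Fintype.card_coe]; exact hVc) (fun a => (a : ℕ))
    (fun i a => ((mono t)[i].2.map nv).count (a : ℕ)) hn e hea c hcb (L := L) (X := X)
    (by rw [← hT0]; omega) _ Finset.univ rfl hcard (fun i _ => hdich i) hsum
  have hsplit := Finset.sum_filter_add_sum_filter_not Finset.univ (fun i => L ≤ e i)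
    (fun i => c i * (2 : ℤ) ^ e i)
  rw [hzero, zero_add, hsum] at hsplit
  have hX : X ≤ s + s * T := by
    have h1 : |∑ i ∈ Finset.univ.filter (fun i => ¬ L ≤ e i), c i * (2 : ℤ) ^ e i| ≤
        2 ^ s * 2 ^ (s * T) := by
      refine (Finset.abs_sum_le_sum_abs _ _).trans ?_
      have h2 : ∀ i ∈ Finset.univ.filter (fun i => ¬ L ≤ e i), |c i * (2 : ℤ) ^ e i| ≤
          2 ^ (s * T) := by
        intro i hi
        have h3 := (Finset.mem_filter.1 hi).2
        have h4 : e i ≤ s * T := by
          rcases hdich i with h5 | h5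
          · exact absurd h5 h3
          · rw [hLT] at h5
            omega
        rw [abs_mul, abs_of_pos (by positivity : (0 : ℤ) < 2 ^ e i)]
        have h5 : (2 : ℤ) ^ e i ≤ 2 ^ (s * T) := pow_le_pow_right₀ (by norm_num) h4
        have h6 := hcb i
        nlinarith [(by positivity : (0 : ℤ) < 2 ^ e i)]
      refine (Finset.sum_le_card_nsmul _ _ _ h2).trans ?_
      rw [nsmul_eq_mul]
      apply mul_le_mul_of_nonneg_right _ (by positivity)
      exact_mod_cast (Finset.card_le_card (Finset.filter_subset _ _)).trans hcard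
    rw [hsplit, abs_of_pos (by positivity), ← pow_add] at h1
    have h2 : (2 : ℤ) ^ X ≤ 2 ^ (s + s * T) :=
      (pow_le_pow_left₀ (by norm_num) (by norm_num) X).trans h1
    exact (pow_le_pow_iff_right₀ (by norm_num)).1 h2
  refine ⟨?_, del T t, sz_del T t, ?_, smO_del (hT2.trans ?_) ht⟩
  · have h1 : s + s * T ≤ 2 ^ (s + 1) * 2 ^ (2003 * s ^ 3) := by
      have h2 : s ≤ 2 ^ s := (Nat.lt_two_pow_self).le
      have h3 : s + s * T ≤ 2 * (s * T) := by nlinarith
      refine h3.trans ?_
      have h4 : s * T ≤ 2 ^ s * 2 ^ (2003 * s ^ 3) := Nat.mul_le_mul h2 hT2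
      rw [pow_succ 2 s]
      nlinarith
    rw [← pow_add] at h1
    have h5 : 2 ^ (s + 1 + 2003 * s ^ 3) < 2 ^ (3000 * s ^ 3) := by
      apply Nat.pow_lt_pow_right (by norm_num)
      have : 1 ≤ s ^ 3 := Nat.one_le_pow _ _ hs1
      omega
    omega
  · rw [hdel, hsplit, h]
    push_cast
    ring
  · apply Nat.pow_le_pow_right (by norm_num)
    omega

end PM80
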