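import Pool.Agent.PM80.Fixed
import Pool.Agent.PM80.Three
import Pool.Agent.AM21.Functions

/-!
# The model
-/

set_option autoImplicit false

namespace PM80

open OM80 (sg sg_false sg_true sg_not sg_xor)
open Pt Pool.Agent.PTL PT21
open AM21 (cif cif_pos cif_neg isP_cif range_flatMap eq_of_mod)

/-- Size of the terms which can be compared. -/
def bd (s : ℕ) : ℕ := 2 * 10 ^ 7 * s ^ 6

/-- Number of digits of the exact values. -/
def lam (s : ℕ) : ℕ := 3000 * s ^ 3

section formulas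

variable (N : ℕ) (w : List Bool)

/-- The input has `2 n` ones from position `p` on. -/
def Un (p n : ℕ) : Prop := (∀ i < 2 * n, lk N w 8 (p + i) 0 0) ∧ ¬ lk N w 8 (p + 2 * n) 0 0

/-- `n` is the length of the name attached to the code `c` of size `s`. -/
def Nm (n c s : ℕ) : Prop :=
  ∃ m < N, ∃ q < N, m = s ^ 6 ∧ lk N w 0 8 m q ∧ lk N w 3 c s 0 ∧ n = q + c

/-- `c` is the least valid code with the value of `d`. -/
def Mn (c d : ℕ) : Prop :=
  lk N w 9 c 0 0 ∧ lk N w 7 c d 0 ∧ lk N w 7 d c 0 ∧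
    ∀ c' < c, lk N w 9 c' 0 0 → ¬ (lk N w 7 c' d 0 ∧ lk N w 7 d c' 0)

/-- Output condition. -/
def Oc (Tg : ℕ → Prop) (i : ℕ) : Prop :=
  ∃ d < N, Tg d ∧ ∃ c < N, ∃ s < N, ∃ n < N + N, Nm N w n c s ∧ Mn N w c d ∧ i < n

/-- Output. -/
noncomputable def out (Tg : ℕ → Prop) : List Bool :=
  (List.range N).flatMap fun i => cif (Oc N w Tg i) [true] []

/-- The value of `y` is `3` to the power of the value of `x`. -/
def Q3 (x y : ℕ) : Prop :=
  ∃ a < N, ∃ c < N, lk N w 4 x a 0 ∧ a * a * (a * a) < N ∧ lk N w 7 c y 0 ∧ lk N w 7 y c 0 ∧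
    ∀ m < N, 0 < m → ∃ r < N, lk N w 5 c m r ∧ lk N w 2 m a r

end formulas

section tests

variable {k : ℕ} {N p n c s d i x y : (ℕ → ℕ) → ℕ}

theorem isT_Un (hN : IsE k N) (hp : IsE k p) (hn : IsE k n) :
    IsT k (fun w env => Un (N env) w (p env) (n env)) := by
  unfold Un
  repeat' first
    | exact IsE.const _
    | (refine IsE.mono ?_ (by assumption); omega)
    | apply isT_lk
    | (refine IsT.ex ?_ (fun _ _ _ _ => ?_))
    | (refine IsT.all ?_ (fun _ _ _ _ => ?_))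
    | apply IsT.and
    | apply IsT.not
    | apply IsT.imp
    | apply IsT.eq
    | apply IsT.lt
    | apply IsE.add
    | apply IsE.mul
    | apply IsE.pow

theorem isT_Nm (hN : IsE k N) (hn : IsE k n) (hc : IsE k c) (hs : IsE k s) :
    IsT k (fun w env => Nm (N env) w (n env) (c env) (s env)) := by
  unfold Nm
  repeat' first
    | exact IsE.const _
    | (refine IsE.mono ?_ (by assumption); omega)
    | apply isT_lk
    | (refine IsT.ex ?_ (fun _ _ _ _ => ?_))
    | (refine IsT.all ?_ (fun _ _ _ _ => ?_))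
    | apply IsT.and
    | apply IsT.not
    | apply IsT.imp
    | apply IsT.eq
    | apply IsT.lt
    | apply IsE.add
    | apply IsE.mul
    | apply IsE.pow

theorem isT_Mn (hN : IsE k N) (hc : IsE k c) (hd : IsE k d) :
    IsT k (fun w env => Mn (N env) w (c env) (d env)) := by
  unfold Mn
  repeat' first
    | exact IsE.const _
    | (refine IsE.mono ?_ (by assumption); omega)
    | apply isT_lk
    | (refine IsT.ex ?_ (fun _ _ _ _ => ?_))
    | (refine IsT.all ?_ (fun _ _ _ _ => ?_))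
    | apply IsT.and
    | apply IsT.not
    | apply IsT.imp
    | apply IsT.eq
    | apply IsT.lt
    | apply IsE.add
    | apply IsE.mul
    | apply IsE.pow

theorem isT_Q3 (hN : IsE k N) (hx : IsE k x) (hy : IsE k y) :
    IsT k (fun w env => Q3 (N env) w (x env) (y env)) := by
  unfold Q3
  repeat' first
    | exact IsE.const _
    | (refine IsE.mono ?_ (by assumption); omega)
    | apply isT_lk
    | (refine IsT.ex ?_ (fun _ _ _ _ => ?_))
    | (refine IsT.all ?_ (fun _ _ _ _ => ?_))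
    | apply IsT.and
    | apply IsT.not
    | apply IsT.imp
    | apply IsT.eq
    | apply IsT.lt
    | apply IsE.add
    | apply IsE.mul
    | apply IsE.pow

theorem isT_Oc (hN : IsE k N) {Tg : ℕ → List Bool → ℕ → Prop}
    (hTg : ∀ k (N d : (ℕ → ℕ) → ℕ), IsE k N → IsE k d → IsT k (fun w env => Tg (N env) w (d env)))
    (hi : IsE k i) : IsT k (fun w env => Oc (N env) w (Tg (N env) w) (i env)) := by
  refine IsT.ex hN fun k₁ h₁ d hd => ?_
  refine (hTg k₁ N d (hN.mono h₁) hd).and ?_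
  refine IsT.ex (hN.mono h₁) fun k₂ h₂ c hc => ?_
  refine IsT.ex (hN.mono (h₁.trans h₂)) fun k₃ h₃ s hs => ?_
  have hN₃ := hN.mono ((h₁.trans h₂).trans h₃)
  refine IsT.ex (hN₃.add hN₃) fun k₄ h₄ n hn => ?_
  exact (isT_Nm (hN₃.mono h₄) hn (hc.mono (h₃.trans h₄)) (hs.mono h₄)).and
    ((isT_Mn (hN₃.mono h₄) (hc.mono (h₃.trans h₄)) (hd.mono ((h₂.trans h₃).trans h₄))).and
      (IsT.lt (hi.mono (((h₁.trans h₂).trans h₃).trans h₄)) hn))

theorem isP_out (hN : IsE k N) {Tg : ℕ → List Bool → ℕ → Prop}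
    (hTg : ∀ k (N d : (ℕ → ℕ) → ℕ), IsE k N → IsE k d →
      IsT k (fun w env => Tg (N env) w (d env))) :
    IsP k (fun w env => out (N env) w (Tg (N env) w)) := by
  refine IsP.loop (G := fun w env i => cif (Oc (N env) w (Tg (N env) w) i) [true] []) hN
    fun k' hk i hi => ?_
  exact isP_cif (isT_Oc (hN.mono hk) hTg hi) (IsP.emit true) IsP.nil

end tests

/-- Programs may use the tables. -/
theorem frame {K : ℕ} (hK : 4 ≤ K) {F : List Bool → ℕ → List Bool}
    (hF : ∀ k N, IsE k N → IsP k (fun w env => F w (N env))) :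
    ∃ f, PTC f ∧ ∀ z : List Bool, ∃ w, Snd ((z.length + 3) ^ K) w z ∧
      mkt ((z.length + 3) ^ K) (step ((z.length + 3) ^ K) w) = w ∧
      f z = F w ((z.length + 3) ^ K) := by
  classical
  have h₀ : PTC (fun z => mkt ((z.length + 3) ^ K) (init z)) := by
    refine PTC.of (F := fun z L => mkt ((L + 3) ^ K) (init z)) fun k L hL => ?_
    refine (IsP.tbl [fun _ => 20, fun env => (L env + 3) ^ K, fun env => (L env + 3) ^ K,
      fun env => (L env + 3) ^ K] k
      (by simp [IsE.const, (hL.add (IsE.const 3)).pow K])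
      (φ := fun w _ l => app4 (init w) l) fun k' hk ys hys hy => ?_)
    match ys, hys with
    | [y1, y2, y3, y4], _ =>
      exact isT_init (hy _ (by simp)) (hy _ (by simp)) (hy _ (by simp)) (hy _ (by simp))
  obtain ⟨H, h₁, h₁'⟩ := exists_fix (ψ := step)
    (fun k N r x y z hN hr hx hy hz => isT_step hN hr hx hy hz) (fun _ _ _ _ _ _ h => Or.inl h)
  obtain ⟨f₂, h₂, h₂', -⟩ := PTC.ofLen isE_len len_mono hF
  refine ⟨_, h₂.comp (h₁.comp h₀), fun z => ?_⟩
  have hN : 64 ≤ (z.length + 3) ^ K := by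
    calc 64 ≤ 3 ^ 4 := by norm_num
      _ ≤ (z.length + 3) ^ 4 := Nat.pow_le_pow_left (by omega) 4
      _ ≤ (z.length + 3) ^ K := Nat.pow_le_pow_right (by omega) hK
  obtain ⟨n, x, hx0, hx1, hx2, hx3⟩ := h₁' ((z.length + 3) ^ K) (init z)
  have hsound : ∀ i, Snd ((z.length + 3) ^ K) (x i) z := by
    intro i
    induction i with
    | zero =>
      rw [hx0]
      exact snd_init hN z
    | succ i ih =>
      rw [hx1]
      exact ih.step hN
  have hlen : (x n).length = len ((z.length + 3) ^ K) := by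
    cases n with
    | zero => rw [hx0, mkt_length]
    | succ i => rw [hx1, mkt_length]
  refine ⟨x n, hsound n, by rw [← hx1, hx3], ?_⟩
  rw [hx2, h₂' (x n) _ hlen]

/-- The string `w` contains correct tables, for the input `v`. -/
structure Good (s N : ℕ) (w v : List Bool) : Prop where
  hN : 64 ≤ N
  hs : 1 ≤ s
  hbig : 8 ^ (20 * bd s + 200) ≤ N
  h0 : ∀ a < N, ∀ q < N, (lk N w 0 8 a q ↔ q = 8 ^ a)
  h3 : ∀ c < N, ∀ s < N, (lk N w 3 c s 0 ↔ ∃ t : Pt, t.code = c ∧ t.sz = s)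
  h7 : ∀ t t' : Pt, t.Ok → t'.Ok → t.sz ≤ bd s → t'.sz ≤ bd s →
    (lk N w 7 t.code t'.code 0 ↔ rv t' ≤ rv t)
  h9 : ∀ t : Pt, t.sz ≤ bd s → (lk N w 9 t.code 0 0 ↔ t.Ok)
  h6 : ∀ t t' : Pt, t.sz + t'.sz ≤ bd s → ∀ z < N,
    (lk N w 6 t.code t'.code z ↔ z = (cat t t').code)
  h10 : ∀ t : Pt, t.sz ≤ bd s → ∀ z < N, (lk N w 10 t.code z 0 ↔ z = (neg t).code)
  hq : ∀ t t' : Pt, t.Ok → t'.Ok → t.sz ≤ s → t'.sz ≤ s → ∀ x y : ℕ, rv t = x → rv t' = y →
    (Q3 N w t.code t'.code ↔ y = 3 ^ x)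
  h8 : ∀ x < N, (lk N w 8 x 0 0 ↔ v.getD x false = true)

theorem s_le_bd {s : ℕ} : s ≤ bd s := by
  unfold bd
  rcases Nat.eq_zero_or_pos s with rfl | h
  · simp
  · have h1 : s ≤ s ^ 6 := Nat.le_self_pow (by norm_num) s
    calc s ≤ s ^ 6 := h1
      _ ≤ 2 * 10 ^ 7 * s ^ 6 := Nat.le_mul_of_pos_left _ (by norm_num)

theorem bd_big {s : ℕ} (hs : 1 ≤ s) : 10 ^ 7 * s ≤ bd s ∧ 10 ^ 7 * s ^ 6 ≤ bd s ∧
    1 ≤ bd s ∧ lam s * (2 * lam s + 2) + 3 ≤ bd s ∧ 4 * lam s ≤ bd s := by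
  obtain ⟨q, hq⟩ : ∃ q, q = s ^ 3 := ⟨_, rfl⟩
  have h1 : s ≤ q := by rw [hq]; exact Nat.le_self_pow (by norm_num) s
  have h2 : q ≤ q * q := Nat.le_mul_self q
  have h3 : s ^ 6 = q * q := by rw [hq]; ring
  unfold bd lam
  rw [h3, ← hq]
  have h5 : 3000 * q * (2 * (3000 * q) + 2) = 18000000 * (q * q) + 6000 * q := by ring
  rw [h5]
  refine ⟨?_, ?_, ?_, ?_, ?_⟩ <;> norm_num <;> omega

theorem key_lt {N v : ℕ} (hN : 64 ≤ N) (h : v ≤ N * 4 ^ (N / 8)) :
    2 * ((N - 1) / 2) * v < 4 ^ ((N - 1) / 2) := by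
  obtain ⟨n, hn⟩ : ∃ n, n = (N - 1) / 2 := ⟨_, rfl⟩
  rw [← hn]
  obtain ⟨m, hm⟩ : ∃ m, m = N / 4 := ⟨_, rfl⟩
  have h3 : N < 2 ^ m := by
    obtain ⟨j, hj⟩ : ∃ j, m = j + 5 := ⟨m - 5, by omega⟩
    have h4 : j < 2 ^ j := Nat.lt_two_pow_self
    rw [hj, pow_add]
    omega
  have h5 : N / 8 + m ≤ n := by omega
  have h6 : (2 * n) * N < 2 ^ m * 2 ^ m := Nat.mul_lt_mul'' (by omega) h3
  have h7 : 2 ^ m * 2 ^ m = 4 ^ m := by
    rw [← mul_pow]
    norm_num
  calc 2 * n * v ≤ 2 * n * (N * 4 ^ (N / 8)) := Nat.mul_le_mul_left _ h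
    _ = ((2 * n) * N) * 4 ^ (N / 8) := by ring
    _ < 4 ^ m * 4 ^ (N / 8) := by
        rw [← h7]
        exact Nat.mul_lt_mul_of_pos_right h6 (by positivity)
    _ = 4 ^ (N / 8 + m) := by
        rw [pow_add]
        ring
    _ ≤ 4 ^ n := Nat.pow_le_pow_right (by norm_num) h5

/-- Values of terms with small exponents. -/
theorem sm_bound {N A : ℕ} (hA : ∀ a : ℕ, a * a * (a * a) < N → a ≤ A) {t : Pt} (h : Sm N t) :
    |rv t| ≤ ((2 : ℝ) ^ (A + 1)) ^ t.sz := by
  obtain ⟨B, hB⟩ : ∃ B : ℝ, B = 2 ^ (A + 1) := ⟨_, rfl⟩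
  rw [← hB]
  have hA1 : (1 : ℝ) ≤ 2 ^ A := one_le_pow₀ (by norm_num)
  have hBA : B = 2 * 2 ^ A := by rw [hB, pow_succ]; ring
  have hB2 : 2 ≤ B := by rw [hBA]; linarith
  have hB1 : 1 ≤ B := by linarith
  have hp : ∀ n : ℕ, 1 ≤ B ^ n := fun n => one_le_pow₀ hB1
  have hs : ∀ t : Pt, B ≤ B ^ t.sz := by
    intro t
    calc B = B ^ 1 := (pow_one B).symm
      _ ≤ B ^ t.sz := pow_le_pow_right₀ hB1 (one_le_sz t)
  induction t with
  | Z =>
    rw [rv, abs_zero]
    linarith [hp (Z : Pt).sz]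
  | A b u t _ ih =>
    obtain ⟨⟨a, ha, haN⟩, h2⟩ := h
    have h3 := ih h2
    rw [rv_A, ha, Real.rpow_natCast]
    have h4 : (2 : ℝ) ^ a ≤ 2 ^ A := pow_le_pow_right₀ (by norm_num) (hA a haN)
    have h5 : |(sg b : ℝ) * 2 ^ a| = 2 ^ a := by
      have h6 : (0 : ℝ) < 2 ^ a := by positivity
      cases b
      · rw [sg_false]
        push_cast
        rw [one_mul, abs_of_pos h6]
      · rw [sg_true]
        push_cast
        rw [neg_one_mul, abs_neg, abs_of_pos h6]
    have h7 : B ^ t.sz * B ≤ B ^ (Pt.A b u t).sz := by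
      rw [← pow_succ]
      apply pow_le_pow_right₀ hB1
      simp only [sz]
      omega
    have h8 := hs t
    have h9 : 2 * B ^ t.sz ≤ B ^ t.sz * B := by
      have : 0 ≤ B ^ t.sz := by linarith [hp t.sz]
      nlinarith
    have h10 : (2 : ℝ) ^ A ≤ B := by rw [hBA]; linarith
    calc |(sg b : ℝ) * 2 ^ a + rv t| ≤ |(sg b : ℝ) * 2 ^ a| + |rv t| := abs_add_le _ _
      _ ≤ 2 ^ A + B ^ t.sz := by rw [h5]; linarith
      _ ≤ B ^ (Pt.A b u t).sz := by linarith
  | P p q t ihp ihq ih =>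
    have h1 := ihp h.1
    have h2 := ihq h.2.1
    have h3 := ih h.2.2
    rw [rv_P]
    have h4 : |rv p| * |rv q| ≤ B ^ p.sz * B ^ q.sz :=
      mul_le_mul h1 h2 (abs_nonneg _) (by linarith [hp p.sz])
    have h5 : 1 ≤ B ^ p.sz * B ^ q.sz := by
      rw [← pow_add]
      exact hp _
    have h6 := hp t.sz
    have h7 : B ^ p.sz * B ^ q.sz * B ^ t.sz * B = B ^ (P p q t).sz := by
      rw [← pow_add, ← pow_add, ← pow_succ]
      rfl
    obtain ⟨x, hx⟩ : ∃ x, x = B ^ p.sz * B ^ q.sz := ⟨_, rfl⟩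
    obtain ⟨y, hy⟩ : ∃ y, y = B ^ t.sz := ⟨_, rfl⟩
    rw [← hx] at h4 h5
    rw [← hx, ← hy] at h7
    rw [← hy] at h3 h6
    have h8 : x + y ≤ x * y * 2 := by nlinarith
    have h9 : x * y * 2 ≤ x * y * B := by
      have : 0 ≤ x * y := by positivity
      nlinarith
    calc |rv p * rv q + rv t| ≤ |rv p * rv q| + |rv t| := abs_add_le _ _
      _ ≤ x + y := by rw [abs_mul]; linarith
      _ ≤ B ^ (P p q t).sz := by rw [← h7]; linarith

/-- Small exponents and small sizes. -/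
theorem exp_small {N A L : ℕ} (hN : 8 ^ 200 ≤ N) (hA : A * A * (A * A) < N)
    (hL : 8 ^ L ≤ 8 * N) : (A + 1) * L ≤ N / 8 := by
  obtain ⟨n, hn⟩ : ∃ n, n = Nat.log 8 N := ⟨_, rfl⟩
  have hN0 : N ≠ 0 := by
    rintro rfl
    have : 0 < 8 ^ 200 := by positivity
    omega
  have h1 : 8 ^ n ≤ N := by
    rw [hn]
    exact Nat.pow_log_le_self 8 hN0
  have h2 : N < 8 ^ (n + 1) := by
    rw [hn]
    exact Nat.lt_pow_succ_log_self (by norm_num) N
  have h3 : 200 ≤ n := by
    by_contra hc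
    have h4 : 8 ^ (n + 1) ≤ 8 ^ 200 := Nat.pow_le_pow_right (by norm_num) (by omega)
    omega
  obtain ⟨j, hj⟩ : ∃ j, j = n / 4 := ⟨_, rfl⟩
  have hL' : L < n + 2 := by
    by_contra hc
    have h4 : 8 ^ (n + 2) ≤ 8 ^ L := Nat.pow_le_pow_right (by norm_num) (by omega)
    have h5 : 8 ^ (n + 2) = 8 * 8 ^ (n + 1) := by
      rw [pow_succ 8 (n + 1), mul_comm]
    omega
  have hA' : A < 8 ^ (j + 1) := by
    by_contra hc
    have hc' : 8 ^ (j + 1) ≤ A := not_lt.1 hc
    have h4 : 8 ^ (j + 1) * 8 ^ (j + 1) ≤ A * A := Nat.mul_le_mul hc' hc'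
    have h5 := Nat.mul_le_mul h4 h4
    rw [← pow_add, ← pow_add] at h5
    have h6 : 8 ^ (n + 1) ≤ 8 ^ (j + 1 + (j + 1) + (j + 1 + (j + 1))) :=
      Nat.pow_le_pow_right (by norm_num) (by omega)
    omega
  have hj1 : j + 1 < 8 ^ (j + 1) := Nat.lt_pow_self (by norm_num)
  have hL2 : L ≤ 8 * 8 ^ (j + 1) := by omega
  have h7 : (A + 1) * L ≤ 8 ^ (j + 1) * (8 * 8 ^ (j + 1)) := Nat.mul_le_mul hA' hL2
  have h8 : 8 ^ (j + 1) * (8 * 8 ^ (j + 1)) * 8 = 8 ^ (2 * j + 4) := by ring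
  have h9 : 8 ^ (2 * j + 4) ≤ 8 ^ n := Nat.pow_le_pow_right (by norm_num) (by omega)
  rw [Nat.le_div_iff_mul_le (by norm_num)]
  calc (A + 1) * L * 8 ≤ 8 ^ (j + 1) * (8 * 8 ^ (j + 1)) * 8 := Nat.mul_le_mul_right _ h7
    _ = 8 ^ (2 * j + 4) := h8
    _ ≤ N := h9.trans h1

theorem good_of_fix {s N : ℕ} {w v : List Bool} (hN : 64 ≤ N) (hs : 1 ≤ s)
    (hbig : 8 ^ (20 * bd s + 200) ≤ N) (hw : Snd N w v) (hfix : mkt N (step N w) = w) :
    Good s N w v := by
  have hf : ∀ r < 20, ∀ x < N, ∀ y < N, ∀ z < N, step N w r x y z → lk N w r x y z := by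
    intro r hr x hx y hy z hz h
    rw [← hfix]
    exact (lk_mkt hr hx hy hz).2 h
  obtain ⟨b1, b2, b3, b4, b5⟩ := bd_big hs
  have hbd : 8 ^ bd s ≤ N :=
    le_trans (Nat.pow_le_pow_right (by norm_num) (by omega)) hbig
  have h200 : 8 ^ 200 ≤ N :=
    le_trans (Nat.pow_le_pow_right (by norm_num) (by omega)) hbig
  have lt : ∀ t : Pt, t.sz ≤ bd s → t.code < N := fun t ht => lt_pow hbd ht
  have hlam4 : 2 ^ (4 * lam s) ≤ N := by
    refine le_trans ?_ hbd
    calc 2 ^ (4 * lam s) ≤ 8 ^ (4 * lam s) := Nat.pow_le_pow_left (by norm_num) _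
      _ ≤ 8 ^ bd s := Nat.pow_le_pow_right (by norm_num) b5
  have hlam1 : 2 ^ lam s ≤ N :=
    le_trans (Nat.pow_le_pow_right (by norm_num) (by omega)) hlam4
  refine ⟨hN, hs, hbig, ?_, ?_, ?_, ?_, ?_, ?_, ?_, hw.h8⟩
  · intro a ha q hq
    constructor
    · exact hw.h0 _ (by omega) _ ha _ hq
    · rintro rfl
      exact c0 hN hf (by norm_num) (by omega) _ hq
  · intro c hc s hs
    constructor
    · exact hw.h3 _ hc _ hs _ (by omega)
    · rintro ⟨t, rfl, rfl⟩
      exact c3 hN hf t hc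
  · intro t t' ho ho' ht ht'
    constructor
    · intro h
      exact g7 hw (lt t ht) (lt t' ht') (by omega) h
    · intro h
      exact c7 hN hf hw b3 hbig ho ho' ht ht' h
  · intro t ht
    constructor
    · intro h
      exact g9 hw (lt t ht) (by omega) (by omega) h
    · intro h
      exact c9 hN hf hw b3 hbig t h ht
  · intro t t' ht z hz
    have e := sz_cat t t'
    have l1 := lt t (by omega)
    have l2 := lt t' (by omega)
    have l3 := lt (cat t t') (by omega)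
    constructor
    · intro h
      exact (g6 hw l1 l2 hz h).symm
    · rintro rfl
      exact c6 hN hf t t' hz
  · intro t ht z hz
    constructor
    · intro h
      exact (g10 hw (lt t ht) hz (by omega) h).symm
    · rintro rfl
      exact c10 hN hf hbd t ht
  · intro t t' ho ho' ht ht' x y hx hy
    have hsb := s_le_bd (s := s)
    have l1 := lt t (by omega)
    have l2 := lt t' (by omega)
    constructor
    · rintro ⟨a, ha, c, hc, h1, h2, h3, h4, h5⟩
      have hax : a = x := by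
        have p2 := g4 hw l1 ha (by omega) h1
        rw [hx] at p2
        exact_mod_cast p2.symm
      subst hax
      obtain ⟨q5, q', rfl, q2, -⟩ := hw.h7 _ hc _ l2 _ (by omega) h3
      have q3 := g7 hw hc l2 (by omega) h3
      have q8 := g7 hw l2 hc (by omega) h4
      have hcy : rv q5 = y := by
        rw [← hy]
        exact le_antisymm q8 q3
      have hSm : Sm N q5 := by
        obtain ⟨r, hr, h6, -⟩ := h5 1 (by omega) (by norm_num)
        exact (g5 hw hc (by omega) hr h6).1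
      have hmod : ∀ m, 0 < m → m < N → y % m = 3 ^ a % m := by
        intro m hm hmN
        obtain ⟨r, hr, h6, h7⟩ := h5 m hmN hm
        obtain ⟨-, -, k, e3, e4⟩ := g5 hw hc hmN hr h6
        have hk : k = y := by
          rw [hcy] at e3
          exact_mod_cast e3.symm
        rw [hk] at e4
        have e5 := (hw.h2 _ hmN _ ha _ hr h7).2
        rw [← e5]
        exact_mod_cast e4.symm
      obtain ⟨A, hA⟩ : ∃ A, A = Nat.sqrt (Nat.sqrt (N - 1)) := ⟨_, rfl⟩
      have hA1 : ∀ a : ℕ, a * a * (a * a) < N → a ≤ A := by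
        intro a ha
        rw [hA, Nat.le_sqrt, Nat.le_sqrt]
        omega
      have hA2 : A * A * (A * A) < N := by
        have e1 : A * A ≤ Nat.sqrt (N - 1) := by
          rw [hA]
          exact Nat.sqrt_le _
        have e2 := Nat.mul_le_mul e1 e1
        have e3 := Nat.sqrt_le (N - 1)
        omega
      have hq5 := code_bounds q5
      have hsm : (A + 1) * q5.sz ≤ N / 8 := exp_small h200 hA2 (by omega)
      have hyb : y ≤ N * 4 ^ (N / 8) := by
        have g1 := sm_bound hA1 hSm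
        rw [hcy, ← pow_mul, Nat.abs_cast] at g1
        have g2 : y ≤ 2 ^ ((A + 1) * q5.sz) := by exact_mod_cast g1
        calc y ≤ 2 ^ ((A + 1) * q5.sz) := g2
          _ ≤ 2 ^ (N / 8) := Nat.pow_le_pow_right (by norm_num) hsm
          _ ≤ 4 ^ (N / 8) := Nat.pow_le_pow_left (by norm_num) _
          _ ≤ N * 4 ^ (N / 8) := Nat.le_mul_of_pos_left _ (by omega)
      have haA : a ≤ N / 8 := by
        have e1 := hA1 a h2
        have e2 := one_le_sz q5
        have e3 : (A + 1) * 1 ≤ (A + 1) * q5.sz := Nat.mul_le_mul_left _ e2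
        omega
      have h3b : 3 ^ a ≤ N * 4 ^ (N / 8) := by
        calc 3 ^ a ≤ 4 ^ a := Nat.pow_le_pow_left (by norm_num) _
          _ ≤ 4 ^ (N / 8) := Nat.pow_le_pow_right (by norm_num) haA
          _ ≤ N * 4 ^ (N / 8) := Nat.le_mul_of_pos_left _ (by omega)
      exact eq_of_mod (n := (N - 1) / 2) (by omega) (fun m hm hmn => hmod m hm (by omega))
        (key_lt hN hyb) (key_lt hN h3b)
    · intro h
      have h3 : rv t' = (3 : ℝ) ^ x := by rw [hy, h]; push_cast; rfl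
      obtain ⟨r1, t'', r2, r3, r4⟩ := red3 ho' hs ht' h3
      have r4o := r4.ok
      have l3 := lt t'' (by omega)
      have hlx : x < 2 ^ lam s := r1
      have hx4 : x * x * (x * x) < N := by
        refine lt_of_lt_of_le ?_ hlam4
        have e1 : x * x < 2 ^ lam s * 2 ^ lam s := Nat.mul_lt_mul'' hlx hlx
        have e2 := Nat.mul_lt_mul'' e1 e1
        have e3 : 2 ^ (4 * lam s) = 2 ^ lam s * 2 ^ lam s * (2 ^ lam s * 2 ^ lam s) := by
          rw [← pow_add, ← pow_add]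
          congr 1
          ring
        rw [e3]
        exact e2
      refine ⟨x, by omega, t''.code, l3,
        c4 hN hf hw b3 hbig b4 hlam1 x t r1 ho (by omega) hx, hx4,
        c7 hN hf hw b3 hbig r4o ho' (by omega) (by omega) r3.ge,
        c7 hN hf hw b3 hbig ho' r4o (by omega) (by omega) r3.le, ?_⟩
      intro m hmN hm
      obtain ⟨k, k1, z, k2, k3⟩ := c5 hN hf hw b3 hbig b4 hlam4 t'' r4 (by omega) m hm hmN
      have hk : k = 3 ^ x := by
        rw [r3, h3] at k1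
        exact_mod_cast k1.symm
      have hz : z = 3 ^ x % m := by
        rw [hk] at k2
        exact_mod_cast k2
      have hzm : z < m := by rw [hz]; exact Nat.mod_lt _ hm
      refine ⟨z, by omega, k3, ?_⟩
      rw [hz]
      exact c2 hN hf hm hmN x (by omega)

end PM80
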