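import Mathlib

/-!
Scales: `k + 1` positive integers which are small integral combinations of `k` integers cannot be
far apart from each other.
-/

namespace PM80

attribute [local instance] Matrix.seminormedAddCommGroup

/-- `k + 1` integer vectors of dimension `k` with small entries have a small integral relation. -/
theorem small_relation {ι : Type*} [Fintype ι] {k σ : ℕ} (hk : Fintype.card ι = k) (hk0 : 0 < k)
    (hkσ : k ≤ σ) (vec : Fin (k + 1) → ι → ℤ) (hv : ∀ i a, |vec i a| ≤ σ) :
    ∃ c : Fin (k + 1) → ℤ, c ≠ 0 ∧ (∀ a, ∑ i, vec i a * c i = 0) ∧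
      ∀ i, |c i| ≤ (((σ + 1) * σ : ℕ) : ℤ) ^ σ := by
  have hσ : 1 ≤ σ := by omega
  obtain ⟨t, ht0, htA, htn⟩ := Int.Matrix.exists_ne_zero_int_vec_norm_le
    (Matrix.of fun (a : ι) (i : Fin (k + 1)) => vec i a)
    (by rw [hk, Fintype.card_fin]; omega) (by rw [hk]; exact hk0)
  refine ⟨t, ht0, fun a => ?_, fun i => ?_⟩
  · have := congrFun htA a
    simpa [Matrix.mulVec, dotProduct] using this
  · have hA : ‖(Matrix.of fun (a : ι) (i : Fin (k + 1)) => vec i a)‖ ≤ (σ : ℝ) := by
      rw [Matrix.norm_le_iff (by positivity)]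
      intro a i
      rw [Matrix.of_apply, Int.norm_eq_abs]
      exact_mod_cast hv i a
    have hmax : max 1 ‖(Matrix.of fun (a : ι) (i : Fin (k + 1)) => vec i a)‖ ≤ (σ : ℝ) :=
      max_le (by exact_mod_cast hσ) hA
    rw [hk, Fintype.card_fin] at htn
    have he : ((k : ℝ) / (((k + 1 : ℕ) : ℝ) - k)) = (k : ℕ) := by
      push_cast
      rw [add_sub_cancel_left, div_one]
    rw [he, Real.rpow_natCast] at htn
    have h1 : ((((k + 1 : ℕ) : ℝ)) *
        max 1 ‖(Matrix.of fun (a : ι) (i : Fin (k + 1)) => vec i a)‖) ^ k ≤
        (((σ + 1) * σ : ℕ) : ℝ) ^ σ := by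
      have hb : ((((k + 1 : ℕ) : ℝ)) *
          max 1 ‖(Matrix.of fun (a : ι) (i : Fin (k + 1)) => vec i a)‖) ≤
          (((σ + 1) * σ : ℕ) : ℝ) := by
        rw [Nat.cast_mul]
        apply mul_le_mul
        · exact_mod_cast (by omega : k + 1 ≤ σ + 1)
        · exact hmax
        · positivity
        · positivity
      calc _ ≤ (((σ + 1) * σ : ℕ) : ℝ) ^ k := pow_le_pow_left₀ (by positivity) hb k
        _ ≤ _ := by
          apply pow_le_pow_right₀ _ hkσ
          have : 1 ≤ (σ + 1) * σ := Nat.one_le_iff_ne_zero.mpr (by positivity)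
          exact_mod_cast this
    have h2 : |(t i : ℝ)| ≤ ‖t‖ := by
      have := norm_le_pi_norm t i
      rwa [Int.norm_eq_abs] at this
    have h3 := h2.trans (htn.trans h1)
    exact_mod_cast h3

/-- SCALES. -/
theorem scales {ι : Type*} [Fintype ι] {k σ : ℕ} (hk : Fintype.card ι = k) (hk0 : 0 < k)
    (hkσ : k ≤ σ) (val : ι → ℤ) (d : Fin (k + 1) → ℤ) (vec : Fin (k + 1) → ι → ℤ)
    (hv : ∀ i a, |vec i a| ≤ σ) (hd : ∀ i, d i = ∑ a, vec i a * val a) (h0 : 0 < d 0)
    (hstep : ∀ i : Fin k, ((σ + 1) * σ : ℤ) ^ (σ + 1) * d i.castSucc < d i.succ) : False := by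
  classical
  have hσ : 1 ≤ σ := by omega
  obtain ⟨c, hc0, hcA, hcn⟩ := small_relation hk hk0 hkσ vec hv
  -- the relation for `d`
  have hrel : ∑ i, c i * d i = 0 := by
    calc ∑ i, c i * d i = ∑ i, ∑ a, c i * (vec i a * val a) := by
          refine Finset.sum_congr rfl fun i _ => ?_
          rw [hd i, Finset.mul_sum]
      _ = ∑ a, ∑ i, c i * (vec i a * val a) := Finset.sum_comm
      _ = ∑ a, (∑ i, vec i a * c i) * val a := by
          refine Finset.sum_congr rfl fun a _ => ?_
          rw [Finset.sum_mul]
          refine Finset.sum_congr rfl fun i _ => ?_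
          ring
      _ = 0 := by
          refine Finset.sum_eq_zero fun a _ => ?_
          rw [hcA a, zero_mul]
  set C : ℤ := ((σ + 1) * σ : ℤ) with hC
  have hC1 : 1 ≤ C := by
    rw [hC]
    have : (1 : ℤ) ≤ σ := by exact_mod_cast hσ
    nlinarith
  have hCpow : ∀ j, 1 ≤ C ^ j := fun j => one_le_pow₀ hC1
  -- positivity
  have hpos : ∀ i : Fin (k + 1), 0 < d i := by
    intro i
    induction i using Fin.induction with
    | zero => exact h0
    | succ i ih =>
      have := hstep i
      have h1 := hCpow (σ + 1)
      nlinarith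
  have hlt : ∀ i : Fin k, d i.castSucc < d i.succ := by
    intro i
    have h1 := hstep i
    have h2 := hCpow (σ + 1)
    have h3 := hpos i.castSucc
    nlinarith
  have hmono : StrictMono d := Fin.strictMono_iff_lt_succ.mpr hlt
  -- the largest index in the relation
  obtain ⟨i0, hi0⟩ : ∃ i, c i ≠ 0 := by
    by_contra h
    push Not at h
    exact hc0 (funext h)
  have hne : (Finset.univ.filter fun i => c i ≠ 0).Nonempty := ⟨i0, by simp [hi0]⟩
  obtain ⟨j, hjm, hjmax⟩ := (Finset.univ.filter fun i => c i ≠ 0).exists_max_image id hne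
  have hj : c j ≠ 0 := by simpa using hjm
  have hjz : ∀ i, j < i → c i = 0 := by
    intro i hi
    by_contra h
    exact absurd (hjmax i (by simp [h])) (not_le.mpr hi)
  -- split the relation
  have hsplit : c j * d j = -∑ i ∈ Finset.univ.filter (fun i => i < j), c i * d i := by
    have h1 : ∑ i, c i * d i = c j * d j + ∑ i ∈ Finset.univ.filter (fun i => i < j), c i * d i := by
      rw [← Finset.sum_filter_add_sum_filter_not Finset.univ (fun i => i < j)]
      rw [add_comm]
      congr 1
      rw [Finset.sum_eq_single j]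
      · intro i hi hij
        have : j < i := by
          rcases lt_trichotomy i j with h | h | h
          · exact absurd h (by simpa using hi)
          · exact absurd h hij
          · exact h
        rw [hjz i this, zero_mul]
      · intro h
        exact absurd (by simp) h
    rw [hrel] at h1
    linarith
  have habs : d j ≤ ∑ i ∈ Finset.univ.filter (fun i => i < j), C ^ σ * d i := by
    have h1 : (1 : ℤ) ≤ |c j| := Int.one_le_abs hj
    calc d j ≤ |c j| * d j := by nlinarith [hpos j]
      _ = |c j * d j| := by rw [abs_mul, abs_of_pos (hpos j)]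
      _ = |∑ i ∈ Finset.univ.filter (fun i => i < j), c i * d i| := by rw [hsplit, abs_neg]
      _ ≤ ∑ i ∈ Finset.univ.filter (fun i => i < j), |c i * d i| := Finset.abs_sum_le_sum_abs _ _
      _ ≤ _ := by
        refine Finset.sum_le_sum fun i _ => ?_
        rw [abs_mul, abs_of_pos (hpos i)]
        have h2 := hcn i
        have h3 : |c i| ≤ C ^ σ := by
          rw [hC]
          push_cast at h2
          exact h2
        exact mul_le_mul_of_nonneg_right h3 (hpos i).le
  -- the largest smaller index
  rcases Fin.eq_zero_or_eq_succ j with hj0 | ⟨i, hji⟩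
  · subst hj0
    have : (Finset.univ.filter (fun i : Fin (k + 1) => i < 0)) = ∅ := by
      ext i
      simp
    rw [this, Finset.sum_empty] at habs
    exact absurd (hpos 0) (not_lt.mpr habs)
  · subst hji
    have hbound : ∑ l ∈ Finset.univ.filter (fun l => l < i.succ), C ^ σ * d l ≤
        (k : ℤ) * (C ^ σ * d i.castSucc) := by
      have hcard : (Finset.univ.filter (fun l => l < i.succ)).card ≤ k := by
        have : (Finset.univ.filter (fun l => l < i.succ)) = Finset.Iio i.succ := by
          ext l; simp
        rw [this, Fin.card_Iio]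
        simp only [Fin.val_succ]
        omega
      calc ∑ l ∈ Finset.univ.filter (fun l => l < i.succ), C ^ σ * d l
          ≤ ∑ l ∈ Finset.univ.filter (fun l => l < i.succ), C ^ σ * d i.castSucc := by
            refine Finset.sum_le_sum fun l hl => ?_
            have hl' : l ≤ i.castSucc := by
              have : l < i.succ := by simpa using hl
              rw [Fin.le_def, Fin.val_castSucc]
              rw [Fin.lt_def, Fin.val_succ] at this
              omega
            exact mul_le_mul_of_nonneg_left (hmono.monotone hl') (by positivity)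
        _ = (Finset.univ.filter (fun l => l < i.succ)).card * (C ^ σ * d i.castSucc) := by
            rw [Finset.sum_const, nsmul_eq_mul]
        _ ≤ _ := by
            apply mul_le_mul_of_nonneg_right (by exact_mod_cast hcard)
            have := hpos i.castSucc
            positivity
    have h1 := hstep i
    have hkC : (k : ℤ) ≤ C := by
      have h2 : (k : ℤ) ≤ σ := by exact_mod_cast hkσ
      have h3 : (1 : ℤ) ≤ σ := by exact_mod_cast hσ
      rw [hC]
      nlinarith
    have h2 : (k : ℤ) * (C ^ σ * d i.castSucc) ≤ C ^ (σ + 1) * d i.castSucc := by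
      have hp : 0 ≤ C ^ σ * d i.castSucc := by
        have := hpos i.castSucc
        positivity
      calc (k : ℤ) * (C ^ σ * d i.castSucc) ≤ C * (C ^ σ * d i.castSucc) :=
            mul_le_mul_of_nonneg_right hkC hp
        _ = _ := by ring
    linarith

end PM80
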