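import Pool.Agent.PM80.Table

/-!
# Meaning of the tables
-/

set_option autoImplicit false

namespace PM80

open OM80 (sg sg_false sg_true sg_not sg_xor)
open Pt

/-- The item relation of a sign. -/
def ItS (b : Bool) (x y z : ℕ) : Prop :=
  ∃ t : Pt, t.code = x ∧ y < cnt t ∧ (item t y).1 = b ∧ (item t y).2.code = z

/-- The accumulator relation of a sign. -/
def AcS (b : Bool) (x y z : ℕ) : Prop := ∃ t : Pt, t.code = x ∧ St t b y z

/-- The table is sound. -/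
structure Snd (N : ℕ) (w v : List Bool) : Prop where
  h0 : ∀ x < N, ∀ y < N, ∀ z < N, lk N w 0 x y z → z = x ^ y
  h1 : ∀ x < N, ∀ y < N, ∀ z < N, lk N w 1 x y z → 0 < x ∧ z = 2 ^ y % x
  h2 : ∀ x < N, ∀ y < N, ∀ z < N, lk N w 2 x y z → 0 < x ∧ z = 3 ^ y % x
  h3 : ∀ x < N, ∀ y < N, ∀ z < N, lk N w 3 x y z → ∃ t : Pt, t.code = x ∧ t.sz = y
  h4 : ∀ x < N, ∀ y < N, ∀ z < N, lk N w 4 x y z → ∃ t : Pt, t.code = x ∧ rv t = y
  h5 : ∀ x < N, ∀ y < N, ∀ z < N, lk N w 5 x y z →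
    ∃ t : Pt, t.code = x ∧ Sm N t ∧ 0 < y ∧ ∃ k : ℤ, rv t = k ∧ (z : ℤ) = k % y
  h6 : ∀ x < N, ∀ y < N, ∀ z < N, lk N w 6 x y z →
    ∃ t t' : Pt, t.code = x ∧ t'.code = y ∧ (cat t t').code = z
  h7 : ∀ x < N, ∀ y < N, ∀ z < N, lk N w 7 x y z →
    ∃ t t' : Pt, t.code = x ∧ t'.code = y ∧ rv t' ≤ rv t
  h8 : ∀ x < N, (lk N w 8 x 0 0 ↔ v.getD x false = true)
  h9 : ∀ x < N, ∀ y < N, ∀ z < N, lk N w 9 x y z → ∃ t : Pt, t.code = x ∧ t.Ok
  h10 : ∀ x < N, ∀ y < N, ∀ z < N, lk N w 10 x y z →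
    ∃ t : Pt, t.code = x ∧ (neg t).code = y
  h11 : ∀ x < N, ∀ y < N, ∀ z < N, lk N w 11 x y z → ∃ t : Pt, t.code = x ∧ cnt t = y
  h12 : ∀ x < N, ∀ y < N, ∀ z < N, lk N w 12 x y z → ItS false x y z
  h13 : ∀ x < N, ∀ y < N, ∀ z < N, lk N w 13 x y z → ItS true x y z
  h14 : ∀ x < N, ∀ y < N, ∀ z < N, lk N w 14 x y z →
    ∃ t t' : Pt, t.code = x ∧ t'.code = y ∧ rv t < rv t'
  h15 : ∀ x < N, ∀ y < N, ∀ z < N, lk N w 15 x y z → ∃ t : Pt, t.code = x ∧ 0 ≤ rv t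
  h16 : ∀ x < N, ∀ y < N, ∀ z < N, lk N w 16 x y z → ∃ t : Pt, t.code = x ∧ rv t < 0
  h17 : ∀ x < N, ∀ y < N, ∀ z < N, lk N w 17 x y z →
    ∃ t : Pt, t.code = x ∧ (inct y t).code = z
  h18 : ∀ x < N, ∀ y < N, ∀ z < N, lk N w 18 x y z → AcS false x y z
  h19 : ∀ x < N, ∀ y < N, ∀ z < N, lk N w 19 x y z → AcS true x y z

theorem mod_eq {q m z a : ℕ} (hz : z < m) (h : q * m + z = a) : z = a % m := by
  rw [← h, Nat.mul_add_mod', Nat.mod_eq_of_lt hz]

theorem ItS.eq {b : Bool} {t : Pt} {y z : ℕ} (h : ItS b t.code y z) :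
    y < cnt t ∧ (item t y).1 = b ∧ (item t y).2.code = z := by
  obtain ⟨t', h1, h2⟩ := h
  rwa [code_inj h1] at h2

theorem AcS.eq {b : Bool} {t : Pt} {y z : ℕ} (h : AcS b t.code y z) : St t b y z := by
  obtain ⟨t', h1, h2⟩ := h
  rwa [code_inj h1] at h2

section sound

variable {N : ℕ} {w v : List Bool} (hN : 64 ≤ N) (hw : Snd N w v)
include hN hw

omit hN in
theorem g3 {t : Pt} {y z : ℕ} (ht : t.code < N) (hy : y < N) (hz : z < N)
    (h : lk N w 3 t.code y z) : t.sz = y := by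
  obtain ⟨t', h1, h2⟩ := hw.h3 _ ht _ hy _ hz h
  rwa [code_inj h1] at h2

omit hN in
theorem g4 {t : Pt} {y z : ℕ} (ht : t.code < N) (hy : y < N) (hz : z < N)
    (h : lk N w 4 t.code y z) : rv t = y := by
  obtain ⟨t', h1, h2⟩ := hw.h4 _ ht _ hy _ hz h
  rwa [code_inj h1] at h2

omit hN in
theorem g5 {t : Pt} {y z : ℕ} (ht : t.code < N) (hy : y < N) (hz : z < N)
    (h : lk N w 5 t.code y z) : Sm N t ∧ 0 < y ∧ ∃ k : ℤ, rv t = k ∧ (z : ℤ) = k % y := by
  obtain ⟨t', h1, h2⟩ := hw.h5 _ ht _ hy _ hz h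
  rwa [code_inj h1] at h2

omit hN in
theorem g6 {t t' : Pt} {z : ℕ} (ht : t.code < N) (ht' : t'.code < N) (hz : z < N)
    (h : lk N w 6 t.code t'.code z) : (cat t t').code = z := by
  obtain ⟨a, b, h1, h2, h3⟩ := hw.h6 _ ht _ ht' _ hz h
  rwa [code_inj h1, code_inj h2] at h3

omit hN in
theorem g7 {t t' : Pt} {z : ℕ} (ht : t.code < N) (ht' : t'.code < N) (hz : z < N)
    (h : lk N w 7 t.code t'.code z) : rv t' ≤ rv t := by
  obtain ⟨a, b, h1, h2, h3⟩ := hw.h7 _ ht _ ht' _ hz h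
  rwa [code_inj h1, code_inj h2] at h3

omit hN in
theorem g9 {t : Pt} {y z : ℕ} (ht : t.code < N) (hy : y < N) (hz : z < N)
    (h : lk N w 9 t.code y z) : t.Ok := by
  obtain ⟨t', h1, h2⟩ := hw.h9 _ ht _ hy _ hz h
  rwa [code_inj h1] at h2

omit hN in
theorem g10 {t : Pt} {y z : ℕ} (ht : t.code < N) (hy : y < N) (hz : z < N)
    (h : lk N w 10 t.code y z) : (neg t).code = y := by
  obtain ⟨t', h1, h2⟩ := hw.h10 _ ht _ hy _ hz h
  rwa [code_inj h1] at h2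

omit hN in
theorem g11 {t : Pt} {y z : ℕ} (ht : t.code < N) (hy : y < N) (hz : z < N)
    (h : lk N w 11 t.code y z) : cnt t = y := by
  obtain ⟨t', h1, h2⟩ := hw.h11 _ ht _ hy _ hz h
  rwa [code_inj h1] at h2

omit hN in
theorem g14 {t t' : Pt} {z : ℕ} (ht : t.code < N) (ht' : t'.code < N) (hz : z < N)
    (h : lk N w 14 t.code t'.code z) : rv t < rv t' := by
  obtain ⟨a, b, h1, h2, h3⟩ := hw.h14 _ ht _ ht' _ hz h
  rwa [code_inj h1, code_inj h2] at h3

omit hN in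
theorem g15 {t : Pt} {y z : ℕ} (ht : t.code < N) (hy : y < N) (hz : z < N)
    (h : lk N w 15 t.code y z) : 0 ≤ rv t := by
  obtain ⟨t', h1, h2⟩ := hw.h15 _ ht _ hy _ hz h
  rwa [code_inj h1] at h2

omit hN in
theorem g16 {t : Pt} {y z : ℕ} (ht : t.code < N) (hy : y < N) (hz : z < N)
    (h : lk N w 16 t.code y z) : rv t < 0 := by
  obtain ⟨t', h1, h2⟩ := hw.h16 _ ht _ hy _ hz h
  rwa [code_inj h1] at h2

omit hN in
theorem g17 {t : Pt} {y z : ℕ} (ht : t.code < N) (hy : y < N) (hz : z < N)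
    (h : lk N w 17 t.code y z) : (inct y t).code = z := by
  obtain ⟨t', h1, h2⟩ := hw.h17 _ ht _ hy _ hz h
  rwa [code_inj h1] at h2

theorem AA_sound {b : Bool} {x u t : ℕ} (hu : u < N) (ht : t < N) (h : AA N w (dg b) x u t) :
    ∃ tu tt : Pt, tu.code = u ∧ tt.code = t ∧ (A b tu tt).code = x := by
  obtain ⟨s, hs, s', hs', q, hq, h1, h2, h3, h4⟩ := h
  obtain ⟨tu, rfl, rfl⟩ := hw.h3 _ hu _ hs _ (by omega) h1
  obtain ⟨tt, rfl, rfl⟩ := hw.h3 _ ht _ hs' _ (by omega) h2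
  have h5 := hw.h0 _ (by omega) _ hs _ hq h3
  exact ⟨tu, tt, rfl, rfl, by rw [h4, h5, code]⟩

theorem AA3 {x u t : ℕ} (hu : u < N) (ht : t < N) (h : AA N w 3 x u t) :
    ∃ tu tt : Pt, tu.code = u ∧ tt.code = t ∧ (A false tu tt).code = x :=
  AA_sound hN hw (b := false) hu ht h

theorem AA4 {x u t : ℕ} (hu : u < N) (ht : t < N) (h : AA N w 4 x u t) :
    ∃ tu tt : Pt, tu.code = u ∧ tt.code = t ∧ (A true tu tt).code = x :=
  AA_sound hN hw (b := true) hu ht h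

theorem PP_sound {x p q t : ℕ} (hp : p < N) (hq : q < N) (ht : t < N)
    (h : PP N w x p q t) :
    ∃ tp tq tt : Pt, tp.code = p ∧ tq.code = q ∧ tt.code = t ∧ (P tp tq tt).code = x := by
  obtain ⟨s, hs, s', hs', s'', hs'', e, he, e', he', h1, h2, h3, h4, h5, h6⟩ := h
  obtain ⟨tp, rfl, rfl⟩ := hw.h3 _ hp _ hs _ (by omega) h1
  obtain ⟨tq, rfl, rfl⟩ := hw.h3 _ hq _ hs' _ (by omega) h2
  obtain ⟨tt, rfl, rfl⟩ := hw.h3 _ ht _ hs'' _ (by omega) h3
  have h7 := hw.h0 _ (by omega) _ hs _ he h4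
  have h8 := hw.h0 _ (by omega) _ hs' _ he' h5
  exact ⟨tp, tq, tt, rfl, rfl, rfl, by rw [h6, h7, h8, code]⟩

omit hN hw in
theorem isD_iff {d : ℕ} (h : isD d) : ∃ b, d = dg b := by
  rcases h with rfl | rfl
  · exact ⟨false, rfl⟩
  · exact ⟨true, rfl⟩

omit hN hw in
theorem mod_sound {r b x y z : ℕ}
    (hr : ∀ y < N, ∀ z < N, lk N w r x y z → 0 < x ∧ z = b ^ y % x)
    (h : rMod N w r b x y z) : 0 < x ∧ z = b ^ y % x := by
  obtain ⟨⟨h1, h2⟩, ⟨rfl, q, -, h3⟩ | ⟨y', hy', z', hz', q, -, rfl, h3, h4⟩⟩ := h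
  · refine ⟨h1, ?_⟩
    rw [pow_zero]
    exact mod_eq h2 h3
  · refine ⟨h1, ?_⟩
    have h5 := (hr _ hy' _ hz' h4).2
    rw [mod_eq h2 h3, h5, pow_succ, mul_comm, Nat.mod_mul_mod]

theorem it_sound {r r' : ℕ} {b : Bool} {x i u : ℕ} (hx : x < N) (hi : i < N) (hu : u < N)
    (hr : ∀ x < N, ∀ y < N, ∀ z < N, lk N w r x y z → ItS b x y z)
    (hr' : ∀ x < N, ∀ y < N, ∀ z < N, lk N w r' x y z → ItS (!b) x y z)
    (h : rIt N w r r' (dg b) x i u) : ItS b x i u := by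
  rcases h with ⟨rfl, t, ht, h⟩ | ⟨d', hd', v', hv, t, ht, j, hj, hd, h1, rfl, h2⟩ |
    ⟨p, hp, q, hq, t, ht, a, ha, b', hb', h1, h2, h3, h4⟩
  · obtain ⟨tu, tt, rfl, rfl, rfl⟩ := AA_sound hN hw hu ht h
    exact ⟨_, rfl, by simp only [cnt]; omega, by rw [item_A0], by rw [item_A0]⟩
  · obtain ⟨b'', rfl⟩ := isD_iff hd
    obtain ⟨tu, tt, rfl, rfl, rfl⟩ := AA_sound hN hw hv ht h1
    obtain ⟨h3, h4, h5⟩ := (hr _ ht _ hj _ hu h2).eq
    exact ⟨_, rfl, by simp only [cnt]; omega, by rw [item_AS, h4], by rw [item_AS, h5]⟩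
  · obtain ⟨tp, tq, tt, rfl, rfl, rfl, rfl⟩ := PP_sound hN hw hp hq ht h1
    have e1 := g11 hw hp ha (by omega) h2
    have e2 := g11 hw hq hb' (by omega) h3
    subst e1 e2
    rcases h4 with ⟨j, hj, k, hk, y, hy, z, hz, rfl, h5, h6⟩ | ⟨j, hj, rfl, h5⟩
    · have hlt : j * cnt tq + k < cnt (P tp tq tt) := by
        have : (j + 1) * cnt tq ≤ cnt tp * cnt tq := Nat.mul_le_mul_right _ hj
        rw [Nat.add_mul, one_mul] at this
        simp only [cnt]
        omega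
      refine ⟨_, rfl, hlt, ?_⟩
      rw [item_P1 tp tq tt hj hk]
      rcases h6 with ⟨h6, h7⟩ | ⟨h6, h7⟩
      · obtain ⟨-, a1, rfl⟩ := (hw.h12 _ hp _ (by omega) _ hy h6).eq
        obtain ⟨-, a2, rfl⟩ := (hr _ hq _ (by omega) _ hz h7).eq
        have a3 := g6 hw hy hz hu h5
        exact ⟨by rw [a1, a2]; simp, a3⟩
      · obtain ⟨-, a1, rfl⟩ := (hw.h13 _ hp _ (by omega) _ hy h6).eq
        obtain ⟨-, a2, rfl⟩ := (hr' _ hq _ (by omega) _ hz h7).eq
        have a3 := g6 hw hy hz hu h5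
        exact ⟨by rw [a1, a2]; simp, a3⟩
    · obtain ⟨a1, a2, a3⟩ := (hr _ ht _ hj _ hu h5).eq
      exact ⟨_, rfl, by simp only [cnt]; omega, by rw [item_P2, a2], by rw [item_P2, a3]⟩

omit hN in
theorem im_sound {t : Pt} {i u : ℕ} (ht : t.code < N) (hi : i < N) (hu : u < N)
    (h : Im N w t.code i u) : i < cnt t ∧ (item t i).2.code = u := by
  rcases h with h | h
  · obtain ⟨h1, -, h2⟩ := (hw.h12 _ ht _ hi _ hu h).eq
    exact ⟨h1, h2⟩
  · obtain ⟨h1, -, h2⟩ := (hw.h13 _ ht _ hi _ hu h).eq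
    exact ⟨h1, h2⟩

omit hN in
theorem bef_sound {t : Pt} {i k : ℕ} (hN0 : 0 < N) (hi : (item t i).2.code < N)
    (hk : (item t k).2.code < N)
    (h : bef N w k (item t k).2.code i (item t i).2.code) : bf (itx t) k i := by
  rcases h with h | ⟨h1, h2, h3⟩
  · exact Or.inl (g14 hw hi hk hN0 h)
  · exact Or.inr ⟨le_antisymm (g7 hw hi hk hN0 h2) (g7 hw hk hi hN0 h1), h3⟩

omit hN in
theorem fst_sound {t : Pt} {i : ℕ} (hN0 : 0 < N) (ht : t.code < N) (hc : cnt t < N)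
    (hi : (item t i).2.code < N) (h : fsti N w t.code (cnt t) i (item t i).2.code) :
    ∀ k < cnt t, k = i ∨ bf (itx t) i k := by
  intro k hk
  rcases h k hk with h | ⟨y, hy, h1, h2⟩
  · exact Or.inl h
  · obtain ⟨h3, rfl⟩ := im_sound hw ht (by omega) hy h1
    exact Or.inr (bef_sound hw hN0 hy hi h2)

omit hN in
theorem lst_sound {t : Pt} {i : ℕ} (hN0 : 0 < N) (ht : t.code < N) (hc : cnt t < N)
    (hi : (item t i).2.code < N) (h : lsti N w t.code (cnt t) i (item t i).2.code) :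
    ∀ k < cnt t, k = i ∨ bf (itx t) k i := by
  intro k hk
  rcases h k hk with h | ⟨y, hy, h1, h2⟩
  · exact Or.inl h
  · obtain ⟨h3, rfl⟩ := im_sound hw ht (by omega) hy h1
    exact Or.inr (bef_sound hw hN0 hi hy h2)

omit hN in
theorem nxt_sound {t : Pt} {i j : ℕ} (hN0 : 0 < N) (ht : t.code < N) (hc : cnt t < N)
    (hi : (item t i).2.code < N) (hj : (item t j).2.code < N)
    (h : nxti N w t.code (cnt t) j (item t j).2.code i (item t i).2.code) :
    bf (itx t) j i ∧ ∀ k < cnt t, k = i ∨ k = j ∨ bf (itx t) k j ∨ bf (itx t) i k := by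
  refine ⟨bef_sound hw hN0 hi hj h.1, fun k hk => ?_⟩
  rcases h.2 k hk with h1 | h1 | ⟨y, hy, h1, h2⟩
  · exact Or.inl h1
  · exact Or.inr (Or.inl h1)
  · obtain ⟨h3, rfl⟩ := im_sound hw ht (by omega) hy h1
    rcases h2 with h2 | h2
    · exact Or.inr (Or.inr (Or.inl (bef_sound hw hN0 hj hy h2)))
    · exact Or.inr (Or.inr (Or.inr (bef_sound hw hN0 hy hi h2)))

theorem ac_sound {r r' o o' : ℕ} {τ : Bool} {c i b : ℕ} (hc : c < N)
    (hr : ∀ x < N, ∀ y < N, ∀ z < N, lk N w r x y z → ItS τ x y z)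
    (hr' : ∀ x < N, ∀ y < N, ∀ z < N, lk N w r' x y z → ItS (!τ) x y z)
    (ho : ∀ x < N, ∀ y < N, ∀ z < N, lk N w o x y z → AcS τ x y z)
    (ho' : ∀ x < N, ∀ y < N, ∀ z < N, lk N w o' x y z → AcS (!τ) x y z)
    (h : rAc N w r r' o o' c i b) : AcS τ c i b := by
  have N0 : 0 < N := by omega
  obtain ⟨m, hm, q, hq, g, hg, u, hu, h1, him, h2, hmq, hqm, h3⟩ := h
  obtain ⟨t, rfl, rfl⟩ := hw.h11 _ hc _ hm _ N0 h1
  have hq2 := hw.h0 _ (by omega) _ hg _ hq h2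
  have hiN : i < N := by omega
  rcases h3 with ⟨h3, h4, rfl⟩ | ⟨j, hj, v', hv, a, ha, h3, h4, h5⟩
  · obtain ⟨-, a2, rfl⟩ := (hr _ hc _ hiN _ hu h3).eq
    obtain ⟨e1, e2⟩ := V_first (s := its t) him (fst_sound hw N0 hc hm hu h4)
    refine ⟨t, rfl, him, ?_⟩
    rw [e1, e2, show its t i = τ from a2]
    exact Inv.first _ _
  · have hjN : j < N := by omega
    obtain ⟨-, rfl⟩ := im_sound hw hc hjN hv h3
    have hu' : (item t i).2.code = u := by
      rcases h5 with ⟨d, hd, e, he, z, hz, h6, h7, h8, h9, ⟨h10, -⟩ | ⟨h10, -⟩ | ⟨h10, -⟩⟩ |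
        ⟨z, hz, h6, h7, ⟨h8 | h8, -⟩ | ⟨h8, -⟩⟩
      · exact (hr _ hc _ hiN _ hu h10).eq.2.2
      · exact (hr' _ hc _ hiN _ hu h10).eq.2.2
      · exact (hr _ hc _ hiN _ hu h10).eq.2.2
      · exact (hr _ hc _ hiN _ hu h8).eq.2.2
      · exact (hr' _ hc _ hiN _ hu h8).eq.2.2
      · exact (hr _ hc _ hiN _ hu h8).eq.2.2
    subst hu'
    obtain ⟨b1, b2⟩ := nxt_sound hw N0 hc hm hu hv h4
    obtain ⟨e1, e2⟩ := V_next (s := its t) him b1 b2
    have hk : (up (cnt t) (itx t) j).card + 1 ≤ cnt t := by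
      rw [← e2]
      exact card_up_le
    refine ⟨t, rfl, him, ?_⟩
    rw [e1, e2]
    rcases h5 with ⟨d, hd, e, he, z, hz, h6, h7, h8, h9, h10⟩ | ⟨z, hz, h6, h7, h8⟩
    · have he2 := hw.h0 _ (by omega) _ hd _ he h6
      have he1 : 1 ≤ e := by rw [he2]; exact Nat.one_le_two_pow
      obtain rfl := g17 hw hu hd hz h7
      have c1 := g7 hw hv hz N0 h8
      have c2 := g7 hw hz hv N0 h9
      rw [rv_inct] at c1 c2
      have hE : (2 : ℝ) ^ (itx t j - itx t i) = (e : ℝ) := by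
        have : itx t j - itx t i = (d : ℝ) := by
          simp only [itx]
          linarith
        rw [this, he2, Real.rpow_natCast]
        push_cast
        rfl
      rw [hE]
      rcases h10 with ⟨h10, h11, h12⟩ | ⟨h10, h11, h12⟩ | ⟨h10, h11, rfl, rfl⟩
      · rw [show its t i = τ from (hr _ hc _ hiN _ hu h10).eq.2.1]
        refine (ho _ hc _ hjN _ ha h11).eq.2.same hmq ?_ he1
        rcases h12 with ⟨h12, h13⟩ | ⟨h12, h13⟩
        · exact Or.inl ⟨by omega, h13⟩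
        · exact Or.inr ⟨by omega, h13⟩
      · rw [show its t i = !τ from (hr' _ hc _ hiN _ hu h10).eq.2.1]
        refine (ho _ hc _ hjN _ ha h11).eq.2.opp hk hmq ?_ he1
        rcases h12 with ⟨h12, h13⟩ | ⟨h12, h13⟩
        · exact Or.inl ⟨h12, by omega⟩
        · exact Or.inr ⟨by omega, h13⟩
      · rw [show its t i = τ from (hr _ hc _ hiN _ hu h10).eq.2.1]
        exact (ho' _ hc _ hjN _ ha h11).eq.2.zero
    · obtain rfl := g17 hw hu hg hz h6
      have c1 := g7 hw hv hz N0 h7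
      rw [rv_inct] at c1
      have hE : (q : ℝ) ≤ (2 : ℝ) ^ (itx t j - itx t i) := by
        have h9 : (g : ℝ) ≤ itx t j - itx t i := by
          simp only [itx]
          linarith
        have h10 : (q : ℝ) = (2 : ℝ) ^ (g : ℝ) := by
          rw [hq2, Real.rpow_natCast]
          push_cast
          rfl
        rw [h10]
        exact Real.rpow_le_rpow_of_exponent_le (by norm_num) h9
      rcases h8 with ⟨h8, h9, h10, h11⟩ | ⟨h8, h9, rfl, rfl⟩
      · exact (ho _ hc _ hjN _ ha h9).eq.2.large (by omega) hk hmq hE h11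
      · rw [show its t i = τ from (hr _ hc _ hiN _ hu h8).eq.2.1]
        rcases h9 with h9 | h9
        · exact (ho _ hc _ hjN _ ha h9).eq.2.zero
        · exact (ho' _ hc _ hjN _ ha h9).eq.2.zero

omit hN hw in
theorem rv_last {t : Pt} {i : ℕ} (hi : i < cnt t) (h : ∀ k < cnt t, k = i ∨ bf (itx t) k i) :
    rv t = Vv (cnt t) (its t) (itx t) i * (2 : ℝ) ^ itx t i := by
  rw [rv_its]
  exact V_last hi h

theorem nn_sound {x : ℕ} (hx : x < N) (h : rNn N w x) : ∃ t : Pt, t.code = x ∧ 0 ≤ rv t := by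
  have N0 : 0 < N := by omega
  rcases h with h | ⟨m, hm, i, hi, u, hu, h1, h2, h3, h4⟩
  · obtain ⟨t, rfl, h1⟩ := hw.h11 _ hx _ N0 _ N0 h
    exact ⟨t, rfl, by rw [rv_its, h1]; simp⟩
  · obtain ⟨t, rfl, rfl⟩ := hw.h11 _ hx _ hm _ N0 h1
    obtain ⟨-, rfl⟩ := im_sound hw hx (by omega) hu h2
    have h5 := rv_last hi (lst_sound hw N0 hx hm hu h3)
    refine ⟨t, rfl, ?_⟩
    rw [h5]
    refine mul_nonneg ?_ (Real.rpow_nonneg (by norm_num) _)
    rcases h4 with ⟨a, ha, h4⟩ | h4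
    · exact (hw.h18 _ hx _ (by omega) _ ha h4).eq.2.nonneg
    · exact (hw.h19 _ hx _ (by omega) _ N0 h4).eq.2.nonneg'

theorem ne_sound {x : ℕ} (hx : x < N) (h : rNe N w x) : ∃ t : Pt, t.code = x ∧ rv t < 0 := by
  have N0 : 0 < N := by omega
  obtain ⟨m, hm, i, hi, u, hu, a, ha, h1, h2, h3, h4, h5⟩ := h
  obtain ⟨t, rfl, rfl⟩ := hw.h11 _ hx _ hm _ N0 h1
  obtain ⟨-, rfl⟩ := im_sound hw hx (by omega) hu h2
  have h6 := rv_last hi (lst_sound hw N0 hx hm hu h3)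
  refine ⟨t, rfl, ?_⟩
  rw [h6]
  exact mul_neg_of_neg_of_pos ((hw.h19 _ hx _ (by omega) _ ha h5).eq.2.neg h4)
    (Real.rpow_pos_of_pos (by norm_num) _)

theorem cp_sound {r x y : ℕ} (hx : x < N) (hy : y < N) (h : rCp N w r x y) :
    ∃ t t' : Pt, t.code = x ∧ t'.code = y ∧ (cat t (neg t')).code < N ∧
      lk N w r (cat t (neg t')).code 0 0 := by
  have N0 : 0 < N := by omega
  obtain ⟨n, hn, v', hv, h1, h2, h3⟩ := h
  obtain ⟨t', rfl, rfl⟩ := hw.h10 _ hy _ hn _ N0 h1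
  obtain ⟨a, b, rfl, h4, rfl⟩ := hw.h6 _ hx _ hn _ hv h2
  obtain rfl := code_inj h4
  exact ⟨a, t', rfl, rfl, hv, h3⟩

theorem rs_sound {x y z : ℕ} (hx : x < N) (hy : y < N) (hz : z < N) (h : rRs N w x y z) :
    ∃ t : Pt, t.code = x ∧ Sm N t ∧ 0 < y ∧ ∃ k : ℤ, rv t = k ∧ (z : ℤ) = k % y := by
  have N0 : 0 < N := by omega
  have hmod : ∀ i j : ℤ, i % (y : ℤ) = j % y → 0 ≤ i → i < y → i = j % y := by
    intro i j h1 h2 h3
    rw [← h1, Int.emod_eq_of_lt h2 h3]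
  obtain ⟨⟨hy0, hzy⟩, ⟨rfl, rfl⟩ | ⟨u, hu, t, ht, a, ha, p, hp, z', hz', q, hq, h1, h2, h3,
    h4, h5⟩ | ⟨p, hp, q, hq, t, ht, a, ha, b, hb, c, hc, k, hk, h1, h2, h3, h4, h5⟩⟩ := h
  · exact ⟨Z, rfl, trivial, hy0, 0, by simp [rv], by simp⟩
  · have h7 := (hw.h1 _ hy _ ha _ hp h1).2
    have hpz : (p : ℤ) % y = 2 ^ a % (y : ℤ) := by
      rw [h7]
      push_cast
      rw [Int.emod_emod_of_dvd _ (dvd_refl _)]
    rcases h5 with ⟨h5, h6⟩ | ⟨h5, h6⟩
    · obtain ⟨tu, tt, rfl, rfl, rfl⟩ := AA3 hN hw hu ht h5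
      have a2 := g4 hw hu ha N0 h3
      obtain ⟨c2, -, k, c4, c5⟩ := g5 hw ht hy hz' h4
      have h8 : (2 : ℝ) ^ rv tu = ((2 ^ a : ℤ) : ℝ) := by
        rw [a2, Real.rpow_natCast]
        push_cast
        rfl
      refine ⟨_, rfl, ⟨⟨a, a2, h2⟩, c2⟩, hy0, 2 ^ a + k, ?_, ?_⟩
      · rw [rv_A, sg_false, h8, c4]
        push_cast
        ring
      · apply hmod _ _ _ (by positivity) (by exact_mod_cast hzy)
        have h9 : (z : ℤ) = p + z' - q * y := by
          have : (q * y + z : ℤ) = p + z' := by exact_mod_cast h6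
          linarith
        rw [h9, Int.sub_mul_emod_self_right, Int.add_emod, hpz, c5,
          Int.emod_emod_of_dvd _ (dvd_refl _), ← Int.add_emod]
    · obtain ⟨tu, tt, rfl, rfl, rfl⟩ := AA4 hN hw hu ht h5
      have a2 := g4 hw hu ha N0 h3
      obtain ⟨c2, -, k, c4, c5⟩ := g5 hw ht hy hz' h4
      have h8 : (2 : ℝ) ^ rv tu = ((2 ^ a : ℤ) : ℝ) := by
        rw [a2, Real.rpow_natCast]
        push_cast
        rfl
      refine ⟨_, rfl, ⟨⟨a, a2, h2⟩, c2⟩, hy0, - 2 ^ a + k, ?_, ?_⟩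
      · rw [rv_A, sg_true, h8, c4]
        push_cast
        ring
      · apply hmod _ _ _ (by positivity) (by exact_mod_cast hzy)
        have h9 : (z : ℤ) = z' - p + q * y := by
          have : (q * y + z' : ℤ) = p + z := by exact_mod_cast h6
          linarith
        have h10 : (- 2 ^ a + k : ℤ) = k - 2 ^ a := by ring
        rw [h9, Int.add_mul_emod_self_right, Int.sub_emod, hpz, c5,
          Int.emod_emod_of_dvd _ (dvd_refl _), ← Int.sub_emod, h10]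
  · obtain ⟨tp, tq, tt, rfl, rfl, rfl, rfl⟩ := PP_sound hN hw hp hq ht h1
    obtain ⟨a1, -, k1, a3, a4⟩ := g5 hw hp hy ha h2
    obtain ⟨b1, -, k2, b3, b4⟩ := g5 hw hq hy hb h3
    obtain ⟨c1, -, k3, c3, c4⟩ := g5 hw ht hy hc h4
    refine ⟨_, rfl, ⟨a1, b1, c1⟩, hy0, k1 * k2 + k3, ?_, ?_⟩
    · rw [rv_P, a3, b3, c3]
      push_cast
      ring
    · apply hmod _ _ _ (by positivity) (by exact_mod_cast hzy)
      have h9 : (z : ℤ) = a * b + c - k * y := by
        have : (k * y + z : ℤ) = a * b + c := by exact_mod_cast h5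
        linarith
      rw [h9, Int.sub_mul_emod_self_right, a4, b4, c4, Int.add_emod, ← Int.mul_emod,
        Int.emod_emod_of_dvd _ (dvd_refl _), ← Int.add_emod]

theorem Snd.step : Snd N (mkt N (PM80.step N w)) v := by
  have N0 : 0 < N := by omega
  have e : ∀ {r x y z : ℕ}, r < 20 → x < N → y < N → z < N →
      (lk N (mkt N (PM80.step N w)) r x y z ↔ PM80.step N w r x y z) :=
    fun hr hx hy hz => lk_mkt hr hx hy hz
  refine ⟨?_, ?_, ?_, ?_, ?_, ?_, ?_, ?_, ?_, ?_, ?_, ?_, ?_, ?_, ?_, ?_, ?_, ?_, ?_, ?_⟩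
  · intro x hx y hy z hz hl
    rw [e (by norm_num) hx hy hz, step0] at hl
    rcases hl with hl | hl
    · exact hw.h0 _ hx _ hy _ hz hl
    · rcases hl with ⟨rfl, rfl⟩ | ⟨y', hy', z', hz', rfl, rfl, h⟩
      · rfl
      · rw [hw.h0 _ hx _ hy' _ hz' h, pow_succ]
        ring
  · intro x hx y hy z hz hl
    rw [e (by norm_num) hx hy hz, step1] at hl
    rcases hl with hl | hl
    · exact hw.h1 _ hx _ hy _ hz hl
    · exact mod_sound (fun y hy z hz h => hw.h1 _ hx _ hy _ hz h) hl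
  · intro x hx y hy z hz hl
    rw [e (by norm_num) hx hy hz, step2] at hl
    rcases hl with hl | hl
    · exact hw.h2 _ hx _ hy _ hz hl
    · exact mod_sound (fun y hy z hz h => hw.h2 _ hx _ hy _ hz h) hl
  · intro x hx y hy z hz hl
    rw [e (by norm_num) hx hy hz, step3] at hl
    rcases hl with hl | hl
    · exact hw.h3 _ hx _ hy _ hz hl
    · rcases hl with ⟨rfl, rfl⟩ | ⟨u, hu, t, ht, s, hs, s', hs', q, hq, h1, h2, h3, h4, rfl⟩ |
        ⟨p, hp, q, hq, t, ht, s, hs, s', hs', s'', hs'', e1, he1, e2, he2, h1, h2, h3, h4, h5,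
          h6, rfl⟩
      · exact ⟨Z, rfl, rfl⟩
      · obtain ⟨a, rfl, rfl⟩ := hw.h3 _ hu _ hs _ N0 h1
        obtain ⟨c, rfl, rfl⟩ := hw.h3 _ ht _ hs' _ N0 h2
        have h5 := hw.h0 _ (by omega) _ hs _ hq h3
        rcases h4 with h4 | h4
        · exact ⟨A false a c, by simp only [code, dg, h4, h5], by simp only [sz]⟩
        · exact ⟨A true a c, by simp only [code, dg, h4, h5], by simp only [sz]⟩
      · obtain ⟨a, rfl, rfl⟩ := hw.h3 _ hp _ hs _ N0 h1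
        obtain ⟨b, rfl, rfl⟩ := hw.h3 _ hq _ hs' _ N0 h2
        obtain ⟨c, rfl, rfl⟩ := hw.h3 _ ht _ hs'' _ N0 h3
        have h7 := hw.h0 _ (by omega) _ hs _ he1 h4
        have h8 := hw.h0 _ (by omega) _ hs' _ he2 h5
        exact ⟨P a b c, by simp only [code, h6, h7, h8], by simp only [sz]⟩
  · intro x hx y hy z hz hl
    rw [e (by norm_num) hx hy hz, step4] at hl
    rcases hl with hl | hl
    · exact hw.h4 _ hx _ hy _ hz hl
    · rcases hl with ⟨rfl, h1, h2⟩ | ⟨u, hu, v', hv, a, ha, h1, rfl, h2, h3, h4⟩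
      · obtain ⟨p, q, rfl, p2, p3⟩ := hw.h7 _ hx _ (by omega) _ N0 h1
        obtain rfl : q = Z := code_inj (p2.trans rfl)
        have h3 := g7 hw (t := Z) (t' := p) (by omega) hx N0 h2
        refine ⟨p, rfl, ?_⟩
        rw [rv] at p3 h3
        push_cast
        linarith
      · obtain ⟨b, rfl, b2⟩ := hw.h4 _ hu _ ha _ N0 h1
        obtain ⟨p, q, p1, p2, rfl⟩ := AA3 hN hw (by omega) hu h2
        obtain rfl : p = Z := code_inj (p1.trans rfl)
        obtain rfl : q = b := code_inj p2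
        obtain ⟨r, s, rfl, r2, r3⟩ := hw.h7 _ hx _ hv _ N0 h3
        obtain rfl := code_inj r2
        have h5 := g7 hw hv hx N0 h4
        refine ⟨r, rfl, ?_⟩
        have hr : rv (A false Z q) = rv q + 1 := rv_inc q
        rw [hr, b2] at r3 h5
        push_cast
        linarith
  · intro x hx y hy z hz hl
    rw [e (by norm_num) hx hy hz, step5] at hl
    rcases hl with hl | hl
    · exact hw.h5 _ hx _ hy _ hz hl
    · exact rs_sound hN hw hx hy hz hl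
  · intro x hx y hy z hz hl
    rw [e (by norm_num) hx hy hz, step6] at hl
    rcases hl with hl | hl
    · exact hw.h6 _ hx _ hy _ hz hl
    · rcases hl with ⟨rfl, rfl, s, hs, h1⟩ | ⟨u, hu, t, ht, t', ht', h1, h2⟩ |
        ⟨p, hp, q, hq, t, ht, t', ht', h1, h2, h3⟩
      · obtain ⟨t, t1, -⟩ := hw.h3 _ hy _ hs _ N0 h1
        exact ⟨Z, t, rfl, t1, t1⟩
      · obtain ⟨a, c, rfl, rfl, rfl⟩ := hw.h6 _ ht _ hy _ ht' h2
        rcases h1 with ⟨h3, h4⟩ | ⟨h3, h4⟩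
        · obtain ⟨p, q, rfl, p2, rfl⟩ := AA3 hN hw hu ht h3
          obtain rfl := code_inj p2
          obtain ⟨p', q', p1', p2', rfl⟩ := AA3 hN hw hu ht' h4
          obtain rfl := code_inj p1'
          obtain rfl := code_inj p2'
          exact ⟨_, c, rfl, rfl, rfl⟩
        · obtain ⟨p, q, rfl, p2, rfl⟩ := AA4 hN hw hu ht h3
          obtain rfl := code_inj p2
          obtain ⟨p', q', p1', p2', rfl⟩ := AA4 hN hw hu ht' h4
          obtain rfl := code_inj p1'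
          obtain rfl := code_inj p2'
          exact ⟨_, c, rfl, rfl, rfl⟩
      · obtain ⟨a, c, rfl, rfl, rfl⟩ := hw.h6 _ ht _ hy _ ht' h3
        obtain ⟨p, q, t, rfl, rfl, p2, rfl⟩ := PP_sound hN hw hp hq ht h1
        obtain rfl := code_inj p2
        obtain ⟨p', q', t', p1', p2', p3', rfl⟩ := PP_sound hN hw hp hq ht' h2
        obtain rfl := code_inj p1'
        obtain rfl := code_inj p2'
        obtain rfl := code_inj p3'
        exact ⟨_, c, rfl, rfl, rfl⟩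
  · intro x hx y hy z hz hl
    rw [e (by norm_num) hx hy hz, step7] at hl
    rcases hl with hl | hl
    · exact hw.h7 _ hx _ hy _ hz hl
    · obtain ⟨t, t', h1, h2, h3, h4⟩ := cp_sound hN hw hx hy hl
      have h5 := g15 hw h3 N0 N0 h4
      rw [rv_cat, rv_neg] at h5
      exact ⟨t, t', h1, h2, by linarith⟩
  · intro x hx
    rw [e (by norm_num) hx N0 N0, step8]
    exact hw.h8 _ hx
  · intro x hx y hy z hz hl
    rw [e (by norm_num) hx hy hz, step9] at hl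
    rcases hl with hl | hl
    · exact hw.h9 _ hx _ hy _ hz hl
    · rcases hl with rfl | ⟨u, hu, t, ht, h1, h2, h3, h4⟩ | ⟨p, hp, q, hq, t, ht, h1, h2, h3, h4⟩
      · exact ⟨Z, rfl, trivial⟩
      · have key : ∀ b, AA N w (dg b) x u t → ∃ t : Pt, t.code = x ∧ t.Ok := by
          intro b h1
          obtain ⟨r, s, rfl, rfl, rfl⟩ := AA_sound hN hw hu ht h1
          have a1 := g9 hw hu N0 N0 h2
          have a2 := g9 hw ht N0 N0 h4
          have a3 := g7 hw (t' := Z) hu (by simp only [code]; omega) N0 h3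
          rw [rv] at a3
          exact ⟨_, rfl, a1, a3, a2⟩
        rcases h1 with h1 | h1
        · exact key false h1
        · exact key true h1
      · obtain ⟨a, b, c, rfl, rfl, rfl, rfl⟩ := PP_sound hN hw hp hq ht h1
        exact ⟨_, rfl, g9 hw hp N0 N0 h2, g9 hw hq N0 N0 h3, g9 hw ht N0 N0 h4⟩
  · intro x hx y hy z hz hl
    rw [e (by norm_num) hx hy hz, step10] at hl
    rcases hl with hl | hl
    · exact hw.h10 _ hx _ hy _ hz hl
    · rcases hl with ⟨rfl, rfl⟩ | ⟨u, hu, t, ht, t', ht', h1, h2⟩ |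
        ⟨p, hp, p', hp', q, hq, t, ht, t', ht', h1, h2, h3, h4⟩
      · exact ⟨Z, rfl, rfl⟩
      · obtain ⟨a, rfl, rfl⟩ := hw.h10 _ ht _ ht' _ N0 h1
        rcases h2 with ⟨h3, h4⟩ | ⟨h3, h4⟩
        · obtain ⟨p, q, rfl, p2, rfl⟩ := AA3 hN hw hu ht h3
          obtain rfl := code_inj p2
          obtain ⟨p', q', p1', p2', rfl⟩ := AA4 hN hw hu ht' h4
          obtain rfl := code_inj p1'
          obtain rfl := code_inj p2'
          exact ⟨_, rfl, rfl⟩
        · obtain ⟨p, q, rfl, p2, rfl⟩ := AA4 hN hw hu ht h3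
          obtain rfl := code_inj p2
          obtain ⟨p', q', p1', p2', rfl⟩ := AA3 hN hw hu ht' h4
          obtain rfl := code_inj p1'
          obtain rfl := code_inj p2'
          exact ⟨_, rfl, rfl⟩
      · obtain ⟨a, rfl, rfl⟩ := hw.h10 _ hp _ hp' _ N0 h1
        obtain ⟨c, rfl, rfl⟩ := hw.h10 _ ht _ ht' _ N0 h2
        obtain ⟨p, q, t, p1, rfl, p2, rfl⟩ := PP_sound hN hw hp hq ht h3
        obtain rfl := code_inj p1
        obtain rfl := code_inj p2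
        obtain ⟨p', q', t', p1', p2', p3', rfl⟩ := PP_sound hN hw hp' hq ht' h4
        obtain rfl := code_inj p1'
        obtain rfl := code_inj p2'
        obtain rfl := code_inj p3'
        exact ⟨_, rfl, rfl⟩
  · intro x hx y hy z hz hl
    rw [e (by norm_num) hx hy hz, step11] at hl
    rcases hl with hl | hl
    · exact hw.h11 _ hx _ hy _ hz hl
    · rcases hl with ⟨rfl, rfl⟩ | ⟨u, hu, t, ht, n, hn, h1, h2, rfl⟩ |
        ⟨p, hp, q, hq, t, ht, a, ha, b, hb, n, hn, h1, h2, h3, h4, rfl⟩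
      · exact ⟨Z, rfl, rfl⟩
      · have key : ∀ b, AA N w (dg b) x u t → ∃ t : Pt, t.code = x ∧ cnt t = n + 1 := by
          intro b h1
          obtain ⟨r, s, rfl, rfl, rfl⟩ := AA_sound hN hw hu ht h1
          have a1 := g11 hw ht hn N0 h2
          exact ⟨_, rfl, by rw [cnt, a1]⟩
        rcases h1 with h1 | h1
        · exact key false h1
        · exact key true h1
      · obtain ⟨tp, tq, tt, rfl, rfl, rfl, rfl⟩ := PP_sound hN hw hp hq ht h1
        have a1 := g11 hw hp ha N0 h2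
        have a2 := g11 hw hq hb N0 h3
        have a3 := g11 hw ht hn N0 h4
        exact ⟨_, rfl, by rw [cnt, a1, a2, a3]⟩
  · intro x hx y hy z hz hl
    rw [e (by norm_num) hx hy hz, step12] at hl
    rcases hl with hl | hl
    · exact hw.h12 _ hx _ hy _ hz hl
    · exact it_sound hN hw (b := false) hx hy hz hw.h12 hw.h13 hl
  · intro x hx y hy z hz hl
    rw [e (by norm_num) hx hy hz, step13] at hl
    rcases hl with hl | hl
    · exact hw.h13 _ hx _ hy _ hz hl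
    · exact it_sound hN hw (b := true) hx hy hz hw.h13 hw.h12 hl
  · intro x hx y hy z hz hl
    rw [e (by norm_num) hx hy hz, step14] at hl
    rcases hl with hl | hl
    · exact hw.h14 _ hx _ hy _ hz hl
    · obtain ⟨t, t', h1, h2, h3, h4⟩ := cp_sound hN hw hx hy hl
      have h5 := g16 hw h3 N0 N0 h4
      rw [rv_cat, rv_neg] at h5
      exact ⟨t, t', h1, h2, by linarith⟩
  · intro x hx y hy z hz hl
    rw [e (by norm_num) hx hy hz, step15] at hl
    rcases hl with hl | hl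
    · exact hw.h15 _ hx _ hy _ hz hl
    · exact nn_sound hN hw hx hl
  · intro x hx y hy z hz hl
    rw [e (by norm_num) hx hy hz, step16] at hl
    rcases hl with hl | hl
    · exact hw.h16 _ hx _ hy _ hz hl
    · exact ne_sound hN hw hx hl
  · intro x hx y hy z hz hl
    rw [e (by norm_num) hx hy hz, step17] at hl
    rcases hl with hl | hl
    · exact hw.h17 _ hx _ hy _ hz hl
    · rcases hl with ⟨rfl, rfl, s, hs, h⟩ | ⟨d', hd', v', hv', rfl, h1, h2⟩
      · obtain ⟨t, h1, -⟩ := hw.h3 _ hx _ hs _ N0 h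
        exact ⟨t, h1, h1⟩
      · obtain ⟨t, rfl, rfl⟩ := hw.h17 _ hx _ hd' _ hv' h1
        obtain ⟨p, q, p1, p2, rfl⟩ := AA3 hN hw (by omega) hv' h2
        obtain rfl : p = Z := code_inj (p1.trans rfl)
        obtain rfl := code_inj p2
        exact ⟨t, rfl, rfl⟩
  · intro x hx y hy z hz hl
    rw [e (by norm_num) hx hy hz, step18] at hl
    rcases hl with hl | hl
    · exact hw.h18 _ hx _ hy _ hz hl
    · exact ac_sound hN hw (τ := false) hx hw.h12 hw.h13 hw.h18 hw.h19 hl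
  · intro x hx y hy z hz hl
    rw [e (by norm_num) hx hy hz, step19] at hl
    rcases hl with hl | hl
    · exact hw.h19 _ hx _ hy _ hz hl
    · exact ac_sound hN hw (τ := true) hx hw.h13 hw.h12 hw.h19 hw.h18 hl

end sound

theorem snd_init {N : ℕ} (hN : 64 ≤ N) (v : List Bool) : Snd N (mkt N (init v)) v := by
  have e : ∀ {r x y z : ℕ}, r < 20 → x < N → y < N → z < N →
      (lk N (mkt N (init v)) r x y z ↔ init v r x y z) :=
    fun hr hx hy hz => lk_mkt hr hx hy hz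
  have no : ∀ {r x y z : ℕ}, r < 20 → r ≠ 8 → x < N → y < N → z < N →
      ¬ lk N (mkt N (init v)) r x y z := by
    intro r x y z hr hr8 hx hy hz h
    rw [e hr hx hy hz] at h
    exact hr8 h.1
  refine ⟨?_, ?_, ?_, ?_, ?_, ?_, ?_, ?_, ?_, ?_, ?_, ?_, ?_, ?_, ?_, ?_, ?_, ?_, ?_, ?_⟩
  case refine_9 =>
    intro x hx
    rw [e (by norm_num) hx (by omega) (by omega)]
    simp [init]
  all_goals
    intro x hx y hy z hz h
    exact absurd h (no (by norm_num) (by norm_num) hx hy hz)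

end PM80
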