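import Pool.Agent.PM80.Items
import Pool.Agent.PT21.Defs
import Pool.Agent.PTL.Fix

/-!
# Tables: rules and their complexity
-/

set_option autoImplicit false

namespace PM80

open Pool.Agent.PTL

/-- The bounds of the table. -/
def bds (N : ℕ) : List ℕ := [20, N, N, N]

/-- An entry of the table. -/
def lk (N : ℕ) (w : List Bool) (r x y z : ℕ) : Prop :=
  w.getD (idx (bds N) [r, x, y, z]) false = true

/-- A relation of four numbers, as a relation of lists. -/
def app4 (ψ : ℕ → ℕ → ℕ → ℕ → Prop) : List ℕ → Prop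
  | [r, x, y, z] => ψ r x y z
  | _ => False

open Classical in
/-- The table of a relation. -/
noncomputable def mkt (N : ℕ) (ψ : ℕ → ℕ → ℕ → ℕ → Prop) : List Bool :=
  tbl (bds N) fun l => decide (app4 ψ l)

/-- Length of the table. -/
def len (N : ℕ) : ℕ := (bds N).prod

theorem len_eq (N : ℕ) : len N = 20 * N ^ 3 := by
  simp only [len, bds, List.prod_cons, List.prod_nil]
  ring

theorem len_mono : StrictMono len := by
  intro a b h
  rw [len_eq, len_eq]
  have := Nat.pow_lt_pow_left h (n := 3) (by norm_num)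
  omega

theorem isE_len (k : ℕ) (N : (ℕ → ℕ) → ℕ) (hN : IsE k N) : IsE k (fun env => len (N env)) := by
  have : (fun env : ℕ → ℕ => len (N env)) = fun env => 20 * N env ^ 3 := by
    funext env
    exact len_eq _
  rw [this]
  exact (IsE.const 20).mul (hN.pow 3)

theorem mkt_length (N : ℕ) (ψ : ℕ → ℕ → ℕ → ℕ → Prop) : (mkt N ψ).length = len N :=
  tbl_length _ _

theorem lk_mkt {N : ℕ} {ψ : ℕ → ℕ → ℕ → ℕ → Prop} {r x y z : ℕ} (hr : r < 20)
    (hx : x < N) (hy : y < N) (hz : z < N) : lk N (mkt N ψ) r x y z ↔ ψ r x y z := by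
  unfold lk mkt
  rw [tbl_getD (bds N) [r, x, y, z] _ ⟨hr, hx, hy, hz, trivial⟩]
  simp [app4]

theorem isP_mkt {k : ℕ} {N : (ℕ → ℕ) → ℕ} (hN : IsE k N)
    {ψ : ℕ → List Bool → ℕ → ℕ → ℕ → ℕ → Prop}
    (hψ : ∀ k (N r x y z : (ℕ → ℕ) → ℕ), IsE k N → IsE k r → IsE k x → IsE k y → IsE k z →
      IsT k (fun w env => ψ (N env) w (r env) (x env) (y env) (z env))) :
    IsP k (fun w env => mkt (N env) (ψ (N env) w)) := by
  refine IsP.tbl [fun _ => 20, N, N, N] k (by simp [hN, IsE.const])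
    (φ := fun w env l => app4 (ψ (N env) w) l) fun k' hk ys hys hy => ?_
  match ys, hys with
  | [y1, y2, y3, y4], _ =>
    exact hψ k' N y1 y2 y3 y4 (hN.mono hk) (hy _ (by simp)) (hy _ (by simp)) (hy _ (by simp))
      (hy _ (by simp))

theorem exists_step {ψ : ℕ → List Bool → ℕ → ℕ → ℕ → ℕ → Prop}
    (hψ : ∀ k (N r x y z : (ℕ → ℕ) → ℕ), IsE k N → IsE k r → IsE k x → IsE k y → IsE k z →
      IsT k (fun w env => ψ (N env) w (r env) (x env) (y env) (z env))) :
    ∃ F, PTC F ∧ (∀ w N, w.length = len N → F w = mkt N (ψ N w)) ∧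
      ∀ w, (∀ N, w.length ≠ len N) → F w = [] :=
  PTC.ofLen isE_len len_mono (F := fun w N => mkt N (ψ N w)) fun _ _ hN => isP_mkt hN hψ

/-- An increasing step with its fixed point. -/
theorem exists_fix {ψ : ℕ → List Bool → ℕ → ℕ → ℕ → ℕ → Prop}
    (hψ : ∀ k (N r x y z : (ℕ → ℕ) → ℕ), IsE k N → IsE k r → IsE k x → IsE k y → IsE k z →
      IsT k (fun w env => ψ (N env) w (r env) (x env) (y env) (z env)))
    (hinc : ∀ N w r x y z, lk N w r x y z → ψ N w r x y z) :
    ∃ H, PTC H ∧ ∀ N ψ₀, ∃ (n : ℕ) (x : ℕ → List Bool), x 0 = mkt N ψ₀ ∧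
      (∀ i, x (i + 1) = mkt N (ψ N (x i))) ∧ H (mkt N ψ₀) = x n ∧ x (n + 1) = x n := by
  classical
  obtain ⟨F, hF, hF1, hF2⟩ := exists_step hψ
  have hlen : ∀ w, (F w).length ≤ w.length := by
    intro w
    by_cases h : ∃ N, w.length = len N
    · obtain ⟨N, hN⟩ := h
      rw [hF1 w N hN, mkt_length, hN]
    · push Not at h
      rw [hF2 w h]
      simp
  refine ⟨_, PTC.iter hF hlen hF, fun N ψ₀ => ?_⟩
  set x : ℕ → List Bool := fun i => F^[i] (mkt N ψ₀) with hxdef
  have hx0 : x 0 = mkt N ψ₀ := rfl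
  have hxs : ∀ i, x (i + 1) = F (x i) := fun i => Function.iterate_succ_apply' F i _
  have hxl : ∀ i, (x i).length = len N := by
    intro i
    induction i with
    | zero => exact mkt_length _ _
    | succ i ih => rw [hxs, hF1 _ N ih, mkt_length]
  have hx1 : ∀ i, x (i + 1) = mkt N (ψ N (x i)) := fun i => by rw [hxs, hF1 _ N (hxl i)]
  have hform : ∀ i, ∃ f : List ℕ → Bool, x i = tbl (bds N) f := by
    intro i
    cases i with
    | zero => exact ⟨_, hx0⟩
    | succ i => exact ⟨_, hx1 i⟩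
  have hup : ∀ i, Up (x i) (x (i + 1)) := by
    intro i
    obtain ⟨f, hf⟩ := hform i
    rw [hx1 i]
    have : x i = tbl (bds N) f := hf
    rw [this]
    apply up_tbl
    intro l hl hfl
    match l, hl with
    | [r, a, b, c], hl =>
      simp only [app4, decide_eq_true_eq]
      apply hinc
      unfold lk
      rw [tbl_getD _ _ _ hl]
      exact hfl
  have hfix := fixed_of_up hxs hup hxl
  have hF0 : (F (mkt N ψ₀)).length = len N := by
    have := hxl 1
    rwa [hxs, hx0] at this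
  refine ⟨len N, x, hx0, hx1, ?_, ?_⟩
  · show F^[(F (mkt N ψ₀)).length] (mkt N ψ₀) = x (len N)
    rw [hF0]
  · rw [hxs, hfix]

section rules

variable (N : ℕ) (w : List Bool)

/-- `x` is the code of an exponential with digit `d`, exponent `u` and rest `t`. -/
def AA (d x u t : ℕ) : Prop :=
  ∃ s < N, ∃ s' < N, ∃ q < N, lk N w 3 u s 0 ∧ lk N w 3 t s' 0 ∧ lk N w 0 8 s q ∧
    x = d + 8 * (u + q * t)

/-- `x` is the code of a product with factors `p`, `q` and rest `t`. -/
def PP (x p q t : ℕ) : Prop :=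
  ∃ s < N, ∃ s' < N, ∃ s'' < N, ∃ e < N, ∃ e' < N, lk N w 3 p s 0 ∧ lk N w 3 q s' 0 ∧
    lk N w 3 t s'' 0 ∧ lk N w 0 8 s e ∧ lk N w 0 8 s' e' ∧ x = 5 + 8 * (p + e * (q + e' * t))

/-- Powers. -/
def rPow (x y z : ℕ) : Prop :=
  (y = 0 ∧ z = 1) ∨ ∃ y' < N, ∃ z' < N, y = y' + 1 ∧ z = x * z' ∧ lk N w 0 x y' z'

/-- Powers modulo a number. -/
def rMod (r b x y z : ℕ) : Prop :=
  (0 < x ∧ z < x) ∧ ((y = 0 ∧ ∃ q < N, q * x + z = 1) ∨
    ∃ y' < N, ∃ z' < N, ∃ q < N, y = y' + 1 ∧ q * x + z = b * z' ∧ lk N w r x y' z')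

/-- Codes and sizes. -/
def rTm (x y : ℕ) : Prop :=
  (x = 1 ∧ y = 1) ∨
  (∃ u < N, ∃ t < N, ∃ s < N, ∃ s' < N, ∃ q < N, lk N w 3 u s 0 ∧ lk N w 3 t s' 0 ∧
    lk N w 0 8 s q ∧ (x = 3 + 8 * (u + q * t) ∨ x = 4 + 8 * (u + q * t)) ∧ y = s + s' + 1) ∨
  (∃ p < N, ∃ q < N, ∃ t < N, ∃ s < N, ∃ s' < N, ∃ s'' < N, ∃ e < N, ∃ e' < N,
    lk N w 3 p s 0 ∧ lk N w 3 q s' 0 ∧ lk N w 3 t s'' 0 ∧ lk N w 0 8 s e ∧ lk N w 0 8 s' e' ∧
    x = 5 + 8 * (p + e * (q + e' * t)) ∧ y = s + s' + s'' + 1)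

/-- Codes and exact values. -/
def rVl (x y : ℕ) : Prop :=
  (y = 0 ∧ lk N w 7 x 1 0 ∧ lk N w 7 1 x 0) ∨
  (∃ u < N, ∃ v < N, ∃ a < N, lk N w 4 u a 0 ∧ y = a + 1 ∧ AA N w 3 v 1 u ∧ lk N w 7 x v 0 ∧
    lk N w 7 v x 0)

/-- Residues of small terms. -/
def rRs (x y z : ℕ) : Prop :=
  (0 < y ∧ z < y) ∧ ((x = 1 ∧ z = 0) ∨
  (∃ u < N, ∃ t < N, ∃ a < N, ∃ p < N, ∃ z' < N, ∃ q < N,
    lk N w 1 y a p ∧ a * a * (a * a) < N ∧ lk N w 4 u a 0 ∧ lk N w 5 t y z' ∧
    ((AA N w 3 x u t ∧ q * y + z = p + z') ∨ (AA N w 4 x u t ∧ q * y + z' = p + z))) ∨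
  (∃ p < N, ∃ q < N, ∃ t < N, ∃ a < N, ∃ b < N, ∃ c < N, ∃ k < N,
    PP N w x p q t ∧ lk N w 5 p y a ∧ lk N w 5 q y b ∧ lk N w 5 t y c ∧
    k * y + z = a * b + c))

/-- Concatenation. -/
def rCt (x y z : ℕ) : Prop :=
  (x = 1 ∧ y = z ∧ ∃ s < N, lk N w 3 y s 0) ∨
  (∃ u < N, ∃ t < N, ∃ v < N, ((AA N w 3 x u t ∧ AA N w 3 z u v) ∨
    (AA N w 4 x u t ∧ AA N w 4 z u v)) ∧ lk N w 6 t y v) ∨
  (∃ p < N, ∃ q < N, ∃ t < N, ∃ v < N, PP N w x p q t ∧ PP N w z p q v ∧ lk N w 6 t y v)

/-- The two digits. -/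
def isD (d : ℕ) : Prop := d = 3 ∨ d = 4

/-- Comparison by the sign of the difference. -/
def rCp (r x y : ℕ) : Prop := ∃ n < N, ∃ v < N, lk N w 10 y n 0 ∧ lk N w 6 x n v ∧ lk N w r v 0 0

/-- Codes of valid terms. -/
def rOk (x : ℕ) : Prop :=
  x = 1 ∨ (∃ u < N, ∃ t < N, (AA N w 3 x u t ∨ AA N w 4 x u t) ∧ lk N w 9 u 0 0 ∧
    lk N w 7 u 1 0 ∧ lk N w 9 t 0 0) ∨
  (∃ p < N, ∃ q < N, ∃ t < N, PP N w x p q t ∧ lk N w 9 p 0 0 ∧ lk N w 9 q 0 0 ∧
    lk N w 9 t 0 0)

/-- Opposite. -/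
def rNg (x y : ℕ) : Prop :=
  (x = 1 ∧ y = 1) ∨ (∃ u < N, ∃ t < N, ∃ t' < N, lk N w 10 t t' 0 ∧
    ((AA N w 3 x u t ∧ AA N w 4 y u t') ∨ (AA N w 4 x u t ∧ AA N w 3 y u t'))) ∨
  (∃ p < N, ∃ p' < N, ∃ q < N, ∃ t < N, ∃ t' < N, lk N w 10 p p' 0 ∧ lk N w 10 t t' 0 ∧
    PP N w x p q t ∧ PP N w y p' q t')

/-- Number of items. -/
def rCn (x m : ℕ) : Prop :=
  (x = 1 ∧ m = 0) ∨
  (∃ u < N, ∃ t < N, ∃ n < N, (AA N w 3 x u t ∨ AA N w 4 x u t) ∧ lk N w 11 t n 0 ∧
    m = n + 1) ∨
  (∃ p < N, ∃ q < N, ∃ t < N, ∃ a < N, ∃ b < N, ∃ n < N, PP N w x p q t ∧ lk N w 11 p a 0 ∧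
    lk N w 11 q b 0 ∧ lk N w 11 t n 0 ∧ m = a * b + n)

/-- Items. -/
def rIt (r r' d x i u : ℕ) : Prop :=
  (i = 0 ∧ ∃ t < N, AA N w d x u t) ∨
  (∃ d' < N, ∃ v < N, ∃ t < N, ∃ j < N, isD d' ∧ AA N w d' x v t ∧ i = j + 1 ∧
    lk N w r t j u) ∨
  (∃ p < N, ∃ q < N, ∃ t < N, ∃ a < N, ∃ b < N, PP N w x p q t ∧ lk N w 11 p a 0 ∧
    lk N w 11 q b 0 ∧
    ((∃ j < a, ∃ k < b, ∃ y < N, ∃ z < N, i = j * b + k ∧ lk N w 6 y z u ∧
      ((lk N w 12 p j y ∧ lk N w r q k z) ∨ (lk N w 13 p j y ∧ lk N w r' q k z))) ∨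
    (∃ j < N, i = a * b + j ∧ lk N w r t j u)))

/-- Iterated successors. -/
def rIc (x d v : ℕ) : Prop :=
  (d = 0 ∧ v = x ∧ ∃ s < N, lk N w 3 x s 0) ∨
  (∃ d' < N, ∃ v' < N, d = d' + 1 ∧ lk N w 17 x d' v' ∧ AA N w 3 v 1 v')

/-- The item `k` with exponent `y` comes before the item `i` with exponent `u`. -/
def bef (k y i u : ℕ) : Prop :=
  lk N w 14 u y 0 ∨ (lk N w 7 y u 0 ∧ lk N w 7 u y 0 ∧ k < i)

/-- An item of any sign. -/
def Im (c i u : ℕ) : Prop := lk N w 12 c i u ∨ lk N w 13 c i u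

/-- The first item. -/
def fsti (c m i u : ℕ) : Prop := ∀ k < m, k = i ∨ ∃ y < N, Im N w c k y ∧ bef N w i u k y

/-- The item `i` comes immediately after the item `j`. -/
def nxti (c m j v i u : ℕ) : Prop :=
  bef N w j v i u ∧
    ∀ k < m, k = i ∨ k = j ∨ ∃ y < N, Im N w c k y ∧ (bef N w k y j v ∨ bef N w i u k y)

/-- The last item. -/
def lsti (c m i u : ℕ) : Prop := ∀ k < m, k = i ∨ ∃ y < N, Im N w c k y ∧ bef N w k y i u

/-- Accumulated values, exact shift. -/
def shs (r r' o o' c j i u v a b q : ℕ) : Prop :=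
  ∃ d < N, ∃ e < N, ∃ z < N, lk N w 0 2 d e ∧ lk N w 17 u d z ∧ lk N w 7 v z 0 ∧
    lk N w 7 z v 0 ∧
    ((lk N w r c i u ∧ lk N w o c j a ∧ ((a * e < q ∧ b = a * e + 1) ∨
      (q < a * e + 2 ∧ b = q))) ∨
    (lk N w r' c i u ∧ lk N w o c j a ∧ ((a * e = b + 1 ∧ b < q + 1) ∨
      (q < a * e ∧ b = q))) ∨
    (lk N w r c i u ∧ lk N w o' c j a ∧ a = 0 ∧ b = 1))

/-- Accumulated values, large shift. -/
def shl (r r' o o' c j i u v a b q g : ℕ) : Prop :=
  ∃ z < N, lk N w 17 u g z ∧ lk N w 7 v z 0 ∧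
    (((lk N w r c i u ∨ lk N w r' c i u) ∧ lk N w o c j a ∧ 0 < a ∧ b + 1 = q) ∨
    (lk N w r c i u ∧ (lk N w o c j a ∨ lk N w o' c j a) ∧ a = 0 ∧ b = 1))

/-- Accumulated values. -/
def rAc (r r' o o' c i b : ℕ) : Prop :=
  ∃ m < N, ∃ q < N, ∃ g < N, ∃ u < N, lk N w 11 c m 0 ∧ i < m ∧ lk N w 0 2 g q ∧ m < q ∧
    q < 2 * m + 2 ∧
    ((lk N w r c i u ∧ fsti N w c m i u ∧ b = 1) ∨
    (∃ j < m, ∃ v < N, ∃ a < N, Im N w c j v ∧ nxti N w c m j v i u ∧
      (shs N w r r' o o' c j i u v a b q ∨ shl N w r r' o o' c j i u v a b q g)))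

/-- Nonnegative values. -/
def rNn (c : ℕ) : Prop :=
  lk N w 11 c 0 0 ∨ ∃ m < N, ∃ i < m, ∃ u < N, lk N w 11 c m 0 ∧ Im N w c i u ∧
    lsti N w c m i u ∧ ((∃ a < N, lk N w 18 c i a) ∨ lk N w 19 c i 0)

/-- Negative values. -/
def rNe (c : ℕ) : Prop :=
  ∃ m < N, ∃ i < m, ∃ u < N, ∃ a < N, lk N w 11 c m 0 ∧ Im N w c i u ∧ lsti N w c m i u ∧
    0 < a ∧ lk N w 19 c i a

/-- The step. -/
def step (r x y z : ℕ) : Prop :=
  lk N w r x y z ∨ (r = 0 ∧ rPow N w x y z) ∨ (r = 1 ∧ rMod N w 1 2 x y z) ∨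
  (r = 2 ∧ rMod N w 2 3 x y z) ∨ (r = 3 ∧ rTm N w x y) ∨ (r = 4 ∧ rVl N w x y) ∨
  (r = 5 ∧ rRs N w x y z) ∨ (r = 6 ∧ rCt N w x y z) ∨ (r = 7 ∧ rCp N w 15 x y) ∨
  (r = 9 ∧ rOk N w x) ∨ (r = 10 ∧ rNg N w x y) ∨ (r = 11 ∧ rCn N w x y) ∨
  (r = 12 ∧ rIt N w 12 13 3 x y z) ∨ (r = 13 ∧ rIt N w 13 12 4 x y z) ∨
  (r = 14 ∧ rCp N w 16 x y) ∨ (r = 15 ∧ rNn N w x) ∨ (r = 16 ∧ rNe N w x) ∨
  (r = 17 ∧ rIc N w x y z) ∨ (r = 18 ∧ rAc N w 12 13 18 19 x y z) ∨
  (r = 19 ∧ rAc N w 13 12 19 18 x y z)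

end rules

section steps

variable {N : ℕ} {w : List Bool} {x y z : ℕ}

theorem step0 : step N w 0 x y z ↔ lk N w 0 x y z ∨ rPow N w x y z := by simp [step]
theorem step1 : step N w 1 x y z ↔ lk N w 1 x y z ∨ rMod N w 1 2 x y z := by simp [step]
theorem step2 : step N w 2 x y z ↔ lk N w 2 x y z ∨ rMod N w 2 3 x y z := by simp [step]
theorem step3 : step N w 3 x y z ↔ lk N w 3 x y z ∨ rTm N w x y := by simp [step]
theorem step4 : step N w 4 x y z ↔ lk N w 4 x y z ∨ rVl N w x y := by simp [step]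
theorem step5 : step N w 5 x y z ↔ lk N w 5 x y z ∨ rRs N w x y z := by simp [step]
theorem step6 : step N w 6 x y z ↔ lk N w 6 x y z ∨ rCt N w x y z := by simp [step]
theorem step7 : step N w 7 x y z ↔ lk N w 7 x y z ∨ rCp N w 15 x y := by simp [step]
theorem step8 : step N w 8 x y z ↔ lk N w 8 x y z := by simp [step]
theorem step9 : step N w 9 x y z ↔ lk N w 9 x y z ∨ rOk N w x := by simp [step]
theorem step10 : step N w 10 x y z ↔ lk N w 10 x y z ∨ rNg N w x y := by simp [step]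
theorem step11 : step N w 11 x y z ↔ lk N w 11 x y z ∨ rCn N w x y := by simp [step]
theorem step12 : step N w 12 x y z ↔ lk N w 12 x y z ∨ rIt N w 12 13 3 x y z := by simp [step]
theorem step13 : step N w 13 x y z ↔ lk N w 13 x y z ∨ rIt N w 13 12 4 x y z := by simp [step]
theorem step14 : step N w 14 x y z ↔ lk N w 14 x y z ∨ rCp N w 16 x y := by simp [step]
theorem step15 : step N w 15 x y z ↔ lk N w 15 x y z ∨ rNn N w x := by simp [step]
theorem step16 : step N w 16 x y z ↔ lk N w 16 x y z ∨ rNe N w x := by simp [step]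
theorem step17 : step N w 17 x y z ↔ lk N w 17 x y z ∨ rIc N w x y z := by simp [step]
theorem step18 : step N w 18 x y z ↔ lk N w 18 x y z ∨ rAc N w 12 13 18 19 x y z := by simp [step]
theorem step19 : step N w 19 x y z ↔ lk N w 19 x y z ∨ rAc N w 13 12 19 18 x y z := by simp [step]

end steps

/-- The initial table. -/
def init (v : List Bool) (r x y z : ℕ) : Prop := r = 8 ∧ y = 0 ∧ z = 0 ∧ v.getD x false = true

section tests

theorem isT_lk {k : ℕ} {N r x y z : (ℕ → ℕ) → ℕ} (hN : IsE k N) (hr : IsE k r) (hx : IsE k x)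
    (hy : IsE k y) (hz : IsE k z) :
    IsT k (fun w env => lk (N env) w (r env) (x env) (y env) (z env)) := by
  refine (IsT.bit (f := fun env => r env * (N env * (N env * (N env * 1))) +
    (x env * (N env * (N env * 1)) + (y env * (N env * 1) + (z env * 1 + 0)))) ?_).congr
    fun w env => by simp [lk, idx, bds]
  repeat' first
    | exact IsE.const _
    | (refine IsE.mono ?_ (by assumption); omega)
    | apply IsE.add
    | apply IsE.mul

variable {k : ℕ} {N r r' o o' b d e g h c m i j l n a x y z u v t p q : (ℕ → ℕ) → ℕ}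

theorem isT_AA (hN : IsE k N) (hd : IsE k d) (hx : IsE k x) (hu : IsE k u) (ht : IsE k t) :
    IsT k (fun w env => AA (N env) w (d env) (x env) (u env) (t env)) := by
  unfold AA
  repeat' first
    | exact IsE.const _
    | (refine IsE.mono ?_ (by assumption); omega)
    | apply isT_lk
    | (refine IsT.ex ?_ (fun _ _ _ _ => ?_))
    | (refine IsT.all ?_ (fun _ _ _ _ => ?_))
    | apply IsT.and
    | apply IsT.or
    | apply IsT.imp
    | apply IsT.eq
    | apply IsT.lt
    | apply IsE.add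
    | apply IsE.mul

theorem isT_PP (hN : IsE k N) (hx : IsE k x) (hp : IsE k p) (hq : IsE k q) (ht : IsE k t) :
    IsT k (fun w env => PP (N env) w (x env) (p env) (q env) (t env)) := by
  unfold PP
  repeat' first
    | exact IsE.const _
    | (refine IsE.mono ?_ (by assumption); omega)
    | apply isT_lk
    | (refine IsT.ex ?_ (fun _ _ _ _ => ?_))
    | (refine IsT.all ?_ (fun _ _ _ _ => ?_))
    | apply IsT.and
    | apply IsT.or
    | apply IsT.imp
    | apply IsT.eq
    | apply IsT.lt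
    | apply IsE.add
    | apply IsE.mul

theorem isT_isD (hd : IsE k d) :
    IsT k (fun _ env => isD (d env)) := by
  unfold isD
  repeat' first
    | exact IsE.const _
    | (refine IsE.mono ?_ (by assumption); omega)
    | apply isT_lk
    | (refine IsT.ex ?_ (fun _ _ _ _ => ?_))
    | (refine IsT.all ?_ (fun _ _ _ _ => ?_))
    | apply IsT.and
    | apply IsT.or
    | apply IsT.imp
    | apply IsT.eq
    | apply IsT.lt
    | apply IsE.add
    | apply IsE.mul

theorem isT_rPow (hN : IsE k N) (hx : IsE k x) (hy : IsE k y) (hz : IsE k z) :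
    IsT k (fun w env => rPow (N env) w (x env) (y env) (z env)) := by
  unfold rPow
  repeat' first
    | exact IsE.const _
    | (refine IsE.mono ?_ (by assumption); omega)
    | apply isT_lk
    | (refine IsT.ex ?_ (fun _ _ _ _ => ?_))
    | (refine IsT.all ?_ (fun _ _ _ _ => ?_))
    | apply IsT.and
    | apply IsT.or
    | apply IsT.imp
    | apply IsT.eq
    | apply IsT.lt
    | apply IsE.add
    | apply IsE.mul

theorem isT_rMod (hN : IsE k N) (hr : IsE k r) (hb : IsE k b) (hx : IsE k x) (hy : IsE k y) (hz : IsE k z) :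
    IsT k (fun w env => rMod (N env) w (r env) (b env) (x env) (y env) (z env)) := by
  unfold rMod
  repeat' first
    | exact IsE.const _
    | (refine IsE.mono ?_ (by assumption); omega)
    | apply isT_lk
    | (refine IsT.ex ?_ (fun _ _ _ _ => ?_))
    | (refine IsT.all ?_ (fun _ _ _ _ => ?_))
    | apply IsT.and
    | apply IsT.or
    | apply IsT.imp
    | apply IsT.eq
    | apply IsT.lt
    | apply IsE.add
    | apply IsE.mul

theorem isT_rTm (hN : IsE k N) (hx : IsE k x) (hy : IsE k y) :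
    IsT k (fun w env => rTm (N env) w (x env) (y env)) := by
  unfold rTm
  repeat' first
    | exact IsE.const _
    | (refine IsE.mono ?_ (by assumption); omega)
    | apply isT_lk
    | (refine IsT.ex ?_ (fun _ _ _ _ => ?_))
    | (refine IsT.all ?_ (fun _ _ _ _ => ?_))
    | apply IsT.and
    | apply IsT.or
    | apply IsT.imp
    | apply IsT.eq
    | apply IsT.lt
    | apply IsE.add
    | apply IsE.mul

theorem isT_rVl (hN : IsE k N) (hx : IsE k x) (hy : IsE k y) :
    IsT k (fun w env => rVl (N env) w (x env) (y env)) := by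
  unfold rVl
  repeat' first
    | exact IsE.const _
    | (refine IsE.mono ?_ (by assumption); omega)
    | apply isT_lk
    | apply isT_AA
    | apply isT_PP
    | apply isT_isD
    | (refine IsT.ex ?_ (fun _ _ _ _ => ?_))
    | (refine IsT.all ?_ (fun _ _ _ _ => ?_))
    | apply IsT.and
    | apply IsT.or
    | apply IsT.imp
    | apply IsT.eq
    | apply IsT.lt
    | apply IsE.add
    | apply IsE.mul

theorem isT_rRs (hN : IsE k N) (hx : IsE k x) (hy : IsE k y) (hz : IsE k z) :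
    IsT k (fun w env => rRs (N env) w (x env) (y env) (z env)) := by
  unfold rRs
  repeat' first
    | exact IsE.const _
    | (refine IsE.mono ?_ (by assumption); omega)
    | apply isT_lk
    | apply isT_AA
    | apply isT_PP
    | apply isT_isD
    | (refine IsT.ex ?_ (fun _ _ _ _ => ?_))
    | (refine IsT.all ?_ (fun _ _ _ _ => ?_))
    | apply IsT.and
    | apply IsT.or
    | apply IsT.imp
    | apply IsT.eq
    | apply IsT.lt
    | apply IsE.add
    | apply IsE.mul

theorem isT_rCt (hN : IsE k N) (hx : IsE k x) (hy : IsE k y) (hz : IsE k z) :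
    IsT k (fun w env => rCt (N env) w (x env) (y env) (z env)) := by
  unfold rCt
  repeat' first
    | exact IsE.const _
    | (refine IsE.mono ?_ (by assumption); omega)
    | apply isT_lk
    | apply isT_AA
    | apply isT_PP
    | apply isT_isD
    | (refine IsT.ex ?_ (fun _ _ _ _ => ?_))
    | (refine IsT.all ?_ (fun _ _ _ _ => ?_))
    | apply IsT.and
    | apply IsT.or
    | apply IsT.imp
    | apply IsT.eq
    | apply IsT.lt
    | apply IsE.add
    | apply IsE.mul

theorem isT_rCp (hN : IsE k N) (hr : IsE k r) (hx : IsE k x) (hy : IsE k y) :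
    IsT k (fun w env => rCp (N env) w (r env) (x env) (y env)) := by
  unfold rCp
  repeat' first
    | exact IsE.const _
    | (refine IsE.mono ?_ (by assumption); omega)
    | apply isT_lk
    | apply isT_AA
    | apply isT_PP
    | apply isT_isD
    | (refine IsT.ex ?_ (fun _ _ _ _ => ?_))
    | (refine IsT.all ?_ (fun _ _ _ _ => ?_))
    | apply IsT.and
    | apply IsT.or
    | apply IsT.imp
    | apply IsT.eq
    | apply IsT.lt
    | apply IsE.add
    | apply IsE.mul

theorem isT_rOk (hN : IsE k N) (hx : IsE k x) :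
    IsT k (fun w env => rOk (N env) w (x env)) := by
  unfold rOk
  repeat' first
    | exact IsE.const _
    | (refine IsE.mono ?_ (by assumption); omega)
    | apply isT_lk
    | apply isT_AA
    | apply isT_PP
    | apply isT_isD
    | (refine IsT.ex ?_ (fun _ _ _ _ => ?_))
    | (refine IsT.all ?_ (fun _ _ _ _ => ?_))
    | apply IsT.and
    | apply IsT.or
    | apply IsT.imp
    | apply IsT.eq
    | apply IsT.lt
    | apply IsE.add
    | apply IsE.mul

theorem isT_rNg (hN : IsE k N) (hx : IsE k x) (hy : IsE k y) :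
    IsT k (fun w env => rNg (N env) w (x env) (y env)) := by
  unfold rNg
  repeat' first
    | exact IsE.const _
    | (refine IsE.mono ?_ (by assumption); omega)
    | apply isT_lk
    | apply isT_AA
    | apply isT_PP
    | apply isT_isD
    | (refine IsT.ex ?_ (fun _ _ _ _ => ?_))
    | (refine IsT.all ?_ (fun _ _ _ _ => ?_))
    | apply IsT.and
    | apply IsT.or
    | apply IsT.imp
    | apply IsT.eq
    | apply IsT.lt
    | apply IsE.add
    | apply IsE.mul

theorem isT_rCn (hN : IsE k N) (hx : IsE k x) (hm : IsE k m) :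
    IsT k (fun w env => rCn (N env) w (x env) (m env)) := by
  unfold rCn
  repeat' first
    | exact IsE.const _
    | (refine IsE.mono ?_ (by assumption); omega)
    | apply isT_lk
    | apply isT_AA
    | apply isT_PP
    | apply isT_isD
    | (refine IsT.ex ?_ (fun _ _ _ _ => ?_))
    | (refine IsT.all ?_ (fun _ _ _ _ => ?_))
    | apply IsT.and
    | apply IsT.or
    | apply IsT.imp
    | apply IsT.eq
    | apply IsT.lt
    | apply IsE.add
    | apply IsE.mul

theorem isT_rIt (hN : IsE k N) (hr : IsE k r) (hr' : IsE k r') (hd : IsE k d) (hx : IsE k x) (hi : IsE k i) (hu : IsE k u) :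
    IsT k (fun w env => rIt (N env) w (r env) (r' env) (d env) (x env) (i env) (u env)) := by
  unfold rIt
  repeat' first
    | exact IsE.const _
    | (refine IsE.mono ?_ (by assumption); omega)
    | apply isT_lk
    | apply isT_AA
    | apply isT_PP
    | apply isT_isD
    | (refine IsT.ex ?_ (fun _ _ _ _ => ?_))
    | (refine IsT.all ?_ (fun _ _ _ _ => ?_))
    | apply IsT.and
    | apply IsT.or
    | apply IsT.imp
    | apply IsT.eq
    | apply IsT.lt
    | apply IsE.add
    | apply IsE.mul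

theorem isT_rIc (hN : IsE k N) (hx : IsE k x) (hd : IsE k d) (hv : IsE k v) :
    IsT k (fun w env => rIc (N env) w (x env) (d env) (v env)) := by
  unfold rIc
  repeat' first
    | exact IsE.const _
    | (refine IsE.mono ?_ (by assumption); omega)
    | apply isT_lk
    | apply isT_AA
    | apply isT_PP
    | apply isT_isD
    | (refine IsT.ex ?_ (fun _ _ _ _ => ?_))
    | (refine IsT.all ?_ (fun _ _ _ _ => ?_))
    | apply IsT.and
    | apply IsT.or
    | apply IsT.imp
    | apply IsT.eq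
    | apply IsT.lt
    | apply IsE.add
    | apply IsE.mul

theorem isT_bef (hN : IsE k N) (hl : IsE k l) (hy : IsE k y) (hi : IsE k i) (hu : IsE k u) :
    IsT k (fun w env => bef (N env) w (l env) (y env) (i env) (u env)) := by
  unfold bef
  repeat' first
    | exact IsE.const _
    | (refine IsE.mono ?_ (by assumption); omega)
    | apply isT_lk
    | (refine IsT.ex ?_ (fun _ _ _ _ => ?_))
    | (refine IsT.all ?_ (fun _ _ _ _ => ?_))
    | apply IsT.and
    | apply IsT.or
    | apply IsT.imp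
    | apply IsT.eq
    | apply IsT.lt
    | apply IsE.add
    | apply IsE.mul

theorem isT_Im (hN : IsE k N) (hc : IsE k c) (hi : IsE k i) (hu : IsE k u) :
    IsT k (fun w env => Im (N env) w (c env) (i env) (u env)) := by
  unfold Im
  repeat' first
    | exact IsE.const _
    | (refine IsE.mono ?_ (by assumption); omega)
    | apply isT_lk
    | (refine IsT.ex ?_ (fun _ _ _ _ => ?_))
    | (refine IsT.all ?_ (fun _ _ _ _ => ?_))
    | apply IsT.and
    | apply IsT.or
    | apply IsT.imp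
    | apply IsT.eq
    | apply IsT.lt
    | apply IsE.add
    | apply IsE.mul

theorem isT_fsti (hN : IsE k N) (hc : IsE k c) (hm : IsE k m) (hi : IsE k i) (hu : IsE k u) :
    IsT k (fun w env => fsti (N env) w (c env) (m env) (i env) (u env)) := by
  unfold fsti
  repeat' first
    | exact IsE.const _
    | (refine IsE.mono ?_ (by assumption); omega)
    | apply isT_lk
    | apply isT_Im
    | apply isT_bef
    | (refine IsT.ex ?_ (fun _ _ _ _ => ?_))
    | (refine IsT.all ?_ (fun _ _ _ _ => ?_))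
    | apply IsT.and
    | apply IsT.or
    | apply IsT.imp
    | apply IsT.eq
    | apply IsT.lt
    | apply IsE.add
    | apply IsE.mul

theorem isT_nxti (hN : IsE k N) (hc : IsE k c) (hm : IsE k m) (hj : IsE k j) (hv : IsE k v) (hi : IsE k i) (hu : IsE k u) :
    IsT k (fun w env => nxti (N env) w (c env) (m env) (j env) (v env) (i env) (u env)) := by
  unfold nxti
  repeat' first
    | exact IsE.const _
    | (refine IsE.mono ?_ (by assumption); omega)
    | apply isT_lk
    | apply isT_Im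
    | apply isT_bef
    | (refine IsT.ex ?_ (fun _ _ _ _ => ?_))
    | (refine IsT.all ?_ (fun _ _ _ _ => ?_))
    | apply IsT.and
    | apply IsT.or
    | apply IsT.imp
    | apply IsT.eq
    | apply IsT.lt
    | apply IsE.add
    | apply IsE.mul

theorem isT_lsti (hN : IsE k N) (hc : IsE k c) (hm : IsE k m) (hi : IsE k i) (hu : IsE k u) :
    IsT k (fun w env => lsti (N env) w (c env) (m env) (i env) (u env)) := by
  unfold lsti
  repeat' first
    | exact IsE.const _
    | (refine IsE.mono ?_ (by assumption); omega)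
    | apply isT_lk
    | apply isT_Im
    | apply isT_bef
    | (refine IsT.ex ?_ (fun _ _ _ _ => ?_))
    | (refine IsT.all ?_ (fun _ _ _ _ => ?_))
    | apply IsT.and
    | apply IsT.or
    | apply IsT.imp
    | apply IsT.eq
    | apply IsT.lt
    | apply IsE.add
    | apply IsE.mul

theorem isT_shs (hN : IsE k N) (hr : IsE k r) (hr' : IsE k r') (ho : IsE k o) (ho' : IsE k o') (hc : IsE k c) (hj : IsE k j) (hi : IsE k i) (hu : IsE k u) (hv : IsE k v) (ha : IsE k a) (hb : IsE k b) (hq : IsE k q) :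
    IsT k (fun w env => shs (N env) w (r env) (r' env) (o env) (o' env) (c env) (j env) (i env) (u env) (v env) (a env) (b env) (q env)) := by
  unfold shs
  repeat' first
    | exact IsE.const _
    | (refine IsE.mono ?_ (by assumption); omega)
    | apply isT_lk
    | (refine IsT.ex ?_ (fun _ _ _ _ => ?_))
    | (refine IsT.all ?_ (fun _ _ _ _ => ?_))
    | apply IsT.and
    | apply IsT.or
    | apply IsT.imp
    | apply IsT.eq
    | apply IsT.lt
    | apply IsE.add
    | apply IsE.mul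

theorem isT_shl (hN : IsE k N) (hr : IsE k r) (hr' : IsE k r') (ho : IsE k o) (ho' : IsE k o') (hc : IsE k c) (hj : IsE k j) (hi : IsE k i) (hu : IsE k u) (hv : IsE k v) (ha : IsE k a) (hb : IsE k b) (hq : IsE k q) (hg : IsE k g) :
    IsT k (fun w env => shl (N env) w (r env) (r' env) (o env) (o' env) (c env) (j env) (i env) (u env) (v env) (a env) (b env) (q env) (g env)) := by
  unfold shl
  repeat' first
    | exact IsE.const _
    | (refine IsE.mono ?_ (by assumption); omega)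
    | apply isT_lk
    | (refine IsT.ex ?_ (fun _ _ _ _ => ?_))
    | (refine IsT.all ?_ (fun _ _ _ _ => ?_))
    | apply IsT.and
    | apply IsT.or
    | apply IsT.imp
    | apply IsT.eq
    | apply IsT.lt
    | apply IsE.add
    | apply IsE.mul

theorem isT_rAc (hN : IsE k N) (hr : IsE k r) (hr' : IsE k r') (ho : IsE k o) (ho' : IsE k o') (hc : IsE k c) (hi : IsE k i) (hb : IsE k b) :
    IsT k (fun w env => rAc (N env) w (r env) (r' env) (o env) (o' env) (c env) (i env) (b env)) := by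
  unfold rAc
  repeat' first
    | exact IsE.const _
    | (refine IsE.mono ?_ (by assumption); omega)
    | apply isT_lk
    | apply isT_fsti
    | apply isT_nxti
    | apply isT_shs
    | apply isT_shl
    | apply isT_Im
    | (refine IsT.ex ?_ (fun _ _ _ _ => ?_))
    | (refine IsT.all ?_ (fun _ _ _ _ => ?_))
    | apply IsT.and
    | apply IsT.or
    | apply IsT.imp
    | apply IsT.eq
    | apply IsT.lt
    | apply IsE.add
    | apply IsE.mul

theorem isT_rNn (hN : IsE k N) (hc : IsE k c) :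
    IsT k (fun w env => rNn (N env) w (c env)) := by
  unfold rNn
  repeat' first
    | exact IsE.const _
    | (refine IsE.mono ?_ (by assumption); omega)
    | apply isT_lk
    | apply isT_lsti
    | apply isT_Im
    | (refine IsT.ex ?_ (fun _ _ _ _ => ?_))
    | (refine IsT.all ?_ (fun _ _ _ _ => ?_))
    | apply IsT.and
    | apply IsT.or
    | apply IsT.imp
    | apply IsT.eq
    | apply IsT.lt
    | apply IsE.add
    | apply IsE.mul

theorem isT_rNe (hN : IsE k N) (hc : IsE k c) :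
    IsT k (fun w env => rNe (N env) w (c env)) := by
  unfold rNe
  repeat' first
    | exact IsE.const _
    | (refine IsE.mono ?_ (by assumption); omega)
    | apply isT_lk
    | apply isT_lsti
    | apply isT_Im
    | (refine IsT.ex ?_ (fun _ _ _ _ => ?_))
    | (refine IsT.all ?_ (fun _ _ _ _ => ?_))
    | apply IsT.and
    | apply IsT.or
    | apply IsT.imp
    | apply IsT.eq
    | apply IsT.lt
    | apply IsE.add
    | apply IsE.mul

theorem isT_step (hN : IsE k N) (hr : IsE k r) (hx : IsE k x) (hy : IsE k y) (hz : IsE k z) :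
    IsT k (fun w env => step (N env) w (r env) (x env) (y env) (z env)) := by
  unfold step
  repeat' first
    | exact IsE.const _
    | (refine IsE.mono ?_ (by assumption); omega)
    | apply isT_lk
    | apply isT_rPow
    | apply isT_rMod
    | apply isT_rTm
    | apply isT_rVl
    | apply isT_rRs
    | apply isT_rCt
    | apply isT_rCp
    | apply isT_rOk
    | apply isT_rNg
    | apply isT_rCn
    | apply isT_rIt
    | apply isT_rNn
    | apply isT_rNe
    | apply isT_rIc
    | apply isT_rAc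
    | (refine IsT.ex ?_ (fun _ _ _ _ => ?_))
    | (refine IsT.all ?_ (fun _ _ _ _ => ?_))
    | apply IsT.and
    | apply IsT.or
    | apply IsT.imp
    | apply IsT.eq
    | apply IsT.lt
    | apply IsE.add
    | apply IsE.mul

theorem isT_init (hr : IsE k r) (hx : IsE k x) (hy : IsE k y) (hz : IsE k z) :
    IsT k (fun v env => init v (r env) (x env) (y env) (z env)) :=
  (IsT.eq hr (IsE.const 8)).and ((IsT.eq hy (IsE.const 0)).and
    ((IsT.eq hz (IsE.const 0)).and (IsT.bit hx)))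

end tests

end PM80
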