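import Pool.Agent.OM80.Terms

/-!
# Closed terms with signs, powers of two and products
-/

set_option autoImplicit false

namespace PM80

open OM80 (sg sg_false sg_true sg_not sg_xor)

/-- Closed terms: `Z = 0`, `A false u t = 2 ^ u + t`, `A true u t = - 2 ^ u + t`,
`P p q t = p * q + t`. -/
inductive Pt : Type
  | Z : Pt
  | A (b : Bool) (u t : Pt) : Pt
  | P (p q t : Pt) : Pt

namespace Pt

/-- Real value. -/
noncomputable def rv : Pt → ℝ
  | Z => 0
  | A b u t => (sg b : ℝ) * (2 : ℝ) ^ (rv u) + rv t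
  | P p q t => rv p * rv q + rv t

/-- Number of nodes. -/
def sz : Pt → ℕ
  | Z => 1
  | A _ u t => u.sz + t.sz + 1
  | P p q t => p.sz + q.sz + t.sz + 1

/-- All exponents are nonnegative. -/
def Ok : Pt → Prop
  | Z => True
  | A _ u t => u.Ok ∧ 0 ≤ rv u ∧ t.Ok
  | P p q t => p.Ok ∧ q.Ok ∧ t.Ok

/-- Natural value. -/
noncomputable def nv (t : Pt) : ℕ := ⌊rv t⌋₊

theorem one_le_sz (t : Pt) : 1 ≤ t.sz := by
  cases t <;> simp [sz]

theorem rv_A (b : Bool) (u t : Pt) : rv (A b u t) = (sg b : ℝ) * (2 : ℝ) ^ (rv u) + rv t := rfl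

theorem rv_P (p q t : Pt) : rv (P p q t) = rv p * rv q + rv t := rfl

theorem Ok.int {t : Pt} (h : t.Ok) : ∃ z : ℤ, rv t = z := by
  induction t with
  | Z => exact ⟨0, by simp [rv]⟩
  | A b u t ihu iht =>
    obtain ⟨h1, h2, h3⟩ := h
    obtain ⟨z, hz⟩ := ihu h1
    obtain ⟨z', hz'⟩ := iht h3
    have hz0 : 0 ≤ z := by
      rw [hz] at h2
      exact_mod_cast h2
    lift z to ℕ using hz0
    refine ⟨sg b * 2 ^ z + z', ?_⟩
    rw [rv_A, hz, hz']
    push_cast
    rw [Real.rpow_natCast]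
  | P p q t ihp ihq iht =>
    obtain ⟨h1, h2, h3⟩ := h
    obtain ⟨x, hx⟩ := ihp h1
    obtain ⟨y, hy⟩ := ihq h2
    obtain ⟨z, hz⟩ := iht h3
    refine ⟨x * y + z, ?_⟩
    rw [rv_P, hx, hy, hz]
    push_cast
    ring

theorem nv_eq {t : Pt} (h : t.Ok) (h0 : 0 ≤ rv t) : rv t = nv t := by
  obtain ⟨z, hz⟩ := h.int
  have hz0 : 0 ≤ z := by
    rw [hz] at h0
    exact_mod_cast h0
  lift z to ℕ using hz0
  rw [nv, hz]
  simp

end Pt

open Pt

/-- Successor. -/
def inc (t : Pt) : Pt := A false Z t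

/-- Iterated successor. -/
def inct : ℕ → Pt → Pt
  | 0, t => t
  | j + 1, t => inc (inct j t)

theorem rv_inc (t : Pt) : rv (inc t) = rv t + 1 := by
  rw [inc, rv_A, rv]
  simp
  ring

theorem rv_inct (j : ℕ) (t : Pt) : rv (inct j t) = rv t + j := by
  induction j with
  | zero => simp [inct]
  | succ j ih =>
    rw [inct, rv_inc, ih]
    push_cast
    ring

theorem sz_inc (t : Pt) : (inc t).sz = t.sz + 2 := by
  simp only [inc, sz]
  ring

theorem sz_inct (j : ℕ) (t : Pt) : (inct j t).sz = t.sz + 2 * j := by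
  induction j with
  | zero => simp [inct]
  | succ j ih =>
    rw [inct, sz_inc, ih]
    ring

theorem Pt.Ok.inc {t : Pt} (h : t.Ok) : (PM80.inc t).Ok := ⟨trivial, le_refl (0 : ℝ), h⟩

theorem Pt.Ok.inct {t : Pt} (h : t.Ok) (j : ℕ) : (PM80.inct j t).Ok := by
  induction j with
  | zero => exact h
  | succ j ih => exact ih.inc

/-- Concatenation, adds the values. -/
def cat : Pt → Pt → Pt
  | Z, t' => t'
  | A b u t, t' => A b u (cat t t')
  | P p q t, t' => P p q (cat t t')

/-- Opposite. -/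
def neg : Pt → Pt
  | Z => Z
  | A b u t => A (!b) u (neg t)
  | P p q t => P (neg p) q (neg t)

theorem rv_cat (t t' : Pt) : rv (cat t t') = rv t + rv t' := by
  induction t with
  | Z => simp [cat, rv]
  | A b u t _ ih =>
    rw [cat, rv_A, rv_A, ih]
    ring
  | P p q t _ _ ih =>
    rw [cat, rv_P, rv_P, ih]
    ring

theorem rv_neg (t : Pt) : rv (neg t) = - rv t := by
  induction t with
  | Z => simp [neg, rv]
  | A b u t _ ih =>
    rw [neg, rv_A, rv_A, ih, sg_not]
    push_cast
    ring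
  | P p q t ihp _ ih =>
    rw [neg, rv_P, rv_P, ih, ihp]
    ring

theorem sz_cat (t t' : Pt) : (cat t t').sz + 1 = t.sz + t'.sz := by
  induction t with
  | Z => simp only [cat, sz]; ring
  | A b u t _ ih => simp only [cat, sz]; omega
  | P p q t _ _ ih => simp only [cat, sz]; omega

theorem sz_neg (t : Pt) : (neg t).sz = t.sz := by
  induction t with
  | Z => rfl
  | A b u t _ ih => simp only [neg, sz, ih]
  | P p q t ihp _ ih => simp only [neg, sz, ih, ihp]

theorem Pt.Ok.cat {t t' : Pt} (h : t.Ok) (h' : t'.Ok) : (PM80.cat t t').Ok := by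
  induction t with
  | Z => exact h'
  | A b u t _ ih => exact ⟨h.1, h.2.1, ih h.2.2⟩
  | P p q t _ _ ih => exact ⟨h.1, h.2.1, ih h.2.2⟩

theorem Pt.Ok.neg {t : Pt} (h : t.Ok) : (PM80.neg t).Ok := by
  induction t with
  | Z => trivial
  | A b u t _ ih => exact ⟨h.1, h.2.1, ih h.2.2⟩
  | P p q t ihp _ ih => exact ⟨ihp h.1, h.2.1, ih h.2.2⟩

/-- Number of items of the expansion of a term as a signed sum of powers of two. -/
def cnt : Pt → ℕ
  | Z => 0
  | A _ _ t => cnt t + 1
  | P p q t => cnt p * cnt q + cnt t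

/-- The items of the expansion: sign and exponent. -/
def item : Pt → ℕ → Bool × Pt
  | Z, _ => (false, Z)
  | A b u t, i => if i = 0 then (b, u) else item t (i - 1)
  | P p q t, i => if i < cnt p * cnt q then
      (xor (item p (i / cnt q)).1 (item q (i % cnt q)).1,
        cat (item p (i / cnt q)).2 (item q (i % cnt q)).2)
    else item t (i - cnt p * cnt q)

theorem item_A0 (b : Bool) (u t : Pt) : item (A b u t) 0 = (b, u) := by simp [item]

theorem item_AS (b : Bool) (u t : Pt) (i : ℕ) : item (A b u t) (i + 1) = item t i := by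
  simp [item]

theorem item_P1 (p q t : Pt) {i j : ℕ} (hi : i < cnt p) (hj : j < cnt q) :
    item (P p q t) (i * cnt q + j) =
      (xor (item p i).1 (item q j).1, cat (item p i).2 (item q j).2) := by
  have h1 : i * cnt q + j < cnt p * cnt q := by
    have : (i + 1) * cnt q ≤ cnt p * cnt q := Nat.mul_le_mul_right _ hi
    rw [Nat.add_mul, one_mul] at this
    omega
  have h2 : (i * cnt q + j) / cnt q = i := by
    rw [mul_comm, Nat.mul_add_div (by omega), Nat.div_eq_of_lt hj, add_zero]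
  have h3 : (i * cnt q + j) % cnt q = j := by
    rw [mul_comm, Nat.mul_add_mod, Nat.mod_eq_of_lt hj]
  rw [item, if_pos h1, h2, h3]

theorem item_P2 (p q t : Pt) (i : ℕ) : item (P p q t) (cnt p * cnt q + i) = item t i := by
  rw [item, if_neg (by omega), Nat.add_sub_cancel_left]

/-- Positions in a product. -/
theorem pos_P {p q t : Pt} {i : ℕ} (h : i < cnt (P p q t)) :
    (∃ i1 < cnt p, ∃ i2 < cnt q, i = i1 * cnt q + i2) ∨
      ∃ i' < cnt t, i = cnt p * cnt q + i' := by
  simp only [cnt] at h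
  rcases Nat.lt_or_ge i (cnt p * cnt q) with h1 | h1
  · left
    have hq : 0 < cnt q := by
      rcases Nat.eq_zero_or_pos (cnt q) with h2 | h2
      · rw [h2, mul_zero] at h1
        omega
      · exact h2
    refine ⟨i / cnt q, (Nat.div_lt_iff_lt_mul hq).2 h1, i % cnt q, Nat.mod_lt _ hq, ?_⟩
    exact (Nat.div_add_mod' i (cnt q)).symm
  · exact Or.inr ⟨i - cnt p * cnt q, by omega, by omega⟩

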